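import Pool.Agent.Helper61_HN.Select

/-!
# The diagonal transversal is not contained in a Borel Haar null set
-/

set_option autoImplicit false
set_option linter.unusedSectionVars false

namespace Pool.Agent.HN

open MeasureTheory Set Filter Topology
open scoped ENNReal

variable {G : Type*} [Group G] [TopologicalSpace G] [PolishSpace G] [MeasurableSpace G]
  [BorelSpace G]

/-- the closed set coded by `x` -/
theorem exists_code {Z : Type*} [TopologicalSpace Z] [SecondCountableTopology Z] :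
    ∃ W : ℕ → Set Z, (∀ n, IsOpen (W n)) ∧ ∀ C : Set Z, IsClosed C →
      ∃ x : ℕ → Bool, ∀ q, q ∈ C ↔ ∀ n, x n = true → q ∉ W n := by
  classical
  obtain ⟨b, hbc, -, hb⟩ := TopologicalSpace.exists_countable_basis Z
  obtain ⟨W, hW⟩ : ∃ W : ℕ → Set Z, insert ∅ b = range W :=
    (hbc.insert ∅).exists_eq_range (insert_nonempty _ _)
  have hWo : ∀ n, IsOpen (W n) := by
    intro n
    have : W n ∈ insert ∅ b := by rw [hW]; exact mem_range_self n
    rcases this with h | h
    · rw [h]; exact isOpen_empty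
    · exact hb.isOpen h
  refine ⟨W, hWo, fun C hC => ⟨fun n => decide (Disjoint (W n) C), fun q => ?_⟩⟩
  simp only [decide_eq_true_eq]
  constructor
  · intro hq n hn hqn
    exact disjoint_left.1 hn hqn hq
  · intro h
    by_contra hq
    obtain ⟨v, hv, hqv, hvC⟩ := hb.mem_nhds_iff.1 (hC.isOpen_compl.mem_nhds hq)
    have : v ∈ range W := by rw [← hW]; exact mem_insert_of_mem _ hv
    obtain ⟨n, rfl⟩ := this
    exact h n (disjoint_left.2 fun a ha hc => hvC ha hc) hqv

/-- the set is contained in a Borel set all of whose two-sided translates are null for one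
probability measure -/
def HaarNull {G : Type*} [Group G] [MeasurableSpace G] (A : Set G) : Prop :=
  ∃ B : Set G, MeasurableSet B ∧ A ⊆ B ∧ ∃ μ : Measure G, IsProbabilityMeasure μ ∧
    ∀ g h : G, μ ((fun x => g * x * h) '' B) = 0

/-- the set is contained in a universally measurable set all of whose two-sided translates are
null for one probability measure -/
def GenHaarNull {G : Type*} [Group G] [MeasurableSpace G] (A : Set G) : Prop :=
  ∃ B : Set G, (∀ ν : Measure G, IsProbabilityMeasure ν → NullMeasurableSet B ν) ∧ A ⊆ B ∧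
    ∃ μ : Measure G, IsProbabilityMeasure μ ∧ ∀ g h : G, μ ((fun x => g * x * h) '' B) = 0

/-- **The diagonal transversal.** -/
theorem exists_diag {F : Set G} (hF : MeasurableSet F) {φ : G → (ℕ → Bool)}
    (hφ : Measurable φ)
    (hcap : ∀ (x : ℕ → Bool) (ν : Measure G), IsProbabilityMeasure ν →
      ∃ g h : G, ν {k | g * k * h ∈ F ∧ φ (g * k * h) = x} ≠ 0) :
    ∃ A ⊆ F, InjOn φ A ∧ UM A ∧ ¬ HaarNull A := by
  obtain ⟨W, hWo, hW⟩ := exists_code (Z := G × (ℕ → ℕ))
  set S : Set (G × (ℕ → ℕ)) := {q | q.1 ∈ F ∧ ∀ n, φ q.1 n = true → q ∉ W n} with hS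
  have hSm : MeasurableSet S := by
    have : S = (Prod.fst ⁻¹' F) ∩ ⋂ n, ((Prod.fst ⁻¹' {p | φ p n = true})ᶜ ∪ (W n)ᶜ) := by
      ext q
      simp only [hS, mem_ofPred_eq, mem_inter_iff, mem_preimage, mem_iInter, mem_union,
        mem_compl_iff]
      constructor
      · rintro ⟨h1, h2⟩
        refine ⟨h1, fun n => ?_⟩
        by_cases h : φ q.1 n = true
        · exact Or.inr (h2 n h)
        · exact Or.inl h
      · rintro ⟨h1, h2⟩
        refine ⟨h1, fun n h => ?_⟩
        rcases h2 n with h3 | h3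
        · exact absurd h h3
        · exact h3
    rw [this]
    refine (measurable_fst hF).inter (MeasurableSet.iInter fun n => ?_)
    refine MeasurableSet.union (MeasurableSet.compl (measurable_fst ?_))
      ((hWo n).measurableSet.compl)
    have h1 : Measurable fun p => φ p n := (measurable_pi_apply n).comp hφ
    exact h1 (MeasurableSet.singleton true)
  have hE : AnalyticSet (Prod.fst '' S : Set G) := hSm.analyticSet_image measurable_fst
  obtain ⟨A, hAE, hinj, hsurj, hum⟩ := exists_transversal hE hφ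
  refine ⟨A, ?_, hinj, hum, ?_⟩
  · intro p hp
    obtain ⟨q, hq, rfl⟩ := hAE hp
    exact hq.1
  rintro ⟨B, hB, hAB, ν, hν, hnull⟩
  -- code the complement of `B`
  have hBc : ∃ C : Set (G × (ℕ → ℕ)), IsClosed C ∧ ∀ p, p ∈ Bᶜ ↔ ∃ z, (p, z) ∈ C := by
    have han : AnalyticSet Bᶜ := hB.compl.analyticSet
    rw [AnalyticSet] at han
    rcases han with h | ⟨f, hf, hfr⟩
    · refine ⟨∅, isClosed_empty, fun p => ?_⟩
      rw [h]
      simp
    · refine ⟨{q | f q.2 = q.1}, isClosed_eq (hf.comp continuous_snd) continuous_fst,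
        fun p => ?_⟩
      rw [← hfr]
      simp
  obtain ⟨C, hC, hCB⟩ := hBc
  obtain ⟨x, hx⟩ := hW C hC
  obtain ⟨g, h, hgh⟩ := hcap x ν hν
  have h0 := hnull g⁻¹ h⁻¹
  obtain ⟨k, hk1, hk2⟩ : ∃ k, k ∈ {k | g * k * h ∈ F ∧ φ (g * k * h) = x} ∧
      k ∉ (fun y => g⁻¹ * y * h⁻¹) '' B := by
    by_contra hcon
    push Not at hcon
    exact hgh (measure_mono_null (fun k hk => hcon k hk) h0)
  have hpB : g * k * h ∈ Bᶜ := by
    intro hp
    exact hk2 ⟨g * k * h, hp, by group⟩
  obtain ⟨z, hz⟩ := (hCB _).1 hpB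
  have hpE : g * k * h ∈ (Prod.fst '' S : Set G) := by
    refine ⟨(g * k * h, z), ⟨hk1.1, ?_⟩, rfl⟩
    simp only
    rw [hk1.2]
    exact (hx _).1 hz
  obtain ⟨a, haA, haφ⟩ := hsurj ⟨_, hpE, rfl⟩
  obtain ⟨q, hq, hqa⟩ := hAE haA
  have hq2 := hq.2
  rw [hqa, haφ, hk1.2] at hq2
  have hqC : q ∈ C := (hx q).2 hq2
  have : a ∈ Bᶜ := (hCB a).2 ⟨q.2, by rw [← hqa]; exact hqC⟩
  exact this (hAB haA)

end Pool.Agent.HN
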