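import Mathlib

/-!
# Analytic sets are universally measurable; a universally measurable uniformization
-/

set_option autoImplicit false
set_option linter.unusedSectionVars false

namespace Pool.Agent.HN

open MeasureTheory Set Filter Topology
open scoped ENNReal

/-- dependent choice along the natural numbers -/
theorem exists_local_seq {α : Type*} [Inhabited α] (P : ℕ → (ℕ → α) → α → Prop)
    (hloc : ∀ n c c' a, (∀ m < n, c m = c' m) → P n c a → P n c' a)
    (hex : ∀ n c, ∃ a, P n c a) : ∃ c : ℕ → α, ∀ n, P n c (c n) := by
  classical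
  let step : ∀ n : ℕ, (∀ m, m < n → α) → α := fun n f =>
    (hex n (fun m => if h : m < n then f m h else default)).choose
  let c : ℕ → α := fun n => Nat.strongRecOn n step
  have hc : ∀ n, c n = step n (fun m _ => c m) := by
    intro n
    exact Nat.strongRecOn_eq (motive := fun _ => α) step n
  refine ⟨c, fun n => ?_⟩
  rw [hc n]
  refine hloc n (fun m => if h : m < n then c m else default) c _ ?_ ?_
  · intro m hm
    simp [hm]
  · exact (hex n (fun m => if h : m < n then c m else default)).choose_spec

section Null

/-- bounded by `z` on the first `k` coordinates -/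
def box (z : ℕ → ℕ) (k : ℕ) : Set (ℕ → ℕ) := {w | ∀ i < k, w i ≤ z i}

theorem box_congr {z z' : ℕ → ℕ} {k : ℕ} (h : ∀ i < k, z i = z' i) : box z k = box z' k := by
  ext w
  constructor
  · intro hw i hi
    rw [← h i hi]
    exact hw i hi
  · intro hw i hi
    rw [h i hi]
    exact hw i hi

theorem isCompact_le (z : ℕ → ℕ) : IsCompact {w : ℕ → ℕ | ∀ i, w i ≤ z i} := by
  have : {w : ℕ → ℕ | ∀ i, w i ≤ z i} = Set.pi univ fun i => Set.Iic (z i) := by
    ext w; simp [Pi.le_def]
  rw [this]
  exact isCompact_univ_pi fun i => (Set.finite_Iic (z i)).isCompact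

theorem exists_box_subset {z : ℕ → ℕ} {W : Set (ℕ → ℕ)} (hW : IsOpen W)
    (h : {w : ℕ → ℕ | ∀ i, w i ≤ z i} ⊆ W) : ∃ k, box z k ⊆ W := by
  let _ : MetricSpace (ℕ → ℕ) := PiNat.metricSpaceNatNat
  obtain ⟨δ, hδ, hsub⟩ := (isCompact_le z).exists_thickening_subset_open hW h
  obtain ⟨k, hk⟩ : ∃ k : ℕ, (1 / 2 : ℝ) ^ k < δ := exists_pow_lt_of_lt_one hδ (by norm_num)
  refine ⟨k, fun w hw => hsub ?_⟩
  rw [Metric.mem_thickening_iff]
  refine ⟨fun i => if i < k then w i else 0, ?_, ?_⟩
  · intro i
    by_cases hi : i < k
    · simp only [hi, if_true]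
      exact hw i hi
    · simp [hi]
  · refine lt_of_le_of_lt ?_ hk
    rw [← PiNat.mem_cylinder_iff_dist_le, PiNat.mem_cylinder_iff]
    intro i hi
    simp [hi]

variable {X : Type*} [TopologicalSpace X] [T2Space X] [MeasurableSpace X] [BorelSpace X]

theorem exists_compact_of_analytic {f : (ℕ → ℕ) → X} (hf : Continuous f) (ν : Measure X)
    [IsFiniteMeasure ν] {c : ℝ≥0∞} (hc : c < ν (range f)) :
    ∃ K ⊆ range f, IsCompact K ∧ c ≤ ν K := by
  classical
  obtain ⟨z, hz⟩ := exists_local_seq
    (fun n (z : ℕ → ℕ) a => c < ν (f '' box z n) → c < ν (f '' box (Function.update z n a) (n + 1)))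
    (by
      intro n z z' a h hP h1
      rw [box_congr (fun i hi => (h i hi).symm)] at h1
      refine (hP h1).trans_eq ?_
      congr 2
      apply box_congr
      intro i hi
      rcases Nat.lt_succ_iff_lt_or_eq.1 hi with hi | rfl
      · rw [Function.update_of_ne hi.ne, Function.update_of_ne hi.ne]
        exact h i hi
      · simp)
    (by
      intro n z
      by_cases h : c < ν (f '' box z n)
      swap
      · exact ⟨0, fun h' => absurd h' h⟩
      have hU : f '' box z n = ⋃ a : ℕ, f '' box (Function.update z n a) (n + 1) := by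
        rw [← image_iUnion]
        congr 1
        ext w
        simp only [box, mem_iUnion]
        constructor
        · intro hw
          refine ⟨w n, fun i hi => ?_⟩
          rcases Nat.lt_succ_iff_lt_or_eq.1 hi with hi | rfl
          · rw [Function.update_of_ne hi.ne]
            exact hw i hi
          · simp
        · rintro ⟨a, ha⟩ i hi
          have := ha i (by omega)
          rwa [Function.update_of_ne hi.ne] at this
      have hmono : Monotone fun a : ℕ => f '' box (Function.update z n a) (n + 1) := by
        intro a b hab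
        apply image_mono
        intro w hw i hi
        rcases Nat.lt_succ_iff_lt_or_eq.1 hi with hi' | rfl
        · have := hw i hi
          rwa [Function.update_of_ne hi'.ne] at this ⊢
        · have := hw i hi
          simp only [Function.update_self] at this ⊢
          exact this.trans hab
      rw [hU, hmono.measure_iUnion] at h
      obtain ⟨a, ha⟩ := lt_iSup_iff.1 h
      exact ⟨a, fun _ => ha⟩)
  have hall : ∀ n, c < ν (f '' box z n) := by
    intro n
    induction n with
    | zero =>
      have : box z 0 = univ := by ext w; simp [box]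
      rw [this, image_univ]
      exact hc
    | succ n ih =>
      have := hz n ih
      rwa [Function.update_eq_self] at this
  refine ⟨f '' {w | ∀ i, w i ≤ z i}, image_subset_range _ _, (isCompact_le z).image hf, ?_⟩
  have hK : (⋂ n, closure (f '' box z n)) ⊆ f '' {w | ∀ i, w i ≤ z i} := by
    intro p hp
    by_contra hpK
    have hcomp : IsCompact (f '' {w | ∀ i, w i ≤ z i}) := (isCompact_le z).image hf
    obtain ⟨U, V, hU, hV, hKU, hpV, hdis⟩ :=
      hcomp.separation_of_notMem hpK
    obtain ⟨k, hk⟩ := exists_box_subset (z := z) (hU.preimage hf) (by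
      intro w hw
      exact hKU ⟨w, hw, rfl⟩)
    have h1 : f '' box z k ⊆ U := by
      rintro _ ⟨w, hw, rfl⟩
      exact hk hw
    have h2 := mem_iInter.1 hp k
    rw [mem_closure_iff] at h2
    obtain ⟨q, hq1, hq2⟩ := h2 V hV hpV
    exact (disjoint_left.1 hdis) (h1 hq2) hq1
  refine le_trans ?_ (measure_mono hK)
  have hanti : Antitone fun n => closure (f '' box z n) := by
    intro a b hab
    apply closure_mono
    apply image_mono
    intro w hw i hi
    exact hw i (by omega)
  rw [hanti.measure_iInter (fun n => isClosed_closure.measurableSet.nullMeasurableSet)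
    ⟨0, measure_ne_top _ _⟩]
  exact le_iInf fun n => (hall n).le.trans (measure_mono subset_closure)

/-- **Analytic sets are universally measurable.** -/
theorem analytic_nullMeasurable {S : Set X} (hS : AnalyticSet S) (ν : Measure X)
    [IsFiniteMeasure ν] : NullMeasurableSet S ν := by
  rw [AnalyticSet] at hS
  rcases hS with rfl | ⟨f, hf, rfl⟩
  · exact nullMeasurableSet_empty
  by_cases h0 : ν (range f) = 0
  · exact NullMeasurableSet.of_null h0
  obtain ⟨u, -, hu, hlim⟩ := exists_seq_strictMono_tendsto' (pos_iff_ne_zero.2 h0)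
  choose K hK1 hK2 hK3 using fun n => exists_compact_of_analytic hf ν (hu n).2
  have hT : MeasurableSet (⋃ n, K n) := MeasurableSet.iUnion fun n => (hK2 n).measurableSet
  have hle : ν (range f) ≤ ν (⋃ n, K n) := by
    apply le_of_tendsto' hlim
    intro n
    exact (hK3 n).trans (measure_mono (subset_iUnion _ n))
  have := ae_eq_of_subset_of_measure_ge (iUnion_subset hK1) hle hT.nullMeasurableSet
    (measure_ne_top _ _)
  exact hT.nullMeasurableSet.congr this

end Null

end Pool.Agent.HN
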