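import Pool.Agent.Helper61_HN.Criterion

/-!
# The criterion with blocks indexed by a universally null set
-/

set_option autoImplicit false
set_option linter.unusedSectionVars false

namespace Pool.Agent.HN

open MeasureTheory Set Filter Topology
open scoped ENNReal


variable {Z : Type*} [MeasurableSpace Z] [MeasurableSingletonClass Z]

/-- Only countably many blocks matter for a finite measure. -/
theorem union_block {X : Type*} [MeasurableSpace X] {Y : Set Z}
    (hY : ∀ ν : Measure Z, IsFiniteMeasure ν → NullSingletonClass ν → ν Y = 0)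
    {y : X → Z} (hy : Measurable y) {A : Z → Set X} (hA : ∀ w, A w ⊆ y ⁻¹' {w})
    (ν : Measure X) [IsFiniteMeasure ν] :
    ∃ C : Set Z, C.Countable ∧ C ⊆ Y ∧ ν ((⋃ w ∈ Y, A w) \ ⋃ w ∈ C, A w) = 0 := by
  set ρ := ν.map y with hρ
  have hρf : IsFiniteMeasure ρ := inferInstance
  set At : Set Z := {w | 0 < ρ {w}} with hAt
  have hAtc : At.Countable :=
    Measure.countable_meas_pos_of_disjoint_iUnion (fun w => MeasurableSet.singleton w)
      (fun a b hab => by simpa using hab)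
  have hAtm : MeasurableSet At := hAtc.measurableSet
  have hna : NullSingletonClass (ρ.restrict Atᶜ) := by
    refine ⟨fun w => ?_⟩
    rw [Measure.restrict_apply (MeasurableSet.singleton w)]
    by_cases hw : w ∈ At
    · have : ({w} : Set Z) ∩ Atᶜ = ∅ := by
        ext v
        simp only [mem_inter_iff, mem_singleton_iff, mem_compl_iff, mem_empty_iff_false,
          iff_false, not_and, not_not]
        rintro rfl
        exact hw
      rw [this, measure_empty]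
    · have : ρ {w} = 0 := by
        simpa [hAt] using hw
      exact measure_mono_null inter_subset_left this
  have h0 := hY (ρ.restrict Atᶜ) inferInstance hna
  obtain ⟨T, hYT, hTm, hT0⟩ := exists_measurable_superset_of_null h0
  refine ⟨At ∩ Y, hAtc.mono inter_subset_left, inter_subset_right, ?_⟩
  have hsub : ((⋃ w ∈ Y, A w) \ ⋃ w ∈ At ∩ Y, A w) ⊆ y ⁻¹' (T ∩ Atᶜ) := by
    rintro x ⟨hx1, hx2⟩
    simp only [mem_iUnion, exists_prop] at hx1
    obtain ⟨w, hwY, hxw⟩ := hx1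
    have hyx : y x = w := hA w hxw
    rw [mem_preimage, hyx]
    refine ⟨hYT hwY, fun hwA => hx2 ?_⟩
    simp only [mem_iUnion, exists_prop]
    exact ⟨w, ⟨hwA, hwY⟩, hxw⟩
  refine measure_mono_null hsub ?_
  rw [← Measure.map_apply hy (hTm.inter hAtm.compl), ← Measure.restrict_apply hTm]
  exact hT0

variable {G : Type*} [Group G] [TopologicalSpace G] [PolishSpace G] [MeasurableSpace G]
  [BorelSpace G]

/-- **The diagonal transversals in blocks.** -/
theorem exists_diag_block {Y : Set Z} {F : Set G} (hF : MeasurableSet F)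
    {y : G → Z} (hy : Measurable y) {φ : G → (ℕ → Bool)} (hφ : Measurable φ)
    (hcap : ∀ (x : ℕ → Bool) (ν : Measure G), IsProbabilityMeasure ν → ∃ w ∈ Y,
      ∃ g h : G, ν {k | g * k * h ∈ F ∧ y (g * k * h) = w ∧ φ (g * k * h) = x} ≠ 0) :
    ∃ A : Z → Set G, (∀ w, A w ⊆ F ∩ y ⁻¹' {w}) ∧ (∀ w, InjOn φ (A w)) ∧
      (∀ w, UM (A w)) ∧ ¬ HaarNull (⋃ w ∈ Y, A w) := by
  obtain ⟨W, hWo, hW⟩ := exists_code (Z := G × (ℕ → ℕ))
  set S : Z → Set (G × (ℕ → ℕ)) :=
    fun w => {q | (q.1 ∈ F ∧ y q.1 = w) ∧ ∀ n, φ q.1 n = true → q ∉ W n} with hS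
  have hSm : ∀ w, MeasurableSet (S w) := by
    intro w
    have : S w = (Prod.fst ⁻¹' (F ∩ y ⁻¹' {w})) ∩
        ⋂ n, ((Prod.fst ⁻¹' {p | φ p n = true})ᶜ ∪ (W n)ᶜ) := by
      ext q
      simp only [hS, mem_ofPred_eq, mem_inter_iff, mem_preimage, mem_iInter, mem_union,
        mem_compl_iff, mem_singleton_iff]
      constructor
      · rintro ⟨h1, h2⟩
        refine ⟨h1, fun n => ?_⟩
        by_cases h : φ q.1 n = true
        · exact Or.inr (h2 n h)
        · exact Or.inl h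
      · rintro ⟨h1, h2⟩
        refine ⟨h1, fun n h => ?_⟩
        rcases h2 n with h3 | h3
        · exact absurd h h3
        · exact h3
    rw [this]
    refine (measurable_fst (hF.inter (hy (MeasurableSet.singleton w)))).inter
      (MeasurableSet.iInter fun n => ?_)
    refine MeasurableSet.union (MeasurableSet.compl (measurable_fst ?_))
      ((hWo n).measurableSet.compl)
    have h1 : Measurable fun p => φ p n := (measurable_pi_apply n).comp hφ
    exact h1 (MeasurableSet.singleton true)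
  have hE : ∀ w, AnalyticSet (Prod.fst '' S w : Set G) :=
    fun w => (hSm w).analyticSet_image measurable_fst
  choose A hAE hinj hsurj hum using fun w => exists_transversal (hE w) hφ
  refine ⟨A, ?_, hinj, hum, ?_⟩
  · intro w p hp
    obtain ⟨q, hq, rfl⟩ := hAE w hp
    exact hq.1
  rintro ⟨B, hB, hAB, ν, hν, hnull⟩
  -- code the complement of `B`
  have hBc : ∃ C : Set (G × (ℕ → ℕ)), IsClosed C ∧ ∀ p, p ∈ Bᶜ ↔ ∃ z, (p, z) ∈ C := by
    have han : AnalyticSet Bᶜ := hB.compl.analyticSet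
    rw [AnalyticSet] at han
    rcases han with h | ⟨f, hf, hfr⟩
    · refine ⟨∅, isClosed_empty, fun p => ?_⟩
      rw [h]
      simp
    · refine ⟨{q | f q.2 = q.1}, isClosed_eq (hf.comp continuous_snd) continuous_fst,
        fun p => ?_⟩
      rw [← hfr]
      simp
  obtain ⟨C, hC, hCB⟩ := hBc
  obtain ⟨x, hx⟩ := hW C hC
  obtain ⟨w, hwY, g, h, hgh⟩ := hcap x ν hν
  have h0 := hnull g⁻¹ h⁻¹
  obtain ⟨k, hk1, hk2⟩ : ∃ k, k ∈ {k | g * k * h ∈ F ∧ y (g * k * h) = w ∧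
      φ (g * k * h) = x} ∧ k ∉ (fun y => g⁻¹ * y * h⁻¹) '' B := by
    by_contra hcon
    push Not at hcon
    exact hgh (measure_mono_null (fun k hk => hcon k hk) h0)
  have hpB : g * k * h ∈ Bᶜ := by
    intro hp
    exact hk2 ⟨g * k * h, hp, by group⟩
  obtain ⟨z, hz⟩ := (hCB _).1 hpB
  have hpE : g * k * h ∈ (Prod.fst '' S w : Set G) := by
    refine ⟨(g * k * h, z), ⟨⟨hk1.1, hk1.2.1⟩, ?_⟩, rfl⟩
    simp only
    rw [hk1.2.2]
    exact (hx _).1 hz
  obtain ⟨a, haA, haφ⟩ := hsurj w ⟨_, hpE, rfl⟩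
  obtain ⟨q, hq, hqa⟩ := hAE w haA
  have hq2 := hq.2
  rw [hqa, haφ, hk1.2.2] at hq2
  have hqC : q ∈ C := (hx q).2 hq2
  have : a ∈ Bᶜ := (hCB a).2 ⟨q.2, by rw [← hqa]; exact hqC⟩
  exact this (hAB (mem_biUnion hwY haA))

/-- **Block criterion with an abstract witness.** -/
theorem criterion_block_abs [IsTopologicalGroup G] {Y : Set Z}
    (hY : ∀ ν : Measure Z, IsFiniteMeasure ν → NullSingletonClass ν → ν Y = 0)
    {F : Set G} (hF : MeasurableSet F) {y : G → Z} (hy : Measurable y)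
    {φ : G → (ℕ → Bool)} (hφ : Measurable φ)
    (hcap : ∀ (x : ℕ → Bool) (ν : Measure G), IsProbabilityMeasure ν → ∃ w ∈ Y,
      ∃ g h : G, ν {k | g * k * h ∈ F ∧ y (g * k * h) = w ∧ φ (g * k * h) = x} ≠ 0)
    (μ : Measure G) [IsProbabilityMeasure μ]
    (hker : ∀ w ∈ Y, ∀ A : Set G, A ⊆ F ∩ y ⁻¹' {w} → InjOn φ A → UM A → ∀ g h : G,
      μ ((fun x => g * x * h) '' A) = 0) :
    ∃ A : Set G, GenHaarNull A ∧ ¬ HaarNull A := by
  obtain ⟨A, hAF, hinj, hum, hnot⟩ := exists_diag_block hF hy hφ hcap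
  have hAy : ∀ w, A w ⊆ y ⁻¹' {w} := fun w => (hAF w).trans inter_subset_right
  refine ⟨_, ⟨⋃ w ∈ Y, A w, fun ν hν => ?_, Subset.rfl, μ, inferInstance, fun g h => ?_⟩, hnot⟩
  · obtain ⟨C, hC, hCY, h0⟩ := union_block hY hy hAy ν
    have h1 : NullMeasurableSet (⋃ w ∈ C, A w) ν :=
      NullMeasurableSet.biUnion hC fun w _ => hum w ν inferInstance
    have h2 : (⋃ w ∈ Y, A w) = (⋃ w ∈ C, A w) ∪ ((⋃ w ∈ Y, A w) \ ⋃ w ∈ C, A w) := by
      rw [union_sdiff_cancel]
      exact biUnion_subset_biUnion_left hCY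
    rw [h2]
    exact h1.union (NullMeasurableSet.of_null h0)
  · -- the translate is null
    set e : G ≃ᵐ G := ((Homeomorph.mulLeft g⁻¹).trans (Homeomorph.mulRight h⁻¹)).toMeasurableEquiv
      with he
    have he' : ∀ x, e x = g⁻¹ * x * h⁻¹ := fun x => rfl
    have himg : ∀ B : Set G, μ ((fun x => g * x * h) '' B) = (μ.map e) B := by
      intro B
      rw [e.map_apply]
      congr 1
      ext x
      simp only [mem_image, mem_preimage, he']
      constructor
      · rintro ⟨b, hb, rfl⟩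
        have : g⁻¹ * (g * b * h) * h⁻¹ = b := by group
        rw [this]
        exact hb
      · intro hx
        exact ⟨_, hx, by group⟩
    have hfin : IsFiniteMeasure (μ.map e) := inferInstance
    obtain ⟨C, hC, hCY, h0⟩ := union_block hY hy hAy (μ.map e)
    rw [himg]
    have h2 : (⋃ w ∈ Y, A w) ⊆ (⋃ w ∈ C, A w) ∪ ((⋃ w ∈ Y, A w) \ ⋃ w ∈ C, A w) := by
      rw [union_sdiff_self]
      exact subset_union_right
    refine measure_mono_null h2 (measure_union_null ?_ h0)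
    refine (measure_biUnion_null_iff hC).2 fun w hwC => ?_
    rw [← himg]
    exact hker w (hCY hwC) (A w) (hAF w) (hinj w) (hum w) g h

/-- **Block criterion.** -/
theorem criterion_block [IsTopologicalGroup G] {Y : Set Z}
    (hY : ∀ ν : Measure Z, IsFiniteMeasure ν → NullSingletonClass ν → ν Y = 0)
    {F : Set G} (hF : MeasurableSet F) {y : G → Z} (hy : Measurable y)
    {φ : G → (ℕ → Bool)} (hφ : Measurable φ)
    (hcap : ∀ (x : ℕ → Bool) (ν : Measure G), IsProbabilityMeasure ν → ∃ w ∈ Y,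
      ∃ g h : G, ν {k | g * k * h ∈ F ∧ y (g * k * h) = w ∧ φ (g * k * h) = x} ≠ 0)
    (hrect : ∀ w ∈ Y, ∀ z₀₀ ∈ F, ∀ z₁₀ ∈ F, ∀ z₀₁ ∈ F, ∀ z₁₁ ∈ F,
      y z₀₀ = w → y z₁₀ = w → y z₀₁ = w → y z₁₁ = w → φ z₀₀ ≠ φ z₁₀ → φ z₀₀ ≠ φ z₀₁ →
      φ z₀₀ ≠ φ z₁₁ → φ z₁₀ ≠ φ z₀₁ → φ z₁₀ ≠ φ z₁₁ → φ z₀₁ ≠ φ z₁₁ →
      z₁₁ ≠ z₁₀ * z₀₀⁻¹ * z₀₁) :
    ∃ A : Set G, GenHaarNull A ∧ ¬ HaarNull A := by
  have hsurj : Function.Surjective φ := by
    intro x
    obtain ⟨w, -, g, h, hgh⟩ := hcap x (Measure.dirac 1) inferInstance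
    obtain ⟨k, hk⟩ := nonempty_of_measure_ne_zero hgh
    exact ⟨_, hk.2.2⟩
  obtain ⟨μ, hμ, hw⟩ := exists_witness (G := G) (N := univ) (by
    intro U hU S hS
    obtain ⟨v, hv1, hv2⟩ := infinite_nhds_of_surj hsurj hU hS
    exact ⟨v, hv1, mem_univ _, hv2⟩)
  refine criterion_block_abs hY hF hy hφ hcap μ ?_
  intro w hwY A hAF hinj hum g h
  by_contra hne
  obtain ⟨z₀₀, h00, z₁₀, h10, z₀₁, h01, z₁₁, h11, n1, n2, n3, n4, n5, n6, hrel, -⟩ :=
    hw A hum g h hne
  have hi : ∀ {a b : G}, a ∈ A → b ∈ A → a ≠ b → φ a ≠ φ b := fun ha hb hab heq =>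
    hab (hinj ha hb heq)
  exact hrect w hwY _ (hAF h00).1 _ (hAF h10).1 _ (hAF h01).1 _ (hAF h11).1
    (hAF h00).2 (hAF h10).2 (hAF h01).2 (hAF h11).2
    (hi h00 h10 n1) (hi h00 h01 n2) (hi h00 h11 n3) (hi h10 h01 n4) (hi h10 h11 n5)
    (hi h01 h11 n6) hrel

end Pool.Agent.HN
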