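import Pool.Agent.Helper61_HN.Metric
import Pool.Agent.Helper61_HN.Diag

/-!
# The rectangle-free tree in a non-locally compact group with a two-sided invariant metric
-/

set_option autoImplicit false
set_option linter.unusedSectionVars false

namespace Pool.Agent.HN

open Set Filter Topology MeasureTheory
open scoped ENNReal

variable {H : Type*} [Group H] [TopologicalSpace H] {d : H → H → ℝ}

/-- nodes of the tree; the head of the list is the last step -/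
abbrev Node : Type := List (ℕ × Bool)

theorem encode_tail_lt (a : ℕ × Bool) (τ : Node) :
    Encodable.encode τ < Encodable.encode (a :: τ) := by
  rw [Encodable.encode_list_cons]
  exact Nat.lt_succ_of_le (Nat.right_le_pair _ _)

theorem label_le (N : ℕ) (b : Bool) (τ : Node) : N ≤ Encodable.encode ((N, b) :: τ) := by
  rw [Encodable.encode_list_cons]
  refine le_trans ?_ (Nat.le_succ _)
  refine le_trans ?_ (Nat.left_le_pair _ _)
  exact Nat.left_le_pair _ _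

/-- the scales and the steps of the tree -/
structure Tree (d : H → H → ℝ) (D : ℕ → H) where
  δ : ℕ → ℝ
  ε : ℕ → ℝ
  U : Node → H
  δpos : ∀ n, 0 < δ n
  εpos : ∀ n, 0 < ε n
  δhalf : ∀ n, δ (n + 1) ≤ δ n / 2
  δε : ∀ n, δ (n + 1) ≤ ε n / 32
  step : ∀ a τ, d (U τ) (U (a :: τ)) < δ τ.length
  avoid : ∀ (N : ℕ) (b : Bool) (τ σ₁ σ₂ σ₃ : Node),
    Encodable.encode σ₁ < Encodable.encode ((N, b) :: τ) →
    Encodable.encode σ₂ < Encodable.encode ((N, b) :: τ) →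
    Encodable.encode σ₃ < Encodable.encode ((N, b) :: τ) →
    ∀ i i₁ i₂ i₃, i ≤ Encodable.encode ((N, b) :: τ) → i₁ ≤ Encodable.encode ((N, b) :: τ) →
      i₂ ≤ Encodable.encode ((N, b) :: τ) → i₃ ≤ Encodable.encode ((N, b) :: τ) →
      ε τ.length ≤ d ((U σ₁ * D i₁) * (U σ₂ * D i₂)⁻¹ * (U σ₃ * D i₃)) (U ((N, b) :: τ) * D i)

theorem exists_tree (hd : BiInv d)
    (htb : ∀ δ : ℝ, 0 < δ → ∃ ε > 0, ∀ S : Set H, S.Finite → ∃ v, d 1 v < δ ∧ ∀ s ∈ S, ε ≤ d s v)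
    (D : ℕ → H) : Nonempty (Tree d D) := by
  classical
  choose! e he1 he2 using htb
  set δ' : ℕ → {δ : ℝ // 0 < δ} := fun n => Nat.rec ⟨1, one_pos⟩
    (fun _ p => ⟨min (p.1 / 2) (e p.1 / 32), lt_min (half_pos p.2)
      (div_pos (he1 p.1 p.2) (by norm_num))⟩) n with hδ'
  have hsucc : ∀ n, (δ' (n + 1)).1 = min ((δ' n).1 / 2) (e (δ' n).1 / 32) := fun n => rfl
  have : Inhabited H := ⟨1⟩
  obtain ⟨c, hc⟩ := exists_local_seq
    (fun n (c : ℕ → H) a => ∀ N b (τ : Node), Encodable.encode ((N, b) :: τ) = n →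
      d (c (Encodable.encode τ)) a < (δ' τ.length).1 ∧
      ∀ m₁ < n, ∀ m₂ < n, ∀ m₃ < n, ∀ i ≤ n, ∀ i₁ ≤ n, ∀ i₂ ≤ n, ∀ i₃ ≤ n,
        e (δ' τ.length).1 ≤ d ((c m₁ * D i₁) * (c m₂ * D i₂)⁻¹ * (c m₃ * D i₃)) (a * D i))
    (by
      intro n c c' a h hP N b τ hn
      obtain ⟨h1, h2⟩ := hP N b τ hn
      refine ⟨?_, ?_⟩
      · rw [← h _ (by rw [← hn]; exact encode_tail_lt _ _)]
        exact h1
      · intro m₁ hm₁ m₂ hm₂ m₃ hm₃
        rw [← h _ hm₁, ← h _ hm₂, ← h _ hm₃]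
        exact h2 m₁ hm₁ m₂ hm₂ m₃ hm₃)
    (by
      intro n c
      by_cases hn : ∃ (N : ℕ) (b : Bool) (τ : Node), Encodable.encode ((N, b) :: τ) = n
      swap
      · exact ⟨1, fun N b τ h => absurd ⟨N, b, τ, h⟩ hn⟩
      obtain ⟨N, b, τ, hn⟩ := hn
      set S : Set H := (fun q : (ℕ × ℕ × ℕ) × ℕ × ℕ × ℕ × ℕ =>
        (c (Encodable.encode τ))⁻¹ * ((c q.1.1 * D q.2.2.1) * (c q.1.2.1 * D q.2.2.2.1)⁻¹ *
          (c q.1.2.2 * D q.2.2.2.2)) * (D q.2.1)⁻¹) ''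
        ((Set.Iic n ×ˢ Set.Iic n ×ˢ Set.Iic n) ×ˢ Set.Iic n ×ˢ Set.Iic n ×ˢ Set.Iic n ×ˢ Set.Iic n)
        with hS
      have hSf : S.Finite := by
        apply Set.Finite.image
        have hI : (Set.Iic n).Finite := Set.finite_Iic n
        exact (hI.prod (hI.prod hI)).prod (hI.prod (hI.prod (hI.prod hI)))
      obtain ⟨v, hv1, hv2⟩ := he2 (δ' τ.length).1 (δ' τ.length).2 S hSf
      refine ⟨c (Encodable.encode τ) * v, ?_⟩
      intro N' b' τ' hn'
      have heq := Encodable.encode_injective (hn'.trans hn.symm)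
      simp only [List.cons.injEq, Prod.mk.injEq] at heq
      obtain ⟨⟨rfl, rfl⟩, rfl⟩ := heq
      refine ⟨?_, ?_⟩
      · have := hd.left (c (Encodable.encode τ')) 1 v
        rw [mul_one] at this
        rw [this]
        exact hv1
      · intro m₁ hm₁ m₂ hm₂ m₃ hm₃ i hi i₁ hi₁ i₂ hi₂ i₃ hi₃
        have h1 := hv2 ((c (Encodable.encode τ'))⁻¹ * ((c m₁ * D i₁) * (c m₂ * D i₂)⁻¹ *
          (c m₃ * D i₃)) * (D i)⁻¹) ⟨((m₁, m₂, m₃), i, i₁, i₂, i₃),
            ⟨⟨hm₁.le, hm₂.le, hm₃.le⟩, hi, hi₁, hi₂, hi₃⟩, rfl⟩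
        refine h1.trans (le_of_eq ?_)
        rw [← hd.inv (c (Encodable.encode τ')) _ v (D i)]
        congr 1
        group)
  refine ⟨⟨fun n => (δ' n).1, fun n => e (δ' n).1, fun σ => c (Encodable.encode σ),
    fun n => (δ' n).2, fun n => he1 _ (δ' n).2, fun n => ?_, fun n => ?_, fun a τ => ?_, ?_⟩⟩
  · rw [hsucc]; exact min_le_left _ _
  · rw [hsucc]; exact min_le_right _ _
  · exact (hc _ a.1 a.2 τ rfl).1
  · intro N b τ σ₁ σ₂ σ₃ h1 h2 h3 i i₁ i₂ i₃ hi hi₁ hi₂ hi₃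
    exact (hc _ N b τ rfl).2 _ h1 _ h2 _ h3 i hi i₁ hi₁ i₂ hi₂ i₃ hi₃

namespace Tree

variable {D : ℕ → H} (T : Tree d D)

/-- thickness -/
noncomputable def θ (n : ℕ) : ℝ := T.ε n / 8

/-- the region of a node -/
def Rg : Node → Set H
  | [] => univ
  | (N, b) :: τ => {p | ∃ i ≤ N, d (T.U ((N, b) :: τ) * D i) p < T.θ τ.length}

/-- the region of a node and its ancestors -/
def Rf : Node → Set H
  | [] => univ
  | a :: τ => Rg T (a :: τ) ∩ Rf τ

theorem Rf_cons (a : ℕ × Bool) (τ : Node) : Rf T (a :: τ) = Rg T (a :: τ) ∩ Rf T τ := rfl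

theorem Rf_subset (σ : Node) : Rf T σ ⊆ Rg T σ := by
  cases σ with
  | nil => exact fun _ h => h
  | cons a τ => exact inter_subset_left

theorem isOpen_Rg (hd : BiInv d) (σ : Node) : IsOpen (Rg T σ) := by
  match σ with
  | [] => exact isOpen_univ
  | (N, b) :: τ =>
    have : Rg T ((N, b) :: τ) = ⋃ i : {i // i ≤ N}, {p | d (T.U ((N, b) :: τ) * D i) p < T.θ τ.length} := by
      ext p
      simp [Rg]
    rw [this]
    exact isOpen_iUnion fun i => hd.isOpen_ball _ _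

theorem isOpen_Rf (hd : BiInv d) (σ : Node) : IsOpen (Rf T σ) := by
  induction σ with
  | nil => exact isOpen_univ
  | cons a τ ih => exact (isOpen_Rg T hd _).inter ih

theorem no_rel (hd : BiInv d) {σ σ₁ σ₂ σ₃ : Node} (hσ : σ ≠ [])
    (h₁ : σ₁.length = σ.length) (h₂ : σ₂.length = σ.length) (h₃ : σ₃.length = σ.length)
    (c₁ : Encodable.encode σ₁ < Encodable.encode σ) (c₂ : Encodable.encode σ₂ < Encodable.encode σ)
    (c₃ : Encodable.encode σ₃ < Encodable.encode σ) {p p₁ p₂ p₃ : H} (hp : p ∈ Rg T σ)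
    (hp₁ : p₁ ∈ Rg T σ₁) (hp₂ : p₂ ∈ Rg T σ₂) (hp₃ : p₃ ∈ Rg T σ₃) :
    p ≠ p₁ * p₂⁻¹ * p₃ := by
  intro heq
  match σ, hσ with
  | (N, b) :: τ, _ =>
  match σ₁, h₁ with
  | (N₁, b₁) :: τ₁, h₁ =>
  match σ₂, h₂ with
  | (N₂, b₂) :: τ₂, h₂ =>
  match σ₃, h₃ with
  | (N₃, b₃) :: τ₃, h₃ =>
  simp only [List.length_cons, Nat.add_right_cancel_iff] at h₁ h₂ h₃
  obtain ⟨i, hi, hp⟩ := hp
  obtain ⟨i₁, hi₁, hp₁⟩ := hp₁
  obtain ⟨i₂, hi₂, hp₂⟩ := hp₂
  obtain ⟨i₃, hi₃, hp₃⟩ := hp₃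
  rw [h₁] at hp₁
  rw [h₂] at hp₂
  rw [h₃] at hp₃
  have key := T.avoid N b τ _ _ _ c₁ c₂ c₃ i i₁ i₂ i₃ (hi.trans (label_le _ _ _))
    ((hi₁.trans (label_le N₁ b₁ τ₁)).trans c₁.le) ((hi₂.trans (label_le N₂ b₂ τ₂)).trans c₂.le)
    ((hi₃.trans (label_le N₃ b₃ τ₃)).trans c₃.le)
  have e1 := hd.mul_mul ((T.U ((N₁, b₁) :: τ₁) * D i₁) * (T.U ((N₂, b₂) :: τ₂) * D i₂)⁻¹)
    (p₁ * p₂⁻¹) (T.U ((N₃, b₃) :: τ₃) * D i₃) p₃
  have e2 := hd.mul_mul (T.U ((N₁, b₁) :: τ₁) * D i₁) p₁ (T.U ((N₂, b₂) :: τ₂) * D i₂)⁻¹ p₂⁻¹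
  rw [hd.inv_inv] at e2
  rw [← heq] at e1
  have e3 := hd.tri ((T.U ((N₁, b₁) :: τ₁) * D i₁) * (T.U ((N₂, b₂) :: τ₂) * D i₂)⁻¹ *
    (T.U ((N₃, b₃) :: τ₃) * D i₃)) p (T.U ((N, b) :: τ) * D i)
  rw [hd.comm p] at e3
  have e4 := T.εpos τ.length
  simp only [θ] at hp hp₁ hp₂ hp₃
  linarith

theorem eq_of_mem (hd : BiInv d) {σ σ' : Node} (hlen : σ.length = σ'.length) {p : H}
    (hp : p ∈ Rg T σ) (hp' : p ∈ Rg T σ') : σ = σ' := by
  by_contra hne
  have h1 : Encodable.encode σ ≠ Encodable.encode σ' := fun h => hne (Encodable.encode_injective h)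
  have hpp : p = p * p⁻¹ * p := by group
  rcases lt_or_gt_of_ne h1 with h | h
  · have hσ' : σ' ≠ [] := by
      intro h0
      have h2 : σ.length = 0 := by rw [hlen, h0]; rfl
      exact hne ((List.length_eq_zero_iff.1 h2).trans h0.symm)
    exact no_rel T hd hσ' hlen hlen hlen h h h hp' hp hp hp hpp
  · have hσ : σ ≠ [] := by
      intro h0
      have h2 : σ'.length = 0 := by rw [← hlen, h0]; rfl
      exact hne (h0.trans (List.length_eq_zero_iff.1 h2).symm)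
    exact no_rel T hd hσ hlen.symm hlen.symm hlen.symm h h h hp hp' hp' hp' hpp

/-- the initial segments of a branch -/
def pre (β : ℕ → ℕ × Bool) : ℕ → Node
  | 0 => []
  | n + 1 => β n :: pre β n

@[simp] theorem length_pre (β : ℕ → ℕ × Bool) (n : ℕ) : (pre β n).length = n := by
  induction n with
  | zero => rfl
  | succ n ih => simp [pre, ih]

theorem pre_inj {β β' : ℕ → ℕ × Bool} {n : ℕ} (h : pre β n = pre β' n) : ∀ i < n, β i = β' i := by
  induction n with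
  | zero => intro i hi; omega
  | succ n ih =>
    simp only [pre, List.cons.injEq] at h
    intro i hi
    rcases Nat.lt_succ_iff_lt_or_eq.1 hi with hi | rfl
    · exact ih h.2 i hi
    · exact h.1

/-- the union of all branches -/
def F : Set H := {p | ∃ β : ℕ → ℕ × Bool, ∀ n, p ∈ Rf T (pre β n)}

open Classical in
/-- the sequence of bits -/
noncomputable def φ (p : H) (n : ℕ) : Bool :=
  decide (∃ (N : ℕ) (τ : Node), τ.length = n ∧ p ∈ Rf T ((N, true) :: τ))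

theorem φ_true_iff {p : H} {n : ℕ} : φ T p n = true ↔
    ∃ (N : ℕ) (τ : Node), τ.length = n ∧ p ∈ Rf T ((N, true) :: τ) := by
  simp [φ]

theorem φ_eq (hd : BiInv d) {p : H} {β : ℕ → ℕ × Bool} (h : ∀ n, p ∈ Rf T (pre β n)) (n : ℕ) :
    φ T p n = (β n).2 := by
  by_cases hb : (β n).2 = true
  · rw [hb, φ_true_iff]
    refine ⟨(β n).1, pre β n, length_pre _ _, ?_⟩
    have h1 := h (n + 1)
    have h2 : ((β n).1, true) = β n := by rw [← hb]
    rw [h2]
    exact h1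
  · have hb' : (β n).2 = false := by simpa using hb
    rw [hb', Bool.eq_false_iff, Ne, φ_true_iff]
    rintro ⟨N, τ, hτ, hp⟩
    have h1 := eq_of_mem T hd (by simp [hτ]) (Rf_subset T _ hp) (Rf_subset T _ (h (n + 1)))
    simp only [pre, List.cons.injEq] at h1
    rw [← h1.1] at hb'
    simp at hb'

variable [MeasurableSpace H] [BorelSpace H]

theorem measurable_φ (hd : BiInv d) : Measurable (φ T) := by
  rw [measurable_pi_iff]
  intro n
  apply measurable_to_bool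
  have : (fun p => φ T p n) ⁻¹' {true} =
      ⋃ (N : ℕ) (τ : {τ : Node // τ.length = n}), Rf T ((N, true) :: τ.1) := by
    ext p
    simp [φ]
  rw [this]
  exact MeasurableSet.iUnion fun N => MeasurableSet.iUnion fun τ =>
    (isOpen_Rf T hd _).measurableSet

theorem measurableSet_F (hd : BiInv d) : MeasurableSet (F T) := by
  have : F T = ⋂ n : ℕ, ⋃ σ : {σ : Node // σ.length = n}, Rf T σ.1 := by
    ext p
    simp only [F, mem_ofPred_eq, mem_iInter, mem_iUnion]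
    constructor
    · rintro ⟨β, hβ⟩ n
      exact ⟨⟨pre β n, length_pre _ _⟩, hβ n⟩
    · intro h
      choose σ hσ using h
      have htail : ∀ n, (σ (n + 1)).1.tail = (σ n).1 := by
        intro n
        have h1 := (σ (n + 1)).2
        obtain ⟨a, τ, haτ⟩ : ∃ a τ, (σ (n + 1)).1 = a :: τ := by
          match hs : (σ (n + 1)).1 with
          | [] => rw [hs] at h1; simp at h1
          | a :: τ => exact ⟨a, τ, rfl⟩
        rw [haτ] at h1 ⊢
        have h2 := hσ (n + 1)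
        rw [haτ, Rf_cons] at h2
        have h3 := Rf_subset T _ h2.2
        refine eq_of_mem T hd ?_ h3 (Rf_subset T _ (hσ n))
        rw [(σ n).2]
        simpa using h1
      refine ⟨fun n => (σ (n + 1)).1.headD (0, true), fun n => ?_⟩
      have : pre (fun n => (σ (n + 1)).1.headD (0, true)) n = (σ n).1 := by
        induction n with
        | zero =>
          have := (σ 0).2
          rw [List.length_eq_zero_iff] at this
          rw [this]
          rfl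
        | succ n ih =>
          simp only [pre]
          rw [ih, ← htail n]
          have h1 := (σ (n + 1)).2
          match hs : (σ (n + 1)).1 with
          | [] => rw [hs] at h1; simp at h1
          | a :: τ => simp
      rw [this]
      exact hσ n
  rw [this]
  exact MeasurableSet.iInter fun n => MeasurableSet.iUnion fun σ =>
    (isOpen_Rf T hd _).measurableSet

/-- **No rectangles.** -/
theorem no_rect (hd : BiInv d) {p₀₀ p₁₀ p₀₁ p₁₁ : H} (h₀₀ : p₀₀ ∈ F T) (h₁₀ : p₁₀ ∈ F T)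
    (h₀₁ : p₀₁ ∈ F T) (h₁₁ : p₁₁ ∈ F T) (n1 : φ T p₀₀ ≠ φ T p₁₀) (n2 : φ T p₀₀ ≠ φ T p₀₁)
    (n3 : φ T p₀₀ ≠ φ T p₁₁) (n4 : φ T p₁₀ ≠ φ T p₀₁) (n5 : φ T p₁₀ ≠ φ T p₁₁)
    (n6 : φ T p₀₁ ≠ φ T p₁₁) : p₁₁ ≠ p₁₀ * p₀₀⁻¹ * p₀₁ := by
  intro heq
  obtain ⟨β₀₀, b₀₀⟩ := h₀₀
  obtain ⟨β₁₀, b₁₀⟩ := h₁₀
  obtain ⟨β₀₁, b₀₁⟩ := h₀₁
  obtain ⟨β₁₁, b₁₁⟩ := h₁₁
  have hne : ∀ {p q : H} {β γ : ℕ → ℕ × Bool}, (∀ n, p ∈ Rf T (pre β n)) →
      (∀ n, q ∈ Rf T (pre γ n)) → φ T p ≠ φ T q → ∃ m, ∀ n, m < n → pre β n ≠ pre γ n := by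
    intro p q β γ hp hq hφ
    obtain ⟨m, hm⟩ := Function.ne_iff.1 hφ
    refine ⟨m, fun n hn h => hm ?_⟩
    rw [φ_eq T hd hp, φ_eq T hd hq, pre_inj h m hn]
  obtain ⟨m1, hm1⟩ := hne b₀₀ b₁₀ n1
  obtain ⟨m2, hm2⟩ := hne b₀₀ b₀₁ n2
  obtain ⟨m3, hm3⟩ := hne b₀₀ b₁₁ n3
  obtain ⟨m4, hm4⟩ := hne b₁₀ b₀₁ n4
  obtain ⟨m5, hm5⟩ := hne b₁₀ b₁₁ n5
  obtain ⟨m6, hm6⟩ := hne b₀₁ b₁₁ n6
  set n := m1 + m2 + m3 + m4 + m5 + m6 + 1 with hn
  have e1 := hm1 n (by omega)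
  have e2 := hm2 n (by omega)
  have e3 := hm3 n (by omega)
  have e4 := hm4 n (by omega)
  have e5 := hm5 n (by omega)
  have e6 := hm6 n (by omega)
  have hnil : ∀ β : ℕ → ℕ × Bool, pre β n ≠ [] := by
    intro β h
    have := congrArg List.length h
    rw [length_pre] at this
    simp only [List.length_nil] at this
    omega
  have inj : ∀ {σ τ : Node}, σ ≠ τ → Encodable.encode σ ≠ Encodable.encode τ :=
    fun h h' => h (Encodable.encode_injective h')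
  have f1 := inj e1
  have f2 := inj e2
  have f3 := inj e3
  have f4 := inj e4
  have f5 := inj e5
  have f6 := inj e6
  have len : ∀ β γ : ℕ → ℕ × Bool, (pre β n).length = (pre γ n).length := by
    intro β γ; simp
  have g₀₀ := Rf_subset T _ (b₀₀ n)
  have g₁₀ := Rf_subset T _ (b₁₀ n)
  have g₀₁ := Rf_subset T _ (b₀₁ n)
  have g₁₁ := Rf_subset T _ (b₁₁ n)
  set E00 := Encodable.encode (pre β₀₀ n) with hE00
  set E10 := Encodable.encode (pre β₁₀ n) with hE10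
  set E01 := Encodable.encode (pre β₀₁ n) with hE01
  set E11 := Encodable.encode (pre β₁₁ n) with hE11
  have hcases : (E10 < E11 ∧ E00 < E11 ∧ E01 < E11) ∨ (E11 < E10 ∧ E01 < E10 ∧ E00 < E10) ∨
      (E00 < E01 ∧ E10 < E01 ∧ E11 < E01) ∨ (E01 < E00 ∧ E11 < E00 ∧ E10 < E00) := by
    omega
  rcases hcases with ⟨c1, c2, c3⟩ | ⟨c1, c2, c3⟩ | ⟨c1, c2, c3⟩ | ⟨c1, c2, c3⟩
  · exact no_rel T hd (hnil _) (len _ _) (len _ _) (len _ _) c1 c2 c3 g₁₁ g₁₀ g₀₀ g₀₁ heq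
  · refine no_rel T hd (hnil _) (len _ _) (len _ _) (len _ _) c1 c2 c3 g₁₀ g₁₁ g₀₁ g₀₀ ?_
    rw [heq]; group
  · refine no_rel T hd (hnil _) (len _ _) (len _ _) (len _ _) c1 c2 c3 g₀₁ g₀₀ g₁₀ g₁₁ ?_
    rw [heq]; group
  · refine no_rel T hd (hnil _) (len _ _) (len _ _) (len _ _) c1 c2 c3 g₀₀ g₀₁ g₁₁ g₁₀ ?_
    rw [heq]; group

theorem dist_pre (hd : BiInv d) (β : ℕ → ℕ × Bool) (m k : ℕ) :
    d (T.U (pre β m)) (T.U (pre β (m + k))) ≤ 2 * T.δ m - 2 * T.δ (m + k) := by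
  induction k with
  | zero => simp [hd.self]
  | succ k ih =>
    have h1 := hd.tri (T.U (pre β m)) (T.U (pre β (m + k))) (T.U (pre β (m + (k + 1))))
    have h2 := T.step (β (m + k)) (pre β (m + k))
    rw [length_pre] at h2
    have h3 := T.δhalf (m + k)
    have h4 : pre β (m + (k + 1)) = β (m + k) :: pre β (m + k) := rfl
    have h5 : T.δ (m + (k + 1)) = T.δ (m + k + 1) := rfl
    rw [h4] at h1 ⊢
    rw [h5]
    linarith

theorem dist_pre_le (hd : BiInv d) (β : ℕ → ℕ × Bool) {m n : ℕ} (h : m ≤ n) :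
    d (T.U (pre β m)) (T.U (pre β n)) ≤ 2 * T.δ m := by
  obtain ⟨k, rfl⟩ := Nat.exists_eq_add_of_le h
  have := T.dist_pre hd β m k
  linarith [T.δpos (m + k)]

theorem δ_le (n : ℕ) : T.δ n ≤ T.δ 0 * (1 / 2) ^ n := by
  induction n with
  | zero => simp
  | succ n ih =>
    have := T.δhalf n
    rw [pow_succ]
    linarith

/-- **Capture.** Every bit sequence captures, after a left translation, a set of positive
measure. -/
theorem capture [IsTopologicalGroup H] [TopologicalSpace.IsCompletelyMetrizableSpace H]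
    (hd : BiInv d) (hD : DenseRange D) (x : ℕ → Bool) (ν : Measure H) [IsFiniteMeasure ν]
    (hν : ν univ ≠ 0) : ∃ g : H, ν {k | g * k ∈ F T ∧ φ T (g * k) = x} ≠ 0 := by
  set A : ℕ → ℕ → Set H := fun n N => {k | ∃ i ≤ N, d (D i) k < T.θ n / 2} with hA
  have hθ : ∀ n, 0 < T.θ n := fun n => div_pos (T.εpos n) (by norm_num)
  have hAopen : ∀ n N, IsOpen (A n N) := by
    intro n N
    have : A n N = ⋃ i : {i // i ≤ N}, {p | d (D i) p < T.θ n / 2} := by
      ext p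
      simp [hA]
    rw [this]
    exact isOpen_iUnion fun i => hd.isOpen_ball _ _
  have hAmono : ∀ n, Monotone (A n) := by
    intro n N M hNM k ⟨i, hi, hk⟩
    exact ⟨i, hi.trans hNM, hk⟩
  have hAuniv : ∀ n, ⋃ N, A n N = univ := by
    intro n
    rw [eq_univ_iff_forall]
    intro k
    have h1 := hd.ball_mem k (half_pos (hθ n))
    obtain ⟨i, hi⟩ := hD.exists_mem_open (hd.isOpen_ball k (T.θ n / 2))
      ⟨k, by simpa [hd.self] using half_pos (hθ n)⟩
    simp only [mem_ofPred_eq] at hi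
    rw [mem_iUnion]
    exact ⟨i, i, le_rfl, by rw [hd.comm]; exact hi⟩
  obtain ⟨η, hη, hηs⟩ := ENNReal.exists_pos_sum_of_countable hν ℕ
  have hy : ∀ n, ∃ N, ν (A n N)ᶜ < η n := by
    intro n
    have h1 : Tendsto (fun N => ν (A n N)ᶜ) atTop (𝓝 (ν (⋂ N, (A n N)ᶜ))) := by
      apply tendsto_measure_iInter_atTop
      · intro N
        exact (hAopen n N).measurableSet.compl.nullMeasurableSet
      · intro N M hNM
        exact compl_subset_compl.2 (hAmono n hNM)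
      · exact ⟨0, measure_ne_top _ _⟩
    have h2 : (⋂ N, (A n N)ᶜ) = ∅ := by
      rw [← compl_iUnion, hAuniv, compl_univ]
    rw [h2, measure_empty] at h1
    obtain ⟨N, hN⟩ := (h1.eventually (gt_mem_nhds (show (0 : ℝ≥0∞) < η n by exact_mod_cast hη n))).exists
    exact ⟨N, hN⟩
  choose y hy using hy
  set M : Set H := ⋂ n, A n (y n) with hM
  have hMpos : ν M ≠ 0 := by
    intro h0
    have h1 : ν univ ≤ ν M + ν Mᶜ := by
      rw [← union_compl_self M]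
      exact measure_union_le _ _
    rw [h0, zero_add, hM, compl_iInter] at h1
    have h2 : ν (⋃ n, (A n (y n))ᶜ) ≤ ∑' n, (η n : ℝ≥0∞) :=
      (measure_iUnion_le _).trans (ENNReal.tsum_le_tsum fun n => (hy n).le)
    exact absurd (h1.trans h2) (not_le.2 hηs)
  set β : ℕ → ℕ × Bool := fun n => (y n, x n) with hβ
  obtain ⟨g, hg⟩ := hd.complete (fun n => T.U (pre β n)) (by
    intro ε hε
    obtain ⟨N, hN⟩ : ∃ N : ℕ, (1 / 2 : ℝ) ^ N < ε / (4 * T.δ 0) :=
      exists_pow_lt_of_lt_one (div_pos hε (mul_pos (by norm_num) (T.δpos 0))) (by norm_num)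
    have h4 : 4 * T.δ N < ε := by
      have h5 := T.δ_le N
      rw [lt_div_iff₀ (mul_pos (by norm_num) (T.δpos 0))] at hN
      linarith
    refine ⟨N, fun n hn m hm => ?_⟩
    have h1 := hd.tri (T.U (pre β n)) (T.U (pre β N)) (T.U (pre β m))
    have h2 := T.dist_pre_le hd β hn
    have h3 := T.dist_pre_le hd β hm
    rw [hd.comm] at h2
    linarith)
  have hgd : ∀ m, d (T.U (pre β m)) g ≤ 2 * T.δ m := by
    intro m
    apply le_of_forall_pos_le_add
    intro ε hε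
    have h1 := hg.eventually (hd.ball_mem g hε)
    obtain ⟨n, hn1, hn2⟩ := (h1.and (eventually_ge_atTop m)).exists
    have h2 := hd.tri (T.U (pre β m)) (T.U (pre β n)) g
    have h3 := T.dist_pre_le hd β hn2
    have h4 : d g (T.U (pre β n)) < ε := hn1
    rw [hd.comm] at h4
    linarith
  have hin : ∀ k ∈ M, ∀ n, g * k ∈ Rf T (pre β n) := by
    intro k hk n
    induction n with
    | zero => exact mem_univ _
    | succ n ih =>
      show g * k ∈ Rf T ((y n, x n) :: pre β n)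
      rw [Rf_cons]
      refine ⟨?_, ih⟩
      obtain ⟨i, hi, hik⟩ := mem_iInter.1 hk n
      refine ⟨i, hi, ?_⟩
      have h1 := hd.mul_mul (T.U (pre β (n + 1))) g (D i) k
      have h2 := hgd (n + 1)
      have h3 := T.δε n
      have h4 := T.εpos n
      rw [length_pre]
      have h6 : T.θ n = T.ε n / 8 := rfl
      have h5 : T.U ((y n, x n) :: pre β n) = T.U (pre β (n + 1)) := rfl
      rw [h5]
      linarith
  refine ⟨g, fun h0 => hMpos (measure_mono_null ?_ h0)⟩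
  intro k hk
  refine ⟨⟨β, hin k hk⟩, ?_⟩
  funext n
  rw [φ_eq T hd (hin k hk)]

end Tree

end Pool.Agent.HN
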