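import Pool.Agent.Helper61_HN.Flip
import Pool.Agent.Helper61_HN.Tree

/-!
# The criteria, and the theorem for groups with a quotient with an open subgroup with small
invariant neighbourhoods
-/

set_option autoImplicit false
set_option linter.unusedSectionVars false

namespace Pool.Agent.HN

open MeasureTheory Set Filter Topology
open scoped ENNReal

section Criteria

variable {G : Type*} [Group G] [TopologicalSpace G] [IsTopologicalGroup G] [PolishSpace G]
  [MeasurableSpace G] [BorelSpace G]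

theorem infinite_nhds_of_surj {φ : G → (ℕ → Bool)} (h : Function.Surjective φ) {U : Set G}
    (hU : U ∈ 𝓝 (1 : G)) {S : Set G} (hS : S.Finite) : ∃ v ∈ U, v ∉ S := by
  by_contra hcon
  push Not at hcon
  have hUf : U.Finite := hS.subset hcon
  have h1 : ({1} : Set G) ∈ 𝓝 (1 : G) := by
    have h2 : (U \ {1}).Finite := hUf.subset sdiff_subset
    have h3 : (U \ {1})ᶜ ∈ 𝓝 (1 : G) := h2.isClosed.isOpen_compl.mem_nhds (by simp)
    filter_upwards [hU, h3] with v hv1 hv2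
    by_contra hne
    exact hv2 ⟨hv1, hne⟩
  have hdisc : DiscreteTopology G := by
    apply discreteTopology_of_isOpen_singleton_one
    exact isOpen_singleton_iff_nhds_eq_pure _ |>.2 (by
      apply le_antisymm
      · intro s hs
        exact mem_of_superset h1 (singleton_subset_iff.2 (mem_pure.1 hs))
      · exact pure_le_nhds _)
  have hc : Countable G := countable_of_Lindelof_of_discrete
  have : Countable (ℕ → Bool) := h.countable
  obtain ⟨f, hf⟩ := exists_surjective_nat (ℕ → Bool)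
  obtain ⟨n, hn⟩ := hf fun m => !(f m m)
  have h5 := congrFun hn n
  cases h6 : f n n <;> simp [h6] at h5

/-- **Rectangle criterion.** -/
theorem criterion_rect {F : Set G} (hF : MeasurableSet F) {φ : G → (ℕ → Bool)}
    (hφ : Measurable φ)
    (hcap : ∀ (x : ℕ → Bool) (ν : Measure G), IsProbabilityMeasure ν →
      ∃ g h : G, ν {k | g * k * h ∈ F ∧ φ (g * k * h) = x} ≠ 0)
    (hrect : ∀ z₀₀ ∈ F, ∀ z₁₀ ∈ F, ∀ z₀₁ ∈ F, ∀ z₁₁ ∈ F, φ z₀₀ ≠ φ z₁₀ → φ z₀₀ ≠ φ z₀₁ →
      φ z₀₀ ≠ φ z₁₁ → φ z₁₀ ≠ φ z₀₁ → φ z₁₀ ≠ φ z₁₁ → φ z₀₁ ≠ φ z₁₁ →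
      z₁₁ ≠ z₁₀ * z₀₀⁻¹ * z₀₁) :
    ∃ A : Set G, GenHaarNull A ∧ ¬ HaarNull A := by
  have hsurj : Function.Surjective φ := by
    intro x
    obtain ⟨g, h, hgh⟩ := hcap x (Measure.dirac 1) inferInstance
    obtain ⟨k, hk⟩ := nonempty_of_measure_ne_zero hgh
    exact ⟨_, hk.2⟩
  obtain ⟨μ, hμ, hw⟩ := exists_witness (G := G) (N := univ) (by
    intro U hU S hS
    obtain ⟨v, hv1, hv2⟩ := infinite_nhds_of_surj hsurj hU hS
    exact ⟨v, hv1, mem_univ _, hv2⟩)
  obtain ⟨A, hAF, hinj, hum, hnot⟩ := exists_diag hF hφ hcap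
  refine ⟨A, ⟨A, fun ν hν => hum ν inferInstance, Subset.rfl, μ, hμ, fun g h => ?_⟩, hnot⟩
  by_contra hne
  obtain ⟨z₀₀, h00, z₁₀, h10, z₀₁, h01, z₁₁, h11, n1, n2, n3, n4, n5, n6, hrel, -⟩ :=
    hw A hum g h hne
  have hi : ∀ {x y : G}, x ∈ A → y ∈ A → x ≠ y → φ x ≠ φ y := fun hx hy hxy heq =>
    hxy (hinj hx hy heq)
  exact hrect _ (hAF h00) _ (hAF h10) _ (hAF h01) _ (hAF h11) (hi h00 h10 n1) (hi h00 h01 n2)
    (hi h00 h11 n3) (hi h10 h01 n4) (hi h10 h11 n5) (hi h01 h11 n6) hrel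

/-- **Pair criterion.** -/
theorem criterion_pair {F : Set G} (hF : MeasurableSet F) {φ : G → (ℕ → Bool)}
    (hφ : Measurable φ)
    (hcap : ∀ (x : ℕ → Bool) (ν : Measure G), IsProbabilityMeasure ν →
      ∃ g h : G, ν {k | g * k * h ∈ F ∧ φ (g * k * h) = x} ≠ 0)
    (M : Subgroup G) (hM : M.Normal)
    (hMinf : ∀ U ∈ 𝓝 (1 : G), ∀ S : Set G, S.Finite → ∃ v ∈ U, v ∈ M ∧ v ∉ S)
    (hpair : ∀ z ∈ F, ∀ z' ∈ F, z⁻¹ * z' ∈ M → φ z = φ z') :
    ∃ A : Set G, GenHaarNull A ∧ ¬ HaarNull A := by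
  obtain ⟨μ, hμ, hw⟩ := exists_witness (G := G) (N := (M : Set G)) hMinf
  obtain ⟨A, hAF, hinj, hum, hnot⟩ := exists_diag hF hφ hcap
  refine ⟨A, ⟨A, fun ν hν => hum ν inferInstance, Subset.rfl, μ, hμ, fun g h => ?_⟩, hnot⟩
  by_contra hne
  obtain ⟨z₀₀, h00, z₁₀, h10, z₀₁, h01, z₁₁, h11, n1, n2, n3, n4, n5, n6, hrel, hM'⟩ :=
    hw A hum g h hne
  exact n1 (hinj h00 h10 (hpair _ (hAF h00) _ (hAF h10) (hM' M hM Subset.rfl)))

end Criteria

theorem haarNull_gen {G : Type*} [Group G] [MeasurableSpace G] (A : Set G) (h : HaarNull A) :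
    GenHaarNull A := by
  obtain ⟨B, hB, hAB, μ, hμ, hn⟩ := h
  exact ⟨B, fun ν _ => hB.nullMeasurableSet, hAB, μ, hμ, hn⟩

variable {G Q : Type*} [Group G] [TopologicalSpace G] [IsTopologicalGroup G] [PolishSpace G]
  [MeasurableSpace G] [BorelSpace G] [Group Q] [TopologicalSpace Q] [IsTopologicalGroup Q]
  [PolishSpace Q]

theorem main_tsi (π : G →* Q) (hπ : Continuous π) (hsurj : Function.Surjective π)
    (hlc : ¬ LocallyCompactSpace Q) (H : Subgroup Q) (hH : IsOpen (H : Set Q))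
    (hSIN : ∀ U ∈ 𝓝 (1 : Q), ∃ V ∈ 𝓝 (1 : Q), V ⊆ U ∧ ∀ h ∈ H, ∀ v ∈ V, h * v * h⁻¹ ∈ V) :
    ∃ A : Set G, GenHaarNull A ∧ ¬ HaarNull A := by
  borelize Q
  have hPH : PolishSpace H := hH.polishSpace
  have hlcH : ¬ LocallyCompactSpace H := by
    intro hl
    apply hlc
    obtain ⟨K, hK, hK1⟩ := exists_compact_mem_nhds (1 : H)
    have h1 : ((↑) : H → Q) '' K ∈ 𝓝 (1 : Q) := by
      have := hH.isOpenMap_subtype_val.image_mem_nhds hK1
      exact this
    exact (hK.image continuous_subtype_val).locallyCompactSpace_of_mem_nhds_of_group h1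
  have hSINH : ∀ U ∈ 𝓝 (1 : H), ∃ V ∈ 𝓝 (1 : H), V ⊆ U ∧ ∀ h : H, ∀ v ∈ V, h * v * h⁻¹ ∈ V := by
    intro U hU
    rw [nhds_subtype_eq_comap] at hU
    obtain ⟨U', hU', hsub⟩ := hU
    obtain ⟨V, hV, hVU, hinv⟩ := hSIN U' hU'
    refine ⟨(↑) ⁻¹' V, ?_, ?_, ?_⟩
    · rw [nhds_subtype_eq_comap]
      exact preimage_mem_comap hV
    · exact (preimage_mono hVU).trans hsub
    · intro h v hv
      exact hinv h h.2 v hv
  obtain ⟨d, hd⟩ := exists_biInv hSINH
  obtain ⟨T⟩ := exists_tree hd (fun δ hδ => hd.not_tb hlcH hδ) (TopologicalSpace.denseSeq H)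
  have hemb : MeasurableEmbedding ((↑) : H → Q) := MeasurableEmbedding.subtype_coe hH.measurableSet
  obtain ⟨ψ, hψ, hψφ⟩ := hemb.exists_measurable_extend (T.measurable_φ hd)
    (fun _ => ⟨fun _ => false⟩)
  have hψφ' : ∀ k : H, ψ k = T.φ k := fun k => congrFun hψφ k
  have hπm : Measurable π := hπ.measurable
  refine criterion_rect (F := π ⁻¹' (((↑) : H → Q) '' T.F)) (φ := ψ ∘ π)
    (hπm (hemb.measurableSet_image.2 (T.measurableSet_F hd))) (hψ.comp hπm) ?_ ?_
  · intro x ν hν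
    have hν' : IsProbabilityMeasure (ν.map π) := Measure.isProbabilityMeasure_map hπm.aemeasurable
    -- a coset of positive measure
    obtain ⟨c, hc⟩ : ∃ c : Q, (ν.map π) ((fun q => c * q) '' (H : Set Q)) ≠ 0 := by
      by_contra hcon
      push Not at hcon
      have h1 : (⋃ n, (fun q => TopologicalSpace.denseSeq Q n * q) '' (H : Set Q)) = univ := by
        rw [eq_univ_iff_forall]
        intro q
        have hopen : IsOpen ((fun h => q * h) '' (H : Set Q)) :=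
          (Homeomorph.mulLeft q).isOpenMap _ hH
        obtain ⟨n, hn⟩ := (TopologicalSpace.denseRange_denseSeq Q).exists_mem_open hopen
          ⟨q, 1, H.one_mem, mul_one q⟩
        obtain ⟨h, hh, hqh⟩ := hn
        rw [mem_iUnion]
        refine ⟨n, h⁻¹, H.inv_mem hh, ?_⟩
        simp only at hqh ⊢
        rw [← hqh]
        group
      have h2 : (ν.map π) univ = 0 := by
        rw [← h1]
        exact measure_iUnion_null fun n => hcon _
      rw [measure_univ] at h2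
      exact one_ne_zero h2
    set f : H → Q := fun k => c * k with hf
    have hfemb : MeasurableEmbedding f :=
      (Homeomorph.mulLeft c).measurableEmbedding.comp hemb
    have hrange : range f = (fun q => c * q) '' (H : Set Q) := by
      ext q
      constructor
      · rintro ⟨k, rfl⟩
        exact ⟨k, k.2, rfl⟩
      · rintro ⟨k, hk, rfl⟩
        exact ⟨⟨k, hk⟩, rfl⟩
    set νH : Measure H := (ν.map π).comap f with hνH
    have hνHapp : ∀ S : Set H, νH S = (ν.map π) (f '' S) := fun S => hfemb.comap_apply _ _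
    have hfin : IsFiniteMeasure νH := ⟨by
      rw [hνHapp]
      exact measure_lt_top _ _⟩
    have huniv : νH univ ≠ 0 := by
      rw [hνHapp, image_univ, hrange]
      exact hc
    obtain ⟨g, hg⟩ := T.capture hd (TopologicalSpace.denseRange_denseSeq H) x νH huniv
    obtain ⟨g', hg'⟩ := hsurj (g * c⁻¹)
    refine ⟨g', 1, ?_⟩
    rw [hνHapp] at hg
    have hsub : f '' {k | g * k ∈ T.F ∧ T.φ (g * k) = x} ⊆
        {q : Q | (g : Q) * c⁻¹ * q ∈ ((↑) : H → Q) '' T.F ∧ ψ ((g : Q) * c⁻¹ * q) = x} := by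
      rintro _ ⟨k, ⟨hk1, hk2⟩, rfl⟩
      have e : (g : Q) * c⁻¹ * f k = ((g * k : H) : Q) := by
        simp only [hf, Subgroup.coe_mul]
        group
      simp only [mem_ofPred_eq, e]
      exact ⟨⟨_, hk1, rfl⟩, by rw [hψφ']; exact hk2⟩
    have hS : MeasurableSet {q : Q | (g : Q) * c⁻¹ * q ∈ ((↑) : H → Q) '' T.F ∧
        ψ ((g : Q) * c⁻¹ * q) = x} := by
      have hm : Measurable fun q : Q => (g : Q) * c⁻¹ * q :=
        (continuous_const.mul continuous_id).measurable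
      exact (hm (hemb.measurableSet_image.2 (T.measurableSet_F hd))).inter
        ((hψ.comp hm) (MeasurableSet.singleton x))
    have h3 : (ν.map π) {q : Q | (g : Q) * c⁻¹ * q ∈ ((↑) : H → Q) '' T.F ∧
        ψ ((g : Q) * c⁻¹ * q) = x} ≠ 0 := fun h0 => hg (measure_mono_null hsub h0)
    rw [Measure.map_apply hπm hS] at h3
    convert h3 using 2
    ext k
    simp only [mem_ofPred_eq, mem_preimage, Function.comp, map_mul, mul_one, hg']
  · rintro z₀₀ ⟨a, ha, ha'⟩ z₁₀ ⟨b, hb, hb'⟩ z₀₁ ⟨c, hc, hc'⟩ z₁₁ ⟨e, he, he'⟩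
    simp only [Function.comp, ← ha', ← hb', ← hc', ← he', hψφ']
    intro n1 n2 n3 n4 n5 n6 hrel
    apply T.no_rect hd ha hb hc he n1 n2 n3 n4 n5 n6
    apply Subtype.val_injective
    have := congrArg π hrel
    simp only [map_mul, map_inv, ← ha', ← hb', ← hc', ← he'] at this
    simpa using this

end Pool.Agent.HN
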