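import Pool.Agent.Helper61_HN.Diag

/-!
# Fair coins, flips, and random products in a Polish group
-/

set_option autoImplicit false
set_option linter.unusedSectionVars false

namespace Pool.Agent.HN

open MeasureTheory Set Filter Topology
open scoped ENNReal

/-- the space of coin sequences -/
abbrev Om : Type := ℕ → ZMod 2

/-- the fair coin measure -/
noncomputable def coin : Measure Om := Measure.addHaarMeasure ⊤

noncomputable instance : coin.IsAddHaarMeasure := by
  unfold coin; infer_instance

instance : IsProbabilityMeasure coin := by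
  constructor
  have := Measure.addHaarMeasure_self (K₀ := (⊤ : TopologicalSpace.PositiveCompacts Om))
  simpa [coin] using this

/-- the coordinate vector -/
def e (i : ℕ) : Om := Pi.single i 1

theorem e_add_e (i : ℕ) : e i + e i = 0 := by
  have h2 : ∀ a : ZMod 2, a + a = 0 := by decide
  funext n
  simp only [Pi.add_apply, Pi.zero_apply]
  exact h2 _

theorem e_apply_ne {i n : ℕ} (h : n ≠ i) : e i n = 0 := by
  simp [e, Pi.single_eq_of_ne h]

theorem e_apply_self (i : ℕ) : e i i = 1 := by simp [e]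

/-- pigeonhole for flips -/
theorem exists_flip {X : Set Om} (hX : NullMeasurableSet X coin) (h0 : coin X ≠ 0) (m : ℕ) :
    ∃ i j, m ≤ i ∧ i < j ∧ coin (X ∩ {s | s + (e i + e j) ∈ X}) ≠ 0 := by
  have hmeas : ∀ i, coin {s | s + e i ∈ X} = coin X := fun i =>
    measure_preimage_add_right coin (e i) X
  have hnm : ∀ i, NullMeasurableSet {s | s + e i ∈ X} coin := by
    intro i
    have hmp : MeasurePreserving (fun s : Om => s + e i) coin coin :=
      measurePreserving_add_right coin (e i)
    exact hX.preimage hmp.quasiMeasurePreserving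
  have key : ∃ i j, i ≠ j ∧
      coin ({s | s + e (m + i) ∈ X} ∩ {s | s + e (m + j) ∈ X}) ≠ 0 := by
    by_contra hcon
    push Not at hcon
    have h1 := measure_iUnion₀ (μ := coin) (f := fun i => {s | s + e (m + i) ∈ X})
      (fun i j hij => hcon i j hij) (fun i => hnm _)
    have h2 : ∑' i : ℕ, coin {s | s + e (m + i) ∈ X} = ⊤ := by
      simp only [hmeas]
      exact ENNReal.tsum_const_eq_top_of_ne_zero h0
    rw [h2] at h1
    exact (measure_ne_top _ _) h1
  have key2 : ∀ i j, coin ({s | s + e i ∈ X} ∩ {s | s + e j ∈ X}) ≠ 0 →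
      coin (X ∩ {s | s + (e i + e j) ∈ X}) ≠ 0 := by
    intro i j h
    have h1 := measure_preimage_add_right coin (e i) ({s | s + e i ∈ X} ∩ {s | s + e j ∈ X})
    have h2 : (fun s => s + e i) ⁻¹' ({s | s + e i ∈ X} ∩ {s | s + e j ∈ X}) =
        X ∩ {s | s + (e i + e j) ∈ X} := by
      ext s
      simp only [mem_preimage, mem_inter_iff, mem_ofPred_eq, add_assoc, e_add_e, add_zero]
    rw [h2] at h1
    rw [h1]
    exact h
  obtain ⟨i, j, hij, h⟩ := key
  rcases lt_or_gt_of_ne hij with hlt | hlt
  · exact ⟨m + i, m + j, by omega, by omega, key2 _ _ h⟩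
  · refine ⟨m + j, m + i, by omega, by omega, key2 _ _ ?_⟩
    rwa [inter_comm]

/-- a square of flips in a set of positive measure -/
theorem exists_square {X : Set Om} (hX : NullMeasurableSet X coin) (h0 : coin X ≠ 0) :
    ∃ (s : Om) (i j k l : ℕ), i < j ∧ j < k ∧ k < l ∧ s ∈ X ∧ s + (e i + e j) ∈ X ∧
      s + (e k + e l) ∈ X ∧ s + (e k + e l) + (e i + e j) ∈ X := by
  obtain ⟨i, j, -, hij, h1⟩ := exists_flip hX h0 0
  have hY : NullMeasurableSet (X ∩ {s | s + (e i + e j) ∈ X}) coin := by
    have hmp : MeasurePreserving (fun s : Om => s + (e i + e j)) coin coin :=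
      measurePreserving_add_right coin (e i + e j)
    exact hX.inter (hX.preimage hmp.quasiMeasurePreserving)
  obtain ⟨k, l, hk, hkl, h2⟩ := exists_flip hY h1 (j + 1)
  obtain ⟨s, hs⟩ := nonempty_of_measure_ne_zero h2
  exact ⟨s, i, j, k, l, hij, by omega, hkl, hs.1.1, hs.1.2, hs.2.1, hs.2.2⟩

section Products

variable {G : Type*} [Group G]

open Classical in
/-- the ordered product `∏_{i < n} c_i ^ {s_i}` -/
noncomputable def pr (c : ℕ → G) : ℕ → Om → G
  | 0, _ => 1
  | n + 1, s => pr c n s * (if s n = 0 then 1 else c n)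

/-- the segment of the product from `m` on -/
noncomputable def sg (c : ℕ → G) (m : ℕ) : ℕ → Om → G
  | 0, _ => 1
  | n + 1, s => sg c m n s * (if s (m + n) = 0 then 1 else c (m + n))

theorem pr_congr {c c' : ℕ → G} {n : ℕ} (h : ∀ i < n, c i = c' i) {s t : Om}
    (hst : ∀ i < n, s i = t i) : pr c n s = pr c' n t := by
  induction n with
  | zero => rfl
  | succ n ih =>
    simp only [pr]
    rw [ih (fun i hi => h i (by omega)) (fun i hi => hst i (by omega)), h n (by omega),
      hst n (by omega)]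

theorem pr_add (c : ℕ → G) (m n : ℕ) (s : Om) : pr c (m + n) s = pr c m s * sg c m n s := by
  induction n with
  | zero => simp [sg]
  | succ n ih =>
    rw [← add_assoc]
    simp only [pr, sg]
    rw [ih, mul_assoc]

theorem sg_congr (c : ℕ → G) {m n : ℕ} {s t : Om} (hst : ∀ i, m ≤ i → s i = t i) :
    sg c m n s = sg c m n t := by
  induction n with
  | zero => rfl
  | succ n ih =>
    simp only [sg]
    rw [ih, hst (m + n) (by omega)]

theorem finite_range_pr (c : ℕ → G) (n : ℕ) : (range (pr c n)).Finite := by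
  induction n with
  | zero =>
    refine (finite_singleton (1 : G)).subset ?_
    rintro _ ⟨s, rfl⟩
    rfl
  | succ n ih =>
    refine (ih.image2 (fun a b => a * b) ((finite_singleton (c n)).insert 1)).subset ?_
    rintro _ ⟨s, rfl⟩
    refine ⟨pr c n s, ⟨s, rfl⟩, (if s n = 0 then 1 else c n), ?_, rfl⟩
    by_cases h : s n = 0 <;> simp [h]

theorem pr_inj {c : ℕ → G} (hc : ∀ n s t, pr c n s * c n ≠ pr c n t) {n : ℕ} {s t : Om}
    (h : pr c n s = pr c n t) : ∀ i < n, s i = t i := by
  induction n with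
  | zero => intro i hi; omega
  | succ n ih =>
    have h01 : ∀ a : ZMod 2, a ≠ 0 → a = 1 := by decide
    simp only [pr] at h
    by_cases h1 : s n = 0 <;> by_cases h2 : t n = 0
    · simp only [h1, h2, if_true, mul_one] at h
      intro i hi
      rcases Nat.lt_succ_iff_lt_or_eq.1 hi with hi | rfl
      · exact ih h i hi
      · rw [h1, h2]
    · simp only [h1, h2, if_true, if_false, mul_one] at h
      exact absurd h.symm (hc n t s)
    · simp only [h1, h2, if_true, if_false, mul_one] at h
      exact absurd h (hc n s t)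
    · simp only [h1, h2, if_false] at h
      have h3 := mul_right_cancel h
      intro i hi
      rcases Nat.lt_succ_iff_lt_or_eq.1 hi with hi | rfl
      · exact ih h3 i hi
      · rw [h01 _ h1, h01 _ h2]

variable [TopologicalSpace G] [IsTopologicalGroup G] [PolishSpace G]

/-- rapidly decreasing steps in a given family of small elements -/
theorem exists_steps {N : Set G} (hN : ∀ U ∈ 𝓝 (1 : G), ∀ S : Set G, S.Finite →
    ∃ v ∈ U, v ∈ N ∧ v ∉ S) :
    ∃ c : ℕ → G, (∀ n, c n ∈ N) ∧ (∀ n s t, pr c n s * c n ≠ pr c n t) ∧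
      ∀ s, ∃ k, Tendsto (fun n => pr c n s) atTop (𝓝 k) := by
  let _ := TopologicalSpace.upgradeIsCompletelyMetrizable G
  have : Inhabited G := ⟨1⟩
  obtain ⟨c, hc⟩ := exists_local_seq
    (fun n (c : ℕ → G) a => a ∈ N ∧ (∀ s t, pr c n s * a ≠ pr c n t) ∧
      ∀ s, dist (pr c n s) (pr c n s * a) ≤ 1 / 2 / 2 ^ n)
    (by
      intro n c c' a h hP
      have h1 : pr c n = pr c' n := by
        funext s
        exact pr_congr h fun _ _ => rfl
      rw [← h1]
      exact hP)
    (by
      intro n c
      have hU : ∀ p ∈ range (pr c n), {v : G | dist p (p * v) < 1 / 2 / 2 ^ n} ∈ 𝓝 (1 : G) := by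
        intro p _
        have hcont : Continuous fun v : G => dist p (p * v) :=
          continuous_const.dist (continuous_const.mul continuous_id)
        refine (isOpen_lt hcont continuous_const).mem_nhds ?_
        simp only [mul_one, dist_self, mem_ofPred_eq]
        positivity
      have hU2 := (Filter.biInter_mem (finite_range_pr c n)).2 hU
      have hfin : (Set.image2 (fun p q : G => p⁻¹ * q) (range (pr c n)) (range (pr c n))).Finite :=
        (finite_range_pr c n).image2 _ (finite_range_pr c n)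
      obtain ⟨v, hv1, hv2, hv3⟩ := hN _ hU2 _ hfin
      refine ⟨v, hv2, ?_, ?_⟩
      · intro s t h
        apply hv3
        exact ⟨_, ⟨s, rfl⟩, _, ⟨t, rfl⟩, by rw [← h]; group⟩
      · intro s
        have := mem_iInter₂.1 hv1 (pr c n s) ⟨s, rfl⟩
        exact le_of_lt this)
  refine ⟨c, fun n => (hc n).1, fun n => (hc n).2.1, fun s => ?_⟩
  apply cauchySeq_tendsto_of_complete
  apply cauchySeq_of_le_geometric_two (C := 1)
  intro n
  simp only [pr]
  by_cases h : s n = 0
  · simp only [h, if_true, mul_one, dist_self]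
    positivity
  · simp only [h, if_false]
    exact (hc n).2.2 s

end Products

variable {G : Type*} [Group G] [TopologicalSpace G] [IsTopologicalGroup G] [PolishSpace G]
  [MeasurableSpace G] [BorelSpace G]

theorem measurable_pr (c : ℕ → G) (n : ℕ) : Measurable (pr c n) := by
  induction n with
  | zero => exact measurable_const
  | succ n ih =>
    have : pr c (n + 1) = fun s => pr c n s * (if s n = 0 then 1 else c n) := rfl
    rw [this]
    refine ih.mul ?_
    refine Measurable.ite ?_ measurable_const measurable_const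
    have h1 : Measurable fun s : Om => s n := measurable_pi_apply n
    exact h1 (MeasurableSet.singleton (0 : ZMod 2))

/-- **The witness measure.** If `1` is not isolated in `N ∪ {1}`, there is a probability measure
`μ` such that every universally measurable set `A` with `μ (g A h) ≠ 0` contains four different
points `z₀₀, z₁₀, z₀₁, z₁₁ = z₁₀ z₀₀⁻¹ z₀₁`, with `z₀₀⁻¹ z₁₀` in every normal subgroup
containing `N`. -/
theorem exists_witness {N : Set G} (hN : ∀ U ∈ 𝓝 (1 : G), ∀ S : Set G, S.Finite →
    ∃ v ∈ U, v ∈ N ∧ v ∉ S) :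
    ∃ μ : Measure G, IsProbabilityMeasure μ ∧ ∀ A : Set G, UM A → ∀ g h : G,
      μ ((fun x => g * x * h) '' A) ≠ 0 →
      ∃ z₀₀ ∈ A, ∃ z₁₀ ∈ A, ∃ z₀₁ ∈ A, ∃ z₁₁ ∈ A, z₀₀ ≠ z₁₀ ∧ z₀₀ ≠ z₀₁ ∧ z₀₀ ≠ z₁₁ ∧
        z₁₀ ≠ z₀₁ ∧ z₁₀ ≠ z₁₁ ∧ z₀₁ ≠ z₁₁ ∧ z₁₁ = z₁₀ * z₀₀⁻¹ * z₀₁ ∧
        ∀ M : Subgroup G, M.Normal → N ⊆ M → z₀₀⁻¹ * z₁₀ ∈ M := by
  obtain ⟨c, hcN, hc, hlim⟩ := exists_steps hN
  choose k hk using hlim
  have hkm : Measurable k := by
    refine measurable_of_tendsto_metrizable (measurable_pr c) ?_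
    rw [tendsto_pi_nhds]
    exact hk
  refine ⟨coin.map k, Measure.isProbabilityMeasure_map hkm.aemeasurable, ?_⟩
  intro A hA g h hne
  have himg : (fun x => g * x * h) '' A = (fun y => g⁻¹ * y * h⁻¹) ⁻¹' A := by
    ext y
    constructor
    · rintro ⟨x, hx, rfl⟩
      have : g⁻¹ * (g * x * h) * h⁻¹ = x := by group
      simpa [this] using hx
    · intro hy
      exact ⟨_, hy, by group⟩
  have hmeas : Measurable fun y : G => g⁻¹ * y * h⁻¹ := by fun_prop
  have hUM : UM ((fun x => g * x * h) '' A) := by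
    rw [himg]
    exact hA.preimage hmeas
  have hUM2 := hUM.preimage hkm
  rw [Measure.map_apply₀ hkm.aemeasurable (hUM _ inferInstance)] at hne
  obtain ⟨s, i, j, a, b, hij, hja, hab, h00, h10, h01, h11⟩ :=
    exists_square (hUM2 coin inferInstance) hne
  -- tails
  have htail : ∀ (m : ℕ) (s t : Om), (∀ i, m ≤ i → s i = t i) →
      (pr c m s)⁻¹ * k s = (pr c m t)⁻¹ * k t := by
    intro m s t hst
    have h1 : ∀ u : Om, Tendsto (fun n => sg c m n u) atTop (𝓝 ((pr c m u)⁻¹ * k u)) := by
      intro u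
      have h2 : Tendsto (fun n => (pr c m u)⁻¹ * pr c (m + n) u) atTop
          (𝓝 ((pr c m u)⁻¹ * k u)) := by
        refine Tendsto.mul tendsto_const_nhds ?_
        have := (hk u).comp (tendsto_add_atTop_nat m)
        refine this.congr fun n => ?_
        simp only [Function.comp]
        rw [add_comm]
      refine h2.congr fun n => ?_
      rw [pr_add]
      group
    refine tendsto_nhds_unique (h1 s) ((h1 t).congr fun n => ?_)
    exact (sg_congr c hst).symm
  have hz : ∀ x y : ZMod 2, x + y + y = x := by decide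
  set s10 : Om := s + (e i + e j)
  set s01 : Om := s + (e a + e b)
  set s11 : Om := s + (e a + e b) + (e i + e j)
  have E1 : ∀ n, j + 1 ≤ n → (e i + e j) n = 0 := by
    intro n hn
    simp [Pi.add_apply, e_apply_ne (show n ≠ i by omega), e_apply_ne (show n ≠ j by omega)]
  have E2 : ∀ n < j + 1, (e a + e b) n = 0 := by
    intro n hn
    simp [Pi.add_apply, e_apply_ne (show n ≠ a by omega), e_apply_ne (show n ≠ b by omega)]
  have E3 : ∀ n, b + 1 ≤ n → (e a + e b) n = 0 := by
    intro n hn
    simp [Pi.add_apply, e_apply_ne (show n ≠ a by omega), e_apply_ne (show n ≠ b by omega)]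
  have P01 : pr c (j + 1) s = pr c (j + 1) s01 := by
    apply pr_congr (fun _ _ => rfl)
    intro n hn
    simp [s01, E2 n hn]
  have P11 : pr c (j + 1) s10 = pr c (j + 1) s11 := by
    apply pr_congr (fun _ _ => rfl)
    intro n hn
    simp [s10, s11, E2 n hn]
  have T10 : (pr c (j + 1) s)⁻¹ * k s = (pr c (j + 1) s10)⁻¹ * k s10 := by
    apply htail
    intro n hn
    simp [s10, E1 n hn]
  have T11 : (pr c (j + 1) s01)⁻¹ * k s01 = (pr c (j + 1) s11)⁻¹ * k s11 := by
    apply htail
    intro n hn
    simp [s01, s11, E1 n hn]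
  -- inequalities
  have hdist : ∀ (u w : Om), (∀ n, b + 1 ≤ n → u n = w n) → (∃ n < b + 1, u n ≠ w n) →
      k u ≠ k w := by
    intro u w huw ⟨n, hn, hne⟩ heq
    have h1 := htail (b + 1) u w huw
    rw [heq] at h1
    have h2 := inv_injective (mul_right_cancel h1)
    exact hne (pr_inj hc h2 n hn)
  have hone : (1 : ZMod 2) ≠ 0 := by decide
  have ei_i : (e i + e j) i = 1 := by
    simp [Pi.add_apply, e_apply_self, e_apply_ne (show i ≠ j by omega)]
  have ei_a : (e i + e j) a = 0 := E1 a (by omega)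
  have ea_a : (e a + e b) a = 1 := by
    simp [Pi.add_apply, e_apply_self, e_apply_ne (show a ≠ b by omega)]
  have ea_i : (e a + e b) i = 0 := E2 i (by omega)
  have n1 : k s ≠ k s10 := by
    apply hdist
    · intro n hn
      simp [s10, E1 n (by omega)]
    · exact ⟨i, by omega, by simp [s10, ei_i, hone]⟩
  have n2 : k s ≠ k s01 := by
    apply hdist
    · intro n hn
      simp [s01, E3 n hn]
    · exact ⟨a, by omega, by simp [s01, ea_a, hone]⟩
  have n3 : k s ≠ k s11 := by
    apply hdist
    · intro n hn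
      simp [s11, E3 n hn, E1 n (by omega)]
    · exact ⟨a, by omega, by simp [s11, ea_a, ei_a, hone]⟩
  have n4 : k s10 ≠ k s01 := by
    apply hdist
    · intro n hn
      simp [s10, s01, E3 n hn, E1 n (by omega)]
    · exact ⟨a, by omega, by simp [s10, s01, ea_a, ei_a, hone]⟩
  have n5 : k s10 ≠ k s11 := by
    apply hdist
    · intro n hn
      simp [s10, s11, E3 n hn, E1 n (by omega)]
    · exact ⟨a, by omega, by simp [s10, s11, ea_a, ei_a, hone]⟩
  have n6 : k s01 ≠ k s11 := by
    apply hdist
    · intro n hn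
      simp [s01, s11, E1 n (by omega)]
    · exact ⟨i, by omega, by simp [s01, s11, ei_i, hone]⟩
  have hinj : ∀ {x y : G}, x ≠ y → g⁻¹ * x * h⁻¹ ≠ g⁻¹ * y * h⁻¹ := by
    intro x y hxy heq
    exact hxy (mul_left_cancel (mul_right_cancel heq))
  rw [himg] at h00 h10 h01 h11
  have R : k s11 = k s10 * (k s)⁻¹ * k s01 := by
    have e1 : k s10 = pr c (j + 1) s10 * ((pr c (j + 1) s)⁻¹ * k s) := by
      rw [T10]; group
    have e2 : k s11 = pr c (j + 1) s11 * ((pr c (j + 1) s01)⁻¹ * k s01) := by
      rw [T11]; group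
    rw [e2, e1, ← P11, ← P01]
    group
  refine ⟨_, h00, _, h10, _, h01, _, h11, hinj n1, hinj n2, hinj n3, hinj n4, hinj n5, hinj n6,
    ?_, ?_⟩
  · simp only
    rw [R]
    group
  · intro M hM hNM
    have hprM : ∀ n s, pr c n s ∈ M := by
      intro n s
      induction n with
      | zero => exact M.one_mem
      | succ n ih =>
        simp only [pr]
        refine M.mul_mem ih ?_
        by_cases h : s n = 0
        · simp [h, M.one_mem]
        · simp only [h, if_false]
          exact hNM (hcN n)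
    have e1 : k s10 = pr c (j + 1) s10 * ((pr c (j + 1) s)⁻¹ * k s) := by
      rw [T10]; group
    have e3 : (g⁻¹ * k s * h⁻¹)⁻¹ * (g⁻¹ * k s10 * h⁻¹) =
        (h * (k s)⁻¹ * pr c (j + 1) s) * ((pr c (j + 1) s)⁻¹ * pr c (j + 1) s10) *
          (h * (k s)⁻¹ * pr c (j + 1) s)⁻¹ := by
      rw [e1]
      group
    show (g⁻¹ * k s * h⁻¹)⁻¹ * (g⁻¹ * k s10 * h⁻¹) ∈ M
    rw [e3]
    exact hM.conj_mem _ (M.mul_mem (M.inv_mem (hprM _ _)) (hprM _ _)) _

end Pool.Agent.HN
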