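import Mathlib

/-!
# Left invariant metrics, Raikov completeness, separated sequences
-/

set_option autoImplicit false
set_option linter.unusedSectionVars false

namespace Pool.Agent.HN

open Set Filter Topology

/-- a compatible left invariant metric, as a function -/
structure LeftInv {H : Type*} [Group H] [TopologicalSpace H] (d : H → H → ℝ) : Prop where
  self : ∀ x, d x x = 0
  comm : ∀ x y, d x y = d y x
  tri : ∀ x y z, d x z ≤ d x y + d y z
  left : ∀ a x y, d (a * x) (a * y) = d x y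
  eq : ∀ x y, d x y = 0 → x = y
  op : ∀ s : Set H, IsOpen s ↔ ∀ x ∈ s, ∃ ε > 0, ∀ y, d x y < ε → y ∈ s

section Exists

variable {H : Type*} [Group H] [TopologicalSpace H] [IsTopologicalGroup H] [T2Space H]
  [FirstCountableTopology H]

/-- **Birkhoff-Kakutani.** -/
theorem exists_leftInv : ∃ d : H → H → ℝ, LeftInv d ∧ ∀ x y, d x y ≤ 1 := by
  let _ : UniformSpace H := IsTopologicalGroup.leftUniformSpace H
  have hLU : IsLeftUniformGroup H := { uniformity_eq := rfl }
  have hcg : (uniformity H).IsCountablyGenerated := by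
    rw [uniformity_eq_comap_inv_mul_nhds_one H]
    infer_instance
  let _ : PseudoMetricSpace H := UniformSpace.pseudoMetricSpace H
  set r : H → H → H → ℝ := fun x y p => min 1 (dist (p * x) (p * y)) with hr
  have hb : ∀ x y, BddAbove (range (r x y)) := fun x y => ⟨1, by
    rintro _ ⟨p, rfl⟩
    exact min_le_left _ _⟩
  have hle : ∀ x y p, r x y p ≤ ⨆ q, r x y q := fun x y p => le_ciSup (hb x y) p
  refine ⟨fun x y => ⨆ p, r x y p, ⟨?_, ?_, ?_, ?_, ?_, ?_⟩, ?_⟩
  · intro x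
    have : ∀ p, r x x p = 0 := fun p => by simp [hr]
    simp [this]
  · intro x y
    simp only [hr, dist_comm]
  · intro x y z
    apply ciSup_le
    intro p
    refine le_trans ?_ (add_le_add (hle x y p) (hle y z p))
    simp only [hr]
    have h1 := dist_triangle (p * x) (p * y) (p * z)
    have h2 : (0 : ℝ) ≤ dist (p * x) (p * y) := dist_nonneg
    have h3 : (0 : ℝ) ≤ dist (p * y) (p * z) := dist_nonneg
    rcases le_total 1 (dist (p * x) (p * y)) with h4 | h4
    · rw [min_eq_left h4]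
      exact (min_le_left _ _).trans (by linarith [le_min zero_le_one h3])
    rcases le_total 1 (dist (p * y) (p * z)) with h5 | h5
    · rw [min_eq_left h5]
      exact (min_le_left _ _).trans (by linarith [le_min zero_le_one h2])
    rw [min_eq_right h4, min_eq_right h5]
    exact (min_le_right _ _).trans h1
  · intro a x y
    apply le_antisymm
    · apply ciSup_le
      intro p
      refine le_trans (le_of_eq ?_) (hle x y (p * a))
      simp only [hr, mul_assoc]
    · apply ciSup_le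
      intro p
      refine le_trans (le_of_eq ?_) (hle (a * x) (a * y) (p * a⁻¹))
      simp only [hr]
      congr 2 <;> group
  · intro x y hxy
    have h1 : r x y 1 ≤ 0 := (hle x y 1).trans hxy.le
    simp only [hr, one_mul] at h1
    have h2 : dist x y ≤ 0 := by
      rcases min_le_iff.1 h1 with h | h
      · linarith
      · exact h
    have h3 : Inseparable x y := Metric.inseparable_iff.2 (le_antisymm h2 dist_nonneg)
    exact h3.eq
  · intro s
    constructor
    · intro hs x hx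
      obtain ⟨ε, hε, hsub⟩ := Metric.isOpen_iff.1 hs x hx
      refine ⟨min ε 1, lt_min hε one_pos, fun y hy => hsub ?_⟩
      have h1 := (hle x y 1).trans_lt hy
      simp only [hr, one_mul] at h1
      rw [Metric.mem_ball, dist_comm]
      rcases min_lt_iff.1 h1 with h | h
      · exact absurd (h.trans_le (min_le_right _ _)) (lt_irrefl _)
      · exact h.trans_le (min_le_left _ _)
    · intro h
      rw [isOpen_iff_mem_nhds]
      intro x hx
      obtain ⟨ε, hε, hsub⟩ := h x hx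
      have hU : {p : H × H | dist p.1 p.2 < ε / 2} ∈ uniformity H :=
        Metric.dist_mem_uniformity (half_pos hε)
      rw [uniformity_eq_comap_inv_mul_nhds_one H] at hU
      obtain ⟨U, hU1, hU2⟩ := hU
      have hVx : {y | x⁻¹ * y ∈ U} ∈ 𝓝 x := by
        have hc : Continuous fun y : H => x⁻¹ * y := by fun_prop
        apply hc.continuousAt
        simpa using hU1
      refine mem_of_superset hVx fun y hy => hsub y ?_
      refine lt_of_le_of_lt ?_ (half_lt_self hε)
      apply ciSup_le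
      intro p
      refine (min_le_right _ _).trans (le_of_lt ?_)
      have h3 : (p * x, p * y) ∈ {p : H × H | dist p.1 p.2 < ε / 2} := by
        apply hU2
        have : (p * x)⁻¹ * (p * y) = x⁻¹ * y := by group
        simp only [mem_preimage]
        rw [this]
        exact hy
      exact h3
  · intro x y
    exact ciSup_le fun p => min_le_left _ _

end Exists

section Basic

variable {H : Type*} [Group H] [TopologicalSpace H] {d : H → H → ℝ}

theorem LeftInv.nonneg (hd : LeftInv d) (x y : H) : 0 ≤ d x y := by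
  have h1 := hd.tri x y x
  rw [hd.self, hd.comm y x] at h1
  linarith

/-- `|x| = d x 1`; here `d x (x * a) = |a|`. -/
theorem LeftInv.mul_right (hd : LeftInv d) (x a : H) : d x (x * a) = d 1 a := by
  have := hd.left x 1 a
  rwa [mul_one] at this

theorem LeftInv.one_inv (hd : LeftInv d) (x : H) : d 1 x⁻¹ = d 1 x := by
  have := hd.left x 1 x⁻¹
  rw [mul_one, mul_inv_cancel] at this
  rw [← this, hd.comm]

theorem LeftInv.eq_one_inv_mul (hd : LeftInv d) (x y : H) : d x y = d 1 (x⁻¹ * y) := by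
  have := hd.left x⁻¹ x y
  rwa [inv_mul_cancel, eq_comm] at this

theorem LeftInv.one_mul_le (hd : LeftInv d) (x y : H) : d 1 (x * y) ≤ d 1 x + d 1 y := by
  have h1 := hd.tri 1 x (x * y)
  rwa [hd.mul_right] at h1

/-- the metric space structure -/
@[reducible] noncomputable def LeftInv.metric (hd : LeftInv d) : MetricSpace H :=
  MetricSpace.ofDistTopology d hd.self hd.comm hd.tri hd.op hd.eq

theorem LeftInv.isOpen_ball (hd : LeftInv d) (x : H) (ε : ℝ) : IsOpen {y | d x y < ε} := by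
  rw [hd.op]
  intro y hy
  refine ⟨ε - d x y, sub_pos.2 hy, fun z hz => ?_⟩
  have := hd.tri x y z
  simp only [mem_ofPred_eq] at hy ⊢
  linarith

theorem LeftInv.ball_mem (hd : LeftInv d) (x : H) {ε : ℝ} (hε : 0 < ε) : {y | d x y < ε} ∈ 𝓝 x :=
  (hd.isOpen_ball x ε).mem_nhds (by simpa [hd.self] using hε)

theorem LeftInv.mem_nhds (hd : LeftInv d) {x : H} {U : Set H} (hU : U ∈ 𝓝 x) :
    ∃ ε > 0, ∀ y, d x y < ε → y ∈ U := by
  obtain ⟨V, hVU, hV, hx⟩ := mem_nhds_iff.1 hU
  obtain ⟨ε, hε, h⟩ := (hd.op V).1 hV x hx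
  exact ⟨ε, hε, fun y hy => hVU (h y hy)⟩

end Basic

section Raikov

variable {H : Type*} [Group H] [TopologicalSpace H] [IsTopologicalGroup H]
  [TopologicalSpace.IsCompletelyMetrizableSpace H]

/-- **Raikov completeness** of completely metrizable groups. -/
theorem raikov (x : ℕ → H)
    (h1 : ∀ U ∈ 𝓝 (1 : H), ∃ N, ∀ n ≥ N, ∀ m ≥ N, x n * (x m)⁻¹ ∈ U)
    (h2 : ∀ U ∈ 𝓝 (1 : H), ∃ N, ∀ n ≥ N, ∀ m ≥ N, (x n)⁻¹ * x m ∈ U) :
    ∃ y, Tendsto x atTop (𝓝 y) := by
  let _ := TopologicalSpace.upgradeIsCompletelyMetrizable H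
  set D : ℕ → Set H := fun k => {h | ∃ O : Set H, IsOpen O ∧ h ∈ O ∧ ∃ N, ∀ h' ∈ O,
    ∀ n ≥ N, ∀ m ≥ N, dist (x n * h') (x m * h') < 1 / ((k : ℝ) + 1)} with hD
  have hopen : ∀ k, IsOpen (D k) := by
    intro k
    rw [isOpen_iff_mem_nhds]
    rintro h ⟨O, hO, hhO, N, hN⟩
    exact mem_of_superset (hO.mem_nhds hhO) fun h' hh' => ⟨O, hO, hh', N, hN⟩
  have hdense : ∀ k, Dense (D k) := by
    intro k h₀
    rw [mem_closure_iff]
    intro O hO hh₀
    have hO' : {a : H | a * h₀ ∈ O} ∈ 𝓝 (1 : H) := by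
      have hc : Continuous fun a : H => a * h₀ := by fun_prop
      exact hc.continuousAt.preimage_mem_nhds (hO.mem_nhds (by simpa using hh₀))
    obtain ⟨m₀, hm₀⟩ := h2 _ hO'
    set q := x m₀ * h₀
    have hk : (0 : ℝ) < 1 / ((k : ℝ) + 1) / 2 := by positivity
    have hc : Tendsto (fun p : H × H => p.1 * q * p.2) (𝓝 (1 : H) ×ˢ 𝓝 (1 : H)) (𝓝 q) := by
      have hcc : Continuous fun p : H × H => p.1 * q * p.2 := by fun_prop
      have := hcc.tendsto ((1 : H), (1 : H))
      simpa [nhds_prod_eq] using this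
    obtain ⟨A, hA, B, hB, hAB⟩ := mem_prod_iff.1 (hc (Metric.ball_mem_nhds q hk))
    obtain ⟨N, hN⟩ := h1 A hA
    set m := max m₀ N
    set h := (x m)⁻¹ * x m₀ * h₀ with hh
    have hOh : {h' : H | h⁻¹ * h' ∈ interior B} ∈ 𝓝 h := by
      have hcc : Continuous fun h' : H => h⁻¹ * h' := by fun_prop
      apply hcc.continuousAt
      simpa using hB
    refine ⟨h, ?_, ?_⟩
    · exact hm₀ m (le_max_left _ _) m₀ le_rfl
    · refine ⟨{h' : H | h⁻¹ * h' ∈ interior B}, ?_, mem_of_mem_nhds hOh, m, ?_⟩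
      · exact isOpen_interior.preimage (by fun_prop)
      · intro h' hh' n hn n' hn'
        have key : ∀ i ≥ m, dist (x i * h') q < 1 / ((k : ℝ) + 1) / 2 := by
          intro i hi
          have e1 : x i * h' = x i * (x m)⁻¹ * q * (h⁻¹ * h') := by
            simp only [hh, q]; group
          have e2 : (x i * (x m)⁻¹, h⁻¹ * h') ∈ A ×ˢ B :=
            ⟨hN i ((le_max_right _ _).trans hi) m (le_max_right _ _), interior_subset hh'⟩
          have e3 := hAB e2
          rw [mem_preimage, Metric.mem_ball] at e3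
          rw [e1]
          exact e3
        have h1 := dist_triangle_right (x n * h') (x n' * h') q
        linarith [key n hn, key n' hn']
  obtain ⟨h, hh⟩ : ∃ h, h ∈ ⋂ k, D k :=
    (dense_iInter_of_isOpen_nat hopen hdense).nonempty
  have hcau : CauchySeq fun n => x n * h := by
    rw [Metric.cauchySeq_iff]
    intro ε hε
    obtain ⟨k, hk⟩ := exists_nat_one_div_lt hε
    obtain ⟨O, -, hhO, N, hN⟩ := mem_iInter.1 hh k
    exact ⟨N, fun m hm n hn => (hN h hhO m hm n hn).trans hk⟩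
  obtain ⟨y, hy⟩ := cauchySeq_tendsto_of_complete hcau
  refine ⟨y * h⁻¹, ?_⟩
  have h1 : Tendsto (fun n => x n * h * h⁻¹) atTop (𝓝 (y * h⁻¹)) :=
    hy.mul tendsto_const_nhds
  simpa using h1

theorem exists_nhds_mul_inv {V : Set H} (hV : V ∈ 𝓝 (1 : H)) :
    ∃ V' ∈ 𝓝 (1 : H), ∀ a ∈ V', ∀ b ∈ V', a * b⁻¹ ∈ V := by
  have hc : Tendsto (fun p : H × H => p.1 * p.2⁻¹) (𝓝 ((1 : H), (1 : H))) (𝓝 1) := by
    have hcc : Continuous fun p : H × H => p.1 * p.2⁻¹ := by fun_prop
    simpa using hcc.tendsto ((1 : H), (1 : H))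
  have h := hc hV
  rw [mem_map, nhds_prod_eq, mem_prod_iff] at h
  obtain ⟨A, hA, B, hB, hAB⟩ := h
  exact ⟨A ∩ B, inter_mem hA hB, fun a ha b hb => hAB (a := (a, b)) ⟨ha.1, hb.2⟩⟩

/-- A right totally bounded neighbourhood of `1` gives local compactness. -/
theorem exists_compact_of_tb {U : Set H} (hU : U ∈ 𝓝 (1 : H))
    (h : ∀ V ∈ 𝓝 (1 : H), ∃ S : Set H, S.Finite ∧ ∀ v ∈ U, ∃ s ∈ S, v * s⁻¹ ∈ V) :
    ∃ K ∈ 𝓝 (1 : H), IsCompact K := by
  have hU0 : U ∩ U⁻¹ ∈ 𝓝 (1 : H) := inter_mem hU (by simpa using inv_mem_nhds_one H hU)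
  obtain ⟨W, hW, hWc, hWU⟩ := exists_mem_nhds_isClosed_subset hU0
  refine ⟨W, hW, ?_⟩
  rw [isCompact_iff_ultrafilter_le_nhds]
  intro f hf
  have hWf : W ∈ f := le_principal_iff.1 hf
  have hsmall : ∀ V ∈ 𝓝 (1 : H), ∃ F ∈ f, ∀ x ∈ F, ∀ y ∈ F, x * y⁻¹ ∈ V ∧ x⁻¹ * y ∈ V := by
    intro V hV
    obtain ⟨V', hV', hVV⟩ := exists_nhds_mul_inv hV
    obtain ⟨S, hS, hSU⟩ := h V' hV'
    have h1 : (⋃ s ∈ S, {v : H | v * s⁻¹ ∈ V'}) ∈ f := by
      refine mem_of_superset hWf fun v hv => ?_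
      obtain ⟨s, hs, hvs⟩ := hSU v (hWU hv).1
      exact mem_biUnion hs hvs
    have h2 : (⋃ s ∈ S, {v : H | v⁻¹ * s⁻¹ ∈ V'}) ∈ f := by
      refine mem_of_superset hWf fun v hv => ?_
      obtain ⟨s, hs, hvs⟩ := hSU v⁻¹ (by simpa using (hWU hv).2)
      exact mem_biUnion hs hvs
    obtain ⟨s, -, hs⟩ := (Ultrafilter.finite_biUnion_mem_iff hS).1 h1
    obtain ⟨t, -, ht⟩ := (Ultrafilter.finite_biUnion_mem_iff hS).1 h2
    refine ⟨_, inter_mem hs ht, ?_⟩
    rintro x ⟨hx1, hx2⟩ y ⟨hy1, hy2⟩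
    constructor
    · have := hVV _ hx1 _ hy1
      convert this using 1
      group
    · have := hVV _ hx2 _ hy2
      convert this using 1
      group
  obtain ⟨b, hb⟩ := (𝓝 (1 : H)).exists_antitone_basis
  choose F hF hFV using fun k => hsmall (b k) (hb.1.mem_of_mem trivial)
  have hG : ∀ k, (⋂ i ∈ Finset.range (k + 1), F i) ∈ f := fun k =>
    (biInter_finset_mem _).2 fun i _ => hF i
  choose x hx using fun k => Ultrafilter.nonempty_of_mem (hG k)
  have hxF : ∀ k n, k ≤ n → x n ∈ F k := by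
    intro k n hkn
    exact mem_iInter₂.1 (hx n) k (Finset.mem_range.2 (by omega))
  obtain ⟨y, hy⟩ := raikov x
    (by
      intro V hV
      obtain ⟨k, -, hk⟩ := hb.1.mem_iff.1 hV
      exact ⟨k, fun n hn m hm => hk (hFV k _ (hxF k n hn) _ (hxF k m hm)).1⟩)
    (by
      intro V hV
      obtain ⟨k, -, hk⟩ := hb.1.mem_iff.1 hV
      exact ⟨k, fun n hn m hm => hk (hFV k _ (hxF k n hn) _ (hxF k m hm)).2⟩)
  have hfy : (f : Filter H) ≤ 𝓝 y := by
    intro O hO
    have hc : Tendsto (fun p : H × H => p.1 * p.2) (𝓝 ((1 : H), y)) (𝓝 y) := by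
      have hcc : Continuous fun p : H × H => p.1 * p.2 := by fun_prop
      simpa using hcc.tendsto ((1 : H), y)
    have h1 := hc hO
    rw [mem_map, nhds_prod_eq, mem_prod_iff] at h1
    obtain ⟨A, hA, B, hB, hAB⟩ := h1
    obtain ⟨k, -, hk⟩ := hb.1.mem_iff.1 hA
    obtain ⟨N, hN⟩ := (hy.eventually hB).exists_forall_of_atTop
    refine mem_of_superset (hF k) fun z hz => ?_
    have h2 := (hFV k z hz _ (hxF k (max k N) (le_max_left _ _))).1
    have h3 := hAB (a := (z * (x (max k N))⁻¹, x (max k N))) ⟨hk h2, hN _ (le_max_right _ _)⟩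
    simpa using h3
  refine ⟨y, ?_, hfy⟩
  exact hWc.mem_of_tendsto (f := id) (b := (f : Filter H)) hfy (by simpa using hWf)

/-- In a group which is not locally compact no neighbourhood of `1` is right totally bounded. -/
theorem not_tb_right (hlc : ¬ LocallyCompactSpace H) {U : Set H} (hU : U ∈ 𝓝 (1 : H)) :
    ∃ V ∈ 𝓝 (1 : H), ∀ S : Set H, S.Finite → ∃ v ∈ U, ∀ s ∈ S, v * s⁻¹ ∉ V := by
  by_contra hcon
  push Not at hcon
  apply hlc
  obtain ⟨K, hK, hKc⟩ := exists_compact_of_tb hU hcon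
  exact hKc.locallyCompactSpace_of_mem_nhds_of_group hK

/-- In a group which is not locally compact no neighbourhood of `1` is left totally bounded. -/
theorem not_tb_left (hlc : ¬ LocallyCompactSpace H) {U : Set H} (hU : U ∈ 𝓝 (1 : H)) :
    ∃ V ∈ 𝓝 (1 : H), ∀ S : Set H, S.Finite → ∃ v ∈ U, ∀ s ∈ S, s⁻¹ * v ∉ V := by
  obtain ⟨V, hV, h⟩ := not_tb_right hlc (U := U⁻¹) (by simpa using inv_mem_nhds_one H hU)
  refine ⟨V⁻¹, by simpa using inv_mem_nhds_one H hV, fun S hS => ?_⟩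
  obtain ⟨v, hv, hvS⟩ := h S⁻¹ hS.inv
  refine ⟨v⁻¹, by simpa using hv, fun s hs hmem => hvS s⁻¹ (by simpa using hs) ?_⟩
  have : (s⁻¹ * v⁻¹)⁻¹ ∈ V := hmem
  simpa using this

end Raikov

/-- a sequence in `U` whose members are right separated -/
theorem exists_seq_right {H : Type*} [Group H] [TopologicalSpace H] [IsTopologicalGroup H]
    [TopologicalSpace.IsCompletelyMetrizableSpace H] (hlc : ¬ LocallyCompactSpace H) {U : Set H}
    (hU : U ∈ 𝓝 (1 : H)) :
    ∃ V ∈ 𝓝 (1 : H), ∃ v : ℕ → H, (∀ l, v l ∈ U) ∧ ∀ l l', l ≠ l' → v l * (v l')⁻¹ ∉ V := by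
  obtain ⟨V, hV, h⟩ := not_tb_right hlc hU
  have hV' : V ∩ V⁻¹ ∈ 𝓝 (1 : H) := inter_mem hV (by simpa using inv_mem_nhds_one H hV)
  refine ⟨V ∩ V⁻¹, hV', ?_⟩
  obtain ⟨f, hf, hff⟩ := exists_seq_of_forall_finset_exists (fun v => v ∈ U)
    (fun x y => y * x⁻¹ ∉ V) (by
      intro S _
      obtain ⟨v, hv, hvS⟩ := h S S.finite_toSet
      exact ⟨v, hv, hvS⟩)
  refine ⟨f, hf, fun l l' hne hmem => ?_⟩
  rcases Nat.lt_or_gt_of_ne hne with hlt | hlt
  · apply hff l l' hlt
    have h1 : (f l * (f l')⁻¹)⁻¹ ∈ V := hmem.2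
    simpa using h1
  · exact hff l' l hlt hmem.1

end Pool.Agent.HN
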