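import Mathlib

/-!
# Polish groups with small invariant neighbourhoods
-/

set_option autoImplicit false
set_option linter.unusedSectionVars false

namespace Pool.Agent.HN

open Set Filter Topology

/-- a compatible two-sided invariant metric, as a function -/
structure BiInv {H : Type*} [Group H] [TopologicalSpace H] (d : H → H → ℝ) : Prop where
  self : ∀ x, d x x = 0
  comm : ∀ x y, d x y = d y x
  tri : ∀ x y z, d x z ≤ d x y + d y z
  inv : ∀ a x y b, d (a * x * b) (a * y * b) = d x y
  eq : ∀ x y, d x y = 0 → x = y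
  op : ∀ s : Set H, IsOpen s ↔ ∀ x ∈ s, ∃ ε > 0, ∀ y, d x y < ε → y ∈ s

section Exists

variable {H : Type*} [Group H] [TopologicalSpace H] [IsTopologicalGroup H] [T2Space H]
  [FirstCountableTopology H]

/-- A group with small invariant neighbourhoods has a two-sided invariant compatible metric. -/
theorem exists_biInv (hSIN : ∀ U ∈ 𝓝 (1 : H), ∃ V ∈ 𝓝 (1 : H), V ⊆ U ∧
    ∀ h : H, ∀ v ∈ V, h * v * h⁻¹ ∈ V) : ∃ d : H → H → ℝ, BiInv d := by
  let _ : UniformSpace H := IsTopologicalGroup.rightUniformSpace H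
  have hcg : (uniformity H).IsCountablyGenerated := by
    rw [uniformity_eq_comap_nhds_one' H]
    infer_instance
  let _ : PseudoMetricSpace H := UniformSpace.pseudoMetricSpace H
  set r : H → H → H × H → ℝ := fun x y p => min 1 (dist (p.1 * x * p.2) (p.1 * y * p.2)) with hr
  have hb : ∀ x y, BddAbove (range (r x y)) := fun x y => ⟨1, by
    rintro _ ⟨p, rfl⟩
    exact min_le_left _ _⟩
  have hle : ∀ x y p, r x y p ≤ ⨆ q, r x y q := fun x y p => le_ciSup (hb x y) p
  have h0 : ∀ x y p, 0 ≤ r x y p := fun x y p => le_min zero_le_one dist_nonneg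
  refine ⟨fun x y => ⨆ p, r x y p, ?_, ?_, ?_, ?_, ?_, ?_⟩
  · intro x
    have : ∀ p, r x x p = 0 := fun p => by simp [hr]
    simp [this]
  · intro x y
    simp only [hr, dist_comm]
  · intro x y z
    apply ciSup_le
    intro p
    refine le_trans ?_ (add_le_add (hle x y p) (hle y z p))
    simp only [hr]
    have h1 := dist_triangle (p.1 * x * p.2) (p.1 * y * p.2) (p.1 * z * p.2)
    have h2 : (0 : ℝ) ≤ dist (p.1 * x * p.2) (p.1 * y * p.2) := dist_nonneg
    have h3 : (0 : ℝ) ≤ dist (p.1 * y * p.2) (p.1 * z * p.2) := dist_nonneg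
    rcases le_total 1 (dist (p.1 * x * p.2) (p.1 * y * p.2)) with h4 | h4
    · rw [min_eq_left h4]
      exact (min_le_left _ _).trans (by linarith [le_min zero_le_one h3])
    rcases le_total 1 (dist (p.1 * y * p.2) (p.1 * z * p.2)) with h5 | h5
    · rw [min_eq_left h5]
      exact (min_le_left _ _).trans (by linarith [le_min zero_le_one h2])
    rw [min_eq_right h4, min_eq_right h5]
    exact (min_le_right _ _).trans h1
  · intro a x y b
    apply le_antisymm
    · apply ciSup_le
      intro p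
      refine le_trans (le_of_eq ?_) (hle x y (p.1 * a, b * p.2))
      simp only [hr, mul_assoc]
    · apply ciSup_le
      intro p
      refine le_trans (le_of_eq ?_) (hle (a * x * b) (a * y * b) (p.1 * a⁻¹, b⁻¹ * p.2))
      simp only [hr]
      congr 2 <;> group
  · intro x y hxy
    have h1 : r x y (1, 1) ≤ 0 := (hle x y (1, 1)).trans hxy.le
    simp only [hr, one_mul, mul_one] at h1
    have h2 : dist x y ≤ 0 := by
      rcases min_le_iff.1 h1 with h | h
      · linarith
      · exact h
    have h3 : Inseparable x y := Metric.inseparable_iff.2 (le_antisymm h2 dist_nonneg)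
    exact h3.eq
  · intro s
    constructor
    · intro hs x hx
      obtain ⟨ε, hε, hsub⟩ := Metric.isOpen_iff.1 hs x hx
      refine ⟨min ε 1, lt_min hε one_pos, fun y hy => hsub ?_⟩
      have h1 := (hle x y (1, 1)).trans_lt hy
      simp only [hr, one_mul, mul_one] at h1
      rw [Metric.mem_ball, dist_comm]
      rcases min_lt_iff.1 h1 with h | h
      · exact absurd (h.trans_le (min_le_right _ _)) (lt_irrefl _)
      · exact h.trans_le (min_le_left _ _)
    · intro h
      rw [isOpen_iff_mem_nhds]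
      intro x hx
      obtain ⟨ε, hε, hsub⟩ := h x hx
      have hU : {p : H × H | dist p.1 p.2 < ε / 2} ∈ uniformity H :=
        Metric.dist_mem_uniformity (half_pos hε)
      rw [uniformity_eq_comap_nhds_one' H] at hU
      obtain ⟨U, hU1, hU2⟩ := hU
      obtain ⟨V, hV1, hVU, hVinv⟩ := hSIN U hU1
      have hVx : {y | y * x⁻¹ ∈ V} ∈ 𝓝 x := by
        have hc : Continuous fun y : H => y * x⁻¹ := by fun_prop
        apply hc.continuousAt
        simpa using hV1
      refine mem_of_superset hVx fun y hy => hsub y ?_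
      refine lt_of_le_of_lt ?_ (half_lt_self hε)
      apply ciSup_le
      intro p
      refine (min_le_right _ _).trans (le_of_lt ?_)
      have h2 := hVinv p.1 _ hy
      have h3 : (p.1 * x * p.2, p.1 * y * p.2) ∈ {p : H × H | dist p.1 p.2 < ε / 2} := by
        apply hU2
        apply hVU
        have : (p.1 * y * p.2) * (p.1 * x * p.2)⁻¹ = p.1 * (y * x⁻¹) * p.1⁻¹ := by group
        simp only
        rw [this]
        exact h2
      exact h3

end Exists

variable {H : Type*} [Group H] [TopologicalSpace H] {d : H → H → ℝ}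

theorem BiInv.left (hd : BiInv d) (a x y : H) : d (a * x) (a * y) = d x y := by
  have := hd.inv a x y 1
  simpa using this

theorem BiInv.right (hd : BiInv d) (x y b : H) : d (x * b) (y * b) = d x y := by
  have := hd.inv 1 x y b
  simpa using this

theorem BiInv.nonneg (hd : BiInv d) (x y : H) : 0 ≤ d x y := by
  have h1 := hd.tri x y x
  rw [hd.self, hd.comm y x] at h1
  linarith

theorem BiInv.inv_inv (hd : BiInv d) (x y : H) : d x⁻¹ y⁻¹ = d x y := by
  have := hd.inv x⁻¹ x y y⁻¹
  simp only [inv_mul_cancel, one_mul, mul_assoc, mul_inv_cancel, mul_one] at this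
  rw [hd.comm, this]

theorem BiInv.mul_mul (hd : BiInv d) (x y a b : H) : d (x * a) (y * b) ≤ d x y + d a b := by
  have h1 := hd.tri (x * a) (y * a) (y * b)
  rw [hd.right, hd.left] at h1
  exact h1

/-- the metric space structure -/
@[reducible] noncomputable def BiInv.metric (hd : BiInv d) : MetricSpace H :=
  MetricSpace.ofDistTopology d hd.self hd.comm hd.tri hd.op hd.eq

theorem BiInv.isOpen_ball (hd : BiInv d) (x : H) (ε : ℝ) : IsOpen {y | d x y < ε} := by
  rw [hd.op]
  intro y hy
  refine ⟨ε - d x y, sub_pos.2 hy, fun z hz => ?_⟩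
  have := hd.tri x y z
  simp only [mem_ofPred_eq] at hy ⊢
  linarith

theorem BiInv.ball_mem (hd : BiInv d) (x : H) {ε : ℝ} (hε : 0 < ε) : {y | d x y < ε} ∈ 𝓝 x :=
  (hd.isOpen_ball x ε).mem_nhds (by simpa [hd.self] using hε)

theorem BiInv.mem_nhds (hd : BiInv d) {x : H} {U : Set H} (hU : U ∈ 𝓝 x) :
    ∃ ε > 0, ∀ y, d x y < ε → y ∈ U := by
  obtain ⟨V, hVU, hV, hx⟩ := mem_nhds_iff.1 hU
  obtain ⟨ε, hε, h⟩ := (hd.op V).1 hV x hx
  exact ⟨ε, hε, fun y hy => hVU (h y hy)⟩

/-- **Completeness** of two-sided invariant metrics on completely metrizable groups. -/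
theorem BiInv.complete [IsTopologicalGroup H] [TopologicalSpace.IsCompletelyMetrizableSpace H] (hd : BiInv d)
    (x : ℕ → H) (hx : ∀ ε > 0, ∃ N, ∀ n ≥ N, ∀ m ≥ N, d (x n) (x m) < ε) :
    ∃ y, Tendsto x atTop (𝓝 y) := by
  let _ := TopologicalSpace.upgradeIsCompletelyMetrizable H
  set D : ℕ → Set H := fun k => {h | ∃ O : Set H, IsOpen O ∧ h ∈ O ∧ ∃ N, ∀ h' ∈ O,
    ∀ n ≥ N, ∀ m ≥ N, dist (x n * h') (x m * h') < 1 / ((k : ℝ) + 1)} with hD
  have hopen : ∀ k, IsOpen (D k) := by
    intro k
    rw [isOpen_iff_mem_nhds]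
    rintro h ⟨O, hO, hhO, N, hN⟩
    exact mem_of_superset (hO.mem_nhds hhO) fun h' hh' => ⟨O, hO, hh', N, hN⟩
  have hdense : ∀ k, Dense (D k) := by
    intro k h₀
    rw [mem_closure_iff]
    intro O hO hh₀
    obtain ⟨δ, hδ, hδO⟩ := (hd.op O).1 hO h₀ hh₀
    obtain ⟨m₀, hm₀⟩ := hx δ hδ
    set q := x m₀ * h₀
    have hk : (0 : ℝ) < 1 / ((k : ℝ) + 1) := by positivity
    obtain ⟨η, hη, hηq⟩ := hd.mem_nhds (Metric.ball_mem_nhds q (half_pos hk))
    obtain ⟨N, hN⟩ := hx (η / 2) (half_pos hη)
    set m := max m₀ N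
    refine ⟨(x m)⁻¹ * x m₀ * h₀, hδO _ ?_, ?_⟩
    · have h1 : d h₀ ((x m)⁻¹ * x m₀ * h₀) = d (x m) (x m₀) := by
        have h2 := hd.inv (x m)⁻¹ (x m) (x m₀) h₀
        simpa using h2
      rw [h1]
      exact hm₀ m (le_max_left _ _) m₀ le_rfl
    · refine ⟨{y | d ((x m)⁻¹ * x m₀ * h₀) y < η / 2}, hd.isOpen_ball _ _, ?_, m, ?_⟩
      · simp only [mem_ofPred_eq, hd.self]
        exact half_pos hη
      · intro h' hh' n hn n' hn'
        have key : ∀ i ≥ m, dist (x i * h') q < 1 / ((k : ℝ) + 1) / 2 := by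
          intro i hi
          apply hηq
          have e1 : d q (x i * ((x m)⁻¹ * x m₀ * h₀)) = d (x m) (x i) := by
            have h2 := hd.inv 1 (x m) (x i) ((x m)⁻¹ * x m₀ * h₀)
            rw [← h2]
            congr 1
            · simp only [q]; group
            · group
          have e2 := hd.tri q (x i * ((x m)⁻¹ * x m₀ * h₀)) (x i * h')
          rw [e1, hd.left] at e2
          have e3 := hN m (le_max_right _ _) i ((le_max_right _ _).trans hi)
          simp only [mem_ofPred_eq] at hh'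
          linarith
        have h1 := dist_triangle_right (x n * h') (x n' * h') q
        linarith [key n hn, key n' hn']
  obtain ⟨h, hh⟩ : ∃ h, h ∈ ⋂ k, D k :=
    (dense_iInter_of_isOpen_nat hopen hdense).nonempty
  have hcau : CauchySeq fun n => x n * h := by
    rw [Metric.cauchySeq_iff]
    intro ε hε
    obtain ⟨k, hk⟩ := exists_nat_one_div_lt hε
    obtain ⟨O, -, hhO, N, hN⟩ := mem_iInter.1 hh k
    exact ⟨N, fun m hm n hn => (hN h hhO m hm n hn).trans hk⟩
  obtain ⟨y, hy⟩ := cauchySeq_tendsto_of_complete hcau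
  refine ⟨y * h⁻¹, ?_⟩
  have h1 : Tendsto (fun n => x n * h * h⁻¹) atTop (𝓝 (y * h⁻¹)) :=
    hy.mul tendsto_const_nhds
  simpa using h1

/-- Balls in a group which is not locally compact are not totally bounded. -/
theorem BiInv.not_tb [IsTopologicalGroup H] [TopologicalSpace.IsCompletelyMetrizableSpace H] (hd : BiInv d)
    (hlc : ¬ LocallyCompactSpace H) {δ : ℝ} (hδ : 0 < δ) :
    ∃ ε > 0, ∀ S : Set H, S.Finite → ∃ v, d 1 v < δ ∧ ∀ s ∈ S, ε ≤ d s v := by
  by_contra hcon
  push Not at hcon
  apply hlc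
  let _ := hd.metric
  have hdist : ∀ x y : H, dist x y = d x y := fun x y => rfl
  have : CompleteSpace H := by
    apply UniformSpace.complete_of_cauchySeq_tendsto
    intro u hu
    apply hd.complete u
    intro ε hε
    obtain ⟨N, hN⟩ := Metric.cauchySeq_iff.1 hu ε hε
    exact ⟨N, fun n hn m hm => hN n hn m hm⟩
  have htb : TotallyBounded (Metric.ball (1 : H) δ) := by
    rw [Metric.totallyBounded_iff]
    intro ε hε
    obtain ⟨S, hS, h⟩ := hcon ε hε
    refine ⟨S, hS, fun v hv => ?_⟩
    rw [Metric.mem_ball, dist_comm, hdist] at hv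
    obtain ⟨s, hs, hsv⟩ := h v hv
    rw [mem_iUnion₂]
    exact ⟨s, hs, by rw [Metric.mem_ball, dist_comm]; exact hsv⟩
  have hcomp : IsCompact (closure (Metric.ball (1 : H) δ)) :=
    isCompact_iff_totallyBounded_isComplete.2 ⟨htb.closure, isClosed_closure.isComplete⟩
  exact hcomp.locallyCompactSpace_of_mem_nhds_of_group
    (mem_of_superset (Metric.ball_mem_nhds (1 : H) hδ) subset_closure)

end Pool.Agent.HN
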