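import Pool.Agent.Helper61_HN.NATree

/-!
# Branches of the two-sided tree, and the last determined edge
-/

set_option autoImplicit false
set_option linter.unusedSectionVars false

namespace Pool.Agent.HN

open Set Filter Topology MeasureTheory
open scoped ENNReal Pointwise

namespace NT

variable {G M : Type*} [Group G] [TopologicalSpace G] [MulAction G M] {D : ℕ → G}
  {en : ℕ → M} {P : OpenSubgroup G → M} {δ : G → G → ℝ} (T : NT D en P δ)

/-- the data of a node -/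
def X (σ : Node) : Dat G := T.c (Encodable.encode σ)

theorem X_nil : T.X [] = default := by
  rw [X, Encodable.encode_list_nil]
  exact T.root

/-- the label of a node -/
def lab : Node → ℕ
  | [] => 0
  | a :: _ => a.1

theorem lab_le_encode (σ : Node) : lab σ ≤ Encodable.encode σ := by
  match σ with
  | [] => exact Nat.zero_le _
  | (N, b) :: τ => exact label_le N b τ

/-- the information on the middle factor -/
def KI : Node → Set G
  | [] => univ
  | a :: τ => {k | (Even τ.length ∧ ∃ l ≤ a.1, (D l)⁻¹ * k ∈ (T.X τ).B) ∨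
      (¬ Even τ.length ∧ ∃ l ≤ a.1, k * (D l)⁻¹ ∈ (T.X τ).A)}

/-- the region of a node -/
structure InRg (σ : Node) (g k h : G) : Prop where
  g : (T.X σ).U⁻¹ * g ∈ (T.X σ).A
  k : k ∈ T.KI σ
  h : h * (T.X σ).V⁻¹ ∈ (T.X σ).B

/-- the image of `c` is known at the node -/
def Kn (σ : Node) (k h : G) (c : M) : Prop :=
  (orb (T.X σ).B (h • c)).Finite ∧ (orb (T.X σ).A ((k * h) • c)).Finite

variable {T}

theorem sG (a : ℕ × Bool) (τ : Node) (h : Even τ.length) :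
    StepG D en δ τ.length a.1 (T.X τ) (Forb D P T.c (Encodable.encode (a :: τ)))
      (T.X (a :: τ)) := T.stepG a.1 a.2 τ h

theorem sH (a : ℕ × Bool) (τ : Node) (h : ¬ Even τ.length) :
    StepH D en δ τ.length a.1 (T.X τ) (Forb D P T.c (Encodable.encode (a :: τ)))
      (T.X (a :: τ)) := T.stepH a.1 a.2 τ h

theorem A_le (a : ℕ × Bool) (τ : Node) : (T.X (a :: τ)).A ≤ (T.X τ).A := by
  by_cases h : Even τ.length
  · exact (sG a τ h).A
  · exact (sH a τ h).A.le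

theorem B_le (a : ℕ × Bool) (τ : Node) : (T.X (a :: τ)).B ≤ (T.X τ).B := by
  by_cases h : Even τ.length
  · exact (sG a τ h).B.le
  · exact (sH a τ h).B

theorem U_mem (a : ℕ × Bool) (τ : Node) : (T.X τ).U⁻¹ * (T.X (a :: τ)).U ∈ (T.X τ).A := by
  by_cases h : Even τ.length
  · exact (sG a τ h).U
  · rw [(sH a τ h).U, inv_mul_cancel]
    exact one_mem _

theorem V_mem (a : ℕ × Bool) (τ : Node) : (T.X (a :: τ)).V * (T.X τ).V⁻¹ ∈ (T.X τ).B := by
  by_cases h : Even τ.length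
  · rw [(sG a τ h).V, mul_inv_cancel]
    exact one_mem _
  · exact (sH a τ h).V

theorem Kn.mono {a : ℕ × Bool} {τ : Node} {k h : G} {c : M} (hk : T.Kn τ k h c) :
    T.Kn (a :: τ) k h c :=
  ⟨hk.1.subset (orb_mono (B_le a τ) _), hk.2.subset (orb_mono (A_le a τ) _)⟩

theorem orb_B_eq {σ : Node} {g k h : G} (hr : T.InRg σ g k h) (c : M) :
    orb (T.X σ).B (h • c) = orb (T.X σ).B ((T.X σ).V • c) := by
  have h1 : h • c = (h * (T.X σ).V⁻¹) • (T.X σ).V • c := by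
    rw [smul_smul]
    congr 1
    group
  rw [h1]
  exact orb_smul hr.h _

theorem inv_smul_mem {σ : Node} {g k h : G} (hr : T.InRg σ g k h) (c : M) :
    (T.X σ).U⁻¹ • (g * k * h) • c ∈ orb (T.X σ).A ((k * h) • c) := by
  refine ⟨_, hr.g, ?_⟩
  simp only [smul_smul]
  congr 1
  group

theorem InRg.KR {σ : Node} {g k h : G} (hr : T.InRg σ g k h) {c : M} (hk : T.Kn σ k h c) {n : ℕ}
    (hn : lab σ ≤ n) : Pool.Agent.HN.KR D (T.X σ) n c ((g * k * h) • c) := by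
  have hB := orb_B_eq hr c
  have hV : h • c ∈ orb (T.X σ).B ((T.X σ).V • c) := by
    rw [← hB]
    exact self_mem_orb _ _
  have hfin : (orb (T.X σ).B ((T.X σ).V • c)).Finite := by
    rw [← hB]
    exact hk.1
  have hU := inv_smul_mem hr c
  have key : ∃ l ≤ lab σ, ∃ b ∈ orb (T.X σ).B ((T.X σ).V • c),
      orb (T.X σ).A (D l • b) = orb (T.X σ).A ((k * h) • c) := by
    match σ, hr, hk, hV with
    | [], hr, hk, hV =>
      refine ⟨0, le_rfl, h • c, hV, ?_⟩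
      have h2 : (k * h) • c = (k * (D 0)⁻¹) • D 0 • h • c := by
        simp only [smul_smul]
        congr 1
        group
      rw [h2]
      refine (orb_smul ?_ _).symm
      rw [X_nil]
      exact OpenSubgroup.mem_top _
    | a :: τ, hr, hk, hV =>
      rcases hr.k with ⟨hev, l, hl, hk'⟩ | ⟨hev, l, hl, hk'⟩
      · have h1 : (D l)⁻¹ * k ∈ (T.X (a :: τ)).B := by
          rw [(sG a τ hev).B]
          exact hk'
        refine ⟨l, hl, ((D l)⁻¹ * k) • h • c, ?_, ?_⟩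
        · rw [← orb_smul h1, ] at hB
          rw [← orb_B_eq hr, ← orb_smul h1]
          exact self_mem_orb _ _
        · congr 1
          simp only [smul_smul]
          congr 1
          group
      · have h1 : k * (D l)⁻¹ ∈ (T.X (a :: τ)).A := by
          rw [(sH a τ hev).A]
          exact hk'
        refine ⟨l, hl, h • c, hV, ?_⟩
        have h2 : (k * h) • c = (k * (D l)⁻¹) • D l • h • c := by
          simp only [smul_smul]
          congr 1
          group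
        rw [h2]
        exact (orb_smul h1 _).symm
  obtain ⟨l, hl, b, hb, heq⟩ := key
  refine ⟨l, hl.trans hn, b, hb, hfin, ?_, ?_⟩
  · rw [heq]
    exact hk.2
  · rw [heq]
    exact hU

/-- A newly known edge is not forbidden. -/
theorem InRg.new {a : ℕ × Bool} {τ : Node} {g k h : G} (hr : T.InRg (a :: τ) g k h)
    (hr' : T.InRg τ g k h) {c : M} (hk : T.Kn (a :: τ) k h c) (hk' : ¬ T.Kn τ k h c) :
    ¬ Forb D P T.c (Encodable.encode (a :: τ)) c ((g * k * h) • c) := by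
  intro hF
  have hU := inv_smul_mem hr' c
  rcases hr.k with ⟨hev, l, hl, hl'⟩ | ⟨hev, l, hl, hl'⟩
  · have hs := sG (T := T) a τ hev
    have hk1 : (orb (T.X τ).B (h • c)).Finite := by
      have := hk.1
      rwa [hs.B] at this
    have hk2 : ¬ (orb (T.X τ).A ((k * h) • c)).Finite := fun h2 => hk' ⟨hk1, h2⟩
    have hb : ((D l)⁻¹ * k) • h • c ∈ orb (T.X τ).B ((T.X τ).V • c) := by
      rw [← orb_B_eq hr', ← orb_smul hl']
      exact self_mem_orb _ _
    have he : D l • ((D l)⁻¹ * k) • h • c = (k * h) • c := by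
      simp only [smul_smul]
      congr 1
      group
    refine hs.fresh c _ hF (by rw [← orb_B_eq hr']; exact hk1) l hl _ hb (by rw [he]; exact hk2)
      _ hr.g ?_
    rw [he]
    simp only [smul_smul]
    congr 1
    group
  · have hs := sH (T := T) a τ hev
    have hk2 : (orb (T.X τ).A ((k * h) • c)).Finite := by
      have := hk.2
      rwa [hs.A] at this
    have hk1 : ¬ (orb (T.X τ).B (h • c)).Finite := fun h2 => hk' ⟨h2, hk2⟩
    have hA : orb (T.X τ).A ((T.X τ).U⁻¹ • (g * k * h) • c) = orb (T.X τ).A ((k * h) • c) :=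
      orb_eq hU
    refine hs.fresh c _ hF (by rw [hA]; exact hk2) l hl (D l • h • c) ?_
      (by rw [← orb_B_eq hr']; exact hk1) _ hr.h ?_
    · rw [hA]
      have h2 : (k * h) • c = (k * (D l)⁻¹) • D l • h • c := by
        simp only [smul_smul]
        congr 1
        group
      rw [h2, orb_smul hl']
      exact self_mem_orb _ _
    · rw [inv_smul_smul]
      congr 1
      group

theorem le_encode_pre (β : ℕ → ℕ × Bool) (n : ℕ) : n ≤ Encodable.encode (Tree.pre β n) := by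
  induction n with
  | zero => exact Nat.zero_le _
  | succ n ih =>
    have := encode_tail_lt (β n) (Tree.pre β n)
    have h2 : Tree.pre β (n + 1) = β n :: Tree.pre β n := rfl
    rw [h2]
    omega

theorem strictMono_encode_pre (β : ℕ → ℕ × Bool) :
    StrictMono fun n => Encodable.encode (Tree.pre β n) :=
  strictMono_nat_of_lt_succ fun n => encode_tail_lt (β n) (Tree.pre β n)

/-- a point on a branch -/
def Br (T : NT D en P δ) (β : ℕ → ℕ × Bool) (g k h : G) : Prop := ∀ n, T.InRg (Tree.pre β n) g k h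

/-- finite orbits for late nodes -/
def Fine (T : NT D en P δ) : Prop := ∀ (β : ℕ → ℕ × Bool) (s : M), ∃ n,
  (orb (T.X (Tree.pre β n)).A s).Finite ∧ (orb (T.X (Tree.pre β n)).B s).Finite

theorem A_anti (β : ℕ → ℕ × Bool) {m n : ℕ} (h : m ≤ n) :
    (T.X (Tree.pre β n)).A ≤ (T.X (Tree.pre β m)).A := by
  induction n, h using Nat.le_induction with
  | base => exact le_rfl
  | succ n _ ih => exact (A_le _ _).trans ih

theorem B_anti (β : ℕ → ℕ × Bool) {m n : ℕ} (h : m ≤ n) :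
    (T.X (Tree.pre β n)).B ≤ (T.X (Tree.pre β m)).B := by
  induction n, h using Nat.le_induction with
  | base => exact le_rfl
  | succ n _ ih => exact (B_le _ _).trans ih

theorem Kn_mono (β : ℕ → ℕ × Bool) {m n : ℕ} (h : m ≤ n) {k h' : G} {c : M}
    (hk : T.Kn (Tree.pre β m) k h' c) : T.Kn (Tree.pre β n) k h' c :=
  ⟨hk.1.subset (orb_mono (B_anti β h) _), hk.2.subset (orb_mono (A_anti β h) _)⟩

/-- the least level where an edge is known -/
theorem exists_level (hT : T.Fine) {β : ℕ → ℕ × Bool} {g k h : G} (hb : Br T β g k h) (c : M) :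
    ∃ n, (∀ N, Encodable.encode (Tree.pre β n) < N → R D T.c N c ((g * k * h) • c)) ∧
      (n ≠ 0 → ¬ Forb D P T.c (Encodable.encode (Tree.pre β n)) c ((g * k * h) • c)) ∧
      ∀ m, ¬ T.Kn (Tree.pre β m) k h c → m < n := by
  classical
  have hex : ∃ n, T.Kn (Tree.pre β n) k h c := by
    obtain ⟨n1, -, h1⟩ := hT β (h • c)
    obtain ⟨n2, h2, -⟩ := hT β ((k * h) • c)
    exact ⟨max n1 n2, h1.subset (orb_mono (B_anti β (le_max_left _ _)) _),
      h2.subset (orb_mono (A_anti β (le_max_right _ _)) _)⟩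
  have hspec := Nat.find_spec hex
  refine ⟨Nat.find hex, ?_, ?_, ?_⟩
  · intro N hN
    exact ⟨_, hN, (hb _).KR hspec ((lab_le_encode _).trans hN.le)⟩
  · intro h0
    obtain ⟨n, hn⟩ := Nat.exists_eq_succ_of_ne_zero h0
    have h1 : ¬ T.Kn (Tree.pre β n) k h c := Nat.find_min hex (by omega)
    rw [hn] at hspec ⊢
    exact InRg.new (hb (n + 1)) (hb n) hspec h1
  · intro m hm
    by_contra hlt
    exact hm (Kn_mono β (not_lt.1 hlt) hspec)

/-- the point which is still unknown -/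
theorem not_known (hP : ∀ B : OpenSubgroup G, ¬ (orb B (P B)).Finite) {σ : Node} {g k h : G}
    (hr : T.InRg σ g k h) : ¬ T.Kn σ k h ((T.X σ).V⁻¹ • P (T.X σ).B) := by
  intro hk
  have h1 := hk.1
  rw [orb_B_eq hr, smul_inv_smul] at h1
  exact hP _ h1

theorem pre_eq_of_encode {β β' : ℕ → ℕ × Bool} {m n : ℕ}
    (h : Encodable.encode (Tree.pre β m) = Encodable.encode (Tree.pre β' n)) :
    m = n ∧ Tree.pre β m = Tree.pre β' n := by
  have h1 := Encodable.encode_injective h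
  refine ⟨?_, h1⟩
  have := congrArg List.length h1
  simpa using this

/-- **The four-edge lemma.** -/
theorem no_rect (hT : T.Fine) (hP : ∀ B : OpenSubgroup G, ¬ (orb B (P B)).Finite)
    {β₁ β₂ β₃ β₄ : ℕ → ℕ × Bool} {g₁ k₁ h₁ g₂ k₂ h₂ g₃ k₃ h₃ g₄ k₄ h₄ : G}
    (b₁ : Br T β₁ g₁ k₁ h₁) (b₂ : Br T β₂ g₂ k₂ h₂) (b₃ : Br T β₃ g₃ k₃ h₃)
    (b₄ : Br T β₄ g₄ k₄ h₄) {m₀ : ℕ}
    (n12 : ∀ n, m₀ < n → Tree.pre β₁ n ≠ Tree.pre β₂ n)
    (n13 : ∀ n, m₀ < n → Tree.pre β₁ n ≠ Tree.pre β₃ n)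
    (n14 : ∀ n, m₀ < n → Tree.pre β₁ n ≠ Tree.pre β₄ n)
    (n23 : ∀ n, m₀ < n → Tree.pre β₂ n ≠ Tree.pre β₃ n)
    (n24 : ∀ n, m₀ < n → Tree.pre β₂ n ≠ Tree.pre β₄ n)
    (n34 : ∀ n, m₀ < n → Tree.pre β₃ n ≠ Tree.pre β₄ n) :
    g₁ * k₁ * h₁ ≠ (g₂ * k₂ * h₂) * (g₃ * k₃ * h₃)⁻¹ * (g₄ * k₄ * h₄) := by
  intro hrel
  set z₁ := g₁ * k₁ * h₁ with hz₁
  set z₂ := g₂ * k₂ * h₂ with hz₂
  set z₃ := g₃ * k₃ * h₃ with hz₃
  set z₄ := g₄ * k₄ * h₄ with hz₄
  set E := Encodable.encode (Tree.pre β₁ m₀) + Encodable.encode (Tree.pre β₂ m₀) +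
    Encodable.encode (Tree.pre β₃ m₀) + Encodable.encode (Tree.pre β₄ m₀) with hE
  set n₀ := m₀ + E with hn₀
  set ρ := Tree.pre β₁ n₀ with hρ
  set c : M := (T.X ρ).V⁻¹ • P (T.X ρ).B with hc
  set q : M := z₃⁻¹ • z₄ • c with hq
  have e3 : z₃ • q = z₄ • c := by rw [hq, smul_inv_smul]
  have e2 : z₂ • q = z₁ • c := by rw [hq, smul_smul, smul_smul, ← hrel]
  obtain ⟨l₁, r₁, f₁, u₁⟩ := exists_level hT b₁ c
  obtain ⟨l₄, r₄, f₄, u₄⟩ := exists_level hT b₄ c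
  obtain ⟨l₃, r₃, f₃, u₃⟩ := exists_level hT b₃ q
  obtain ⟨l₂, r₂, f₂, u₂⟩ := exists_level hT b₂ q
  have hl₁ : n₀ < l₁ := u₁ n₀ (not_known hP (b₁ n₀))
  have hρl : Encodable.encode ρ < Encodable.encode (Tree.pre β₁ l₁) :=
    strictMono_encode_pre β₁ hl₁
  rw [← hz₁] at r₁ f₁
  rw [← hz₂, e2] at r₂ f₂
  rw [← hz₃, e3] at r₃ f₃
  rw [← hz₄] at r₄ f₄
  -- levels beyond the splitting
  have big : ∀ {β : ℕ → ℕ × Bool} {l : ℕ}, Encodable.encode (Tree.pre β m₀) ≤ E →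
      E < Encodable.encode (Tree.pre β l) → m₀ < l := by
    intro β l h1 h2
    by_contra hlt
    have h3 : Encodable.encode (Tree.pre β l) ≤ Encodable.encode (Tree.pre β m₀) :=
      (strictMono_encode_pre β).monotone (not_lt.1 hlt)
    omega
  have L1 := le_encode_pre β₁ l₁
  have hE1 : Encodable.encode (Tree.pre β₁ m₀) ≤ E := by omega
  have hE2 : Encodable.encode (Tree.pre β₂ m₀) ≤ E := by omega
  have hE3 : Encodable.encode (Tree.pre β₃ m₀) ≤ E := by omega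
  have hE4 : Encodable.encode (Tree.pre β₄ m₀) ≤ E := by omega
  have sep : ∀ {β γ : ℕ → ℕ × Bool} {l l' : ℕ}, Encodable.encode (Tree.pre β m₀) ≤ E →
      (∀ n, m₀ < n → Tree.pre β n ≠ Tree.pre γ n) → E < Encodable.encode (Tree.pre β l) →
      Encodable.encode (Tree.pre β l) ≠ Encodable.encode (Tree.pre γ l') := by
    intro β γ l l' h1 h2 h3 h4
    obtain ⟨h5, h6⟩ := pre_eq_of_encode h4
    subst h5
    exact h2 l (big h1 h3) h6
  have s12 := @sep β₁ β₂ l₁ l₂ hE1 n12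
  have s13 := @sep β₁ β₃ l₁ l₃ hE1 n13
  have s14 := @sep β₁ β₄ l₁ l₄ hE1 n14
  have s23 := @sep β₂ β₃ l₂ l₃ hE2 n23
  have s24 := @sep β₂ β₄ l₂ l₄ hE2 n24
  have s34 := @sep β₃ β₄ l₃ l₄ hE3 n34
  have pos : ∀ {β : ℕ → ℕ × Bool} {l : ℕ}, Encodable.encode (Tree.pre β m₀) ≤ E →
      E < Encodable.encode (Tree.pre β l) → l ≠ 0 := by
    intro β l h1 h2 h3
    have := @big β l h1 h2
    omega
  set E₁ := Encodable.encode (Tree.pre β₁ l₁) with hE₁
  set E₂ := Encodable.encode (Tree.pre β₂ l₂) with hE₂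
  set E₃ := Encodable.encode (Tree.pre β₃ l₃) with hE₃
  set E₄ := Encodable.encode (Tree.pre β₄ l₄) with hE₄
  have hcases : (E < E₁ ∧ E₂ < E₁ ∧ E₃ < E₁ ∧ E₄ < E₁) ∨
      (E < E₂ ∧ E₁ < E₂ ∧ E₃ < E₂ ∧ E₄ < E₂) ∨
      (E < E₃ ∧ E₁ < E₃ ∧ E₂ < E₃ ∧ E₄ < E₃) ∨
      (E < E₄ ∧ E₁ < E₄ ∧ E₂ < E₄ ∧ E₃ < E₄) := by
    have hEE : E < E₁ := by omega
    have t12 := s12 hEE
    have t13 := s13 hEE
    have t14 := s14 hEE
    by_cases h2 : E < E₂
    · have t23 := s23 h2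
      have t24 := s24 h2
      by_cases h3 : E < E₃
      · have t34 := s34 h3
        omega
      · omega
    · by_cases h3 : E < E₃
      · have t34 := s34 h3
        omega
      · omega
  rcases hcases with ⟨h0, c2, c3, c4⟩ | ⟨h0, c1, c3, c4⟩ | ⟨h0, c1, c2, c4⟩ | ⟨h0, c1, c2, c3⟩
  · exact f₁ (pos hE1 h0) ⟨Encodable.encode ρ, hρl, Or.inl ⟨rfl, z₄ • c, q, r₄ _ c4, r₃ _ c3,
      r₂ _ c2⟩⟩
  · exact f₂ (pos hE2 h0) ⟨Encodable.encode ρ, hρl.trans c1, Or.inr ⟨r₁ _ c1, z₄ • c, r₄ _ c4,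
      r₃ _ c3⟩⟩
  · exact f₃ (pos hE3 h0) ⟨Encodable.encode ρ, hρl.trans c1, Or.inr ⟨r₄ _ c4, z₁ • c, r₁ _ c1,
      r₂ _ c2⟩⟩
  · exact f₄ (pos hE4 h0) ⟨Encodable.encode ρ, hρl.trans c1, Or.inl ⟨rfl, z₁ • c, q, r₁ _ c1,
      r₂ _ c2, r₃ _ c3⟩⟩

/-- **The two-edge lemma.** -/
theorem no_pair (hT : T.Fine) (hP : ∀ B : OpenSubgroup G, ¬ (orb B (P B)).Finite)
    {β₁ β₂ : ℕ → ℕ × Bool} {g₁ k₁ h₁ g₂ k₂ h₂ : G}
    (b₁ : Br T β₁ g₁ k₁ h₁) (b₂ : Br T β₂ g₂ k₂ h₂) {m₀ : ℕ}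
    (n12 : ∀ n, m₀ < n → Tree.pre β₁ n ≠ Tree.pre β₂ n) :
    g₁ * k₁ * h₁ ≠ g₂ * k₂ * h₂ := by
  intro hrel
  set E := Encodable.encode (Tree.pre β₁ m₀) + Encodable.encode (Tree.pre β₂ m₀) with hE
  set n₀ := m₀ + E with hn₀
  set ρ := Tree.pre β₁ n₀ with hρ
  set c : M := (T.X ρ).V⁻¹ • P (T.X ρ).B with hc
  obtain ⟨l₁, r₁, f₁, u₁⟩ := exists_level hT b₁ c
  obtain ⟨l₂, r₂, f₂, u₂⟩ := exists_level hT b₂ c
  have hl₁ : n₀ < l₁ := u₁ n₀ (not_known hP (b₁ n₀))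
  have hρl : Encodable.encode ρ < Encodable.encode (Tree.pre β₁ l₁) :=
    strictMono_encode_pre β₁ hl₁
  rw [← hrel] at r₂ f₂
  have L1 := le_encode_pre β₁ l₁
  have hne : Encodable.encode (Tree.pre β₁ l₁) ≠ Encodable.encode (Tree.pre β₂ l₂) := by
    intro h4
    obtain ⟨h5, h6⟩ := pre_eq_of_encode h4
    subst h5
    exact n12 l₁ (by omega) h6
  rcases lt_or_gt_of_ne hne with h | h
  · have hl₂ : l₂ ≠ 0 := by
      rintro rfl
      simp only [Tree.pre, Encodable.encode_list_nil] at h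
      omega
    exact f₂ hl₂ ⟨Encodable.encode ρ, hρl.trans h, Or.inl ⟨rfl, _, c, r₁ _ h, r₁ _ h, r₁ _ h⟩⟩
  · have hl₁' : l₁ ≠ 0 := by omega
    exact f₁ hl₁' ⟨Encodable.encode ρ, hρl, Or.inl ⟨rfl, _, c, r₂ _ h, r₂ _ h, r₂ _ h⟩⟩

end NT

end Pool.Agent.HN
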