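import Pool.Agent.Helper61_HN.NAMain

/-!
# Non-archimedean Polish groups which are not locally compact
-/

set_option autoImplicit false
set_option linter.unusedSectionVars false

namespace Pool.Agent.HN

open Set Filter Topology MeasureTheory
open scoped ENNReal Pointwise

theorem lc_of_finiteIndex {H : Type*} [Group H] [TopologicalSpace H] [IsTopologicalGroup H]
    [PolishSpace H] (h : ∀ U ∈ 𝓝 (1 : H), ∃ W : Subgroup H, IsOpen (W : Set H) ∧
      (W : Set H) ⊆ U ∧ W.FiniteIndex) : LocallyCompactSpace H := by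
  by_contra hlc
  obtain ⟨d, hd⟩ := exists_biInv (H := H) (by
    intro U hU
    obtain ⟨W, hW, hWU, hfin⟩ := h U hU
    have hclosed : IsClosed (W : Set H) := W.isClosed_of_isOpen hW
    have hc : IsClosed (W.normalCore : Set H) := W.normalCore_isClosed hclosed
    have ho : IsOpen (W.normalCore : Set H) := Subgroup.isOpen_of_isClosed_of_finiteIndex _ hc
    refine ⟨W.normalCore, ho.mem_nhds (one_mem W.normalCore),
      (fun x hx => hWU (W.normalCore_le hx)), fun h v hv => ?_⟩
    exact W.normalCore_normal.conj_mem v hv h)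
  obtain ⟨ε, hε, hS⟩ := hd.not_tb hlc (δ := 1) one_pos
  obtain ⟨W, hW, hWU, hfin⟩ := h {y | d 1 y < ε} (hd.ball_mem 1 hε)
  have hfq : Finite (H ⧸ W) := Subgroup.finite_quotient_of_finiteIndex
  obtain ⟨v, -, hv⟩ := hS (range (Quotient.out : H ⧸ W → H)) (finite_range _)
  have h1 := hv _ ⟨(v : H ⧸ W), rfl⟩
  have h2 : (Quotient.out (v : H ⧸ W))⁻¹ * v ∈ W := by
    rw [← QuotientGroup.eq]
    exact QuotientGroup.out_eq' _
  have h3 : d 1 ((Quotient.out (v : H ⧸ W))⁻¹ * v) < ε := hWU h2
  have h4 := hd.left (Quotient.out (v : H ⧸ W)) 1 ((Quotient.out (v : H ⧸ W))⁻¹ * v)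
  rw [mul_one, mul_inv_cancel_left] at h4
  linarith

theorem lc_of_orbits {G M : Type*} [Group G] [TopologicalSpace G] [IsTopologicalGroup G]
    [PolishSpace G] [MulAction G M] (hst : ∀ s : M, {g : G | g • s = s} ∈ 𝓝 (1 : G))
    (hbase : ∀ V ∈ 𝓝 (1 : G), ∃ s : M, ∀ g : G, g • s = s → g ∈ V) (A : OpenSubgroup G)
    (hfin : ∀ s : M, (orb A s).Finite) : LocallyCompactSpace G := by
  have hAo : IsOpen ((A : Subgroup G) : Set G) := A.isOpen
  have hPA : PolishSpace (A : Subgroup G) := hAo.polishSpace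
  have hlcA : LocallyCompactSpace (A : Subgroup G) := by
    apply lc_of_finiteIndex
    intro V hV
    rw [nhds_subtype_eq_comap] at hV
    obtain ⟨V', hV', hsub⟩ := hV
    obtain ⟨s, hs⟩ := hbase V' hV'
    refine ⟨MulAction.stabilizer (A : Subgroup G) s, ?_, ?_, ?_⟩
    · apply Subgroup.isOpen_of_mem_nhds (g := 1)
      have h1 : (Subtype.val : ↥(A : Subgroup G) → G) ⁻¹' {g : G | g • s = s} ∈
          𝓝 (1 : (A : Subgroup G)) :=
        continuous_subtype_val.continuousAt.preimage_mem_nhds (hst s)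
      exact h1
    · intro a ha
      exact hsub (hs a ha)
    · have hf : (MulAction.orbit (A : Subgroup G) s).Finite := by
        refine (hfin s).subset ?_
        rintro _ ⟨a, rfl⟩
        exact ⟨a, a.2, rfl⟩
      have hf' : Finite (MulAction.orbit (A : Subgroup G) s) := hf
      have hf2 : Finite ((A : Subgroup G) ⧸ MulAction.stabilizer (A : Subgroup G) s) :=
        Finite.of_equiv _ (MulAction.orbitEquivQuotientStabilizer (A : Subgroup G) s)
      exact Subgroup.finiteIndex_of_finite_quotient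
  obtain ⟨K, hK, hK1⟩ := exists_compact_mem_nhds (1 : (A : Subgroup G))
  have h1 : (Subtype.val : ↥(A : Subgroup G) → G) '' K ∈ 𝓝 (1 : G) :=
    hAo.isOpenMap_subtype_val.image_mem_nhds hK1
  exact (hK.image continuous_subtype_val).locallyCompactSpace_of_mem_nhds_of_group h1

theorem rectFree_of_nonarch {G : Type*} [Group G] [TopologicalSpace G] [IsTopologicalGroup G]
    [PolishSpace G] [MeasurableSpace G] [BorelSpace G] (hlc : ¬ LocallyCompactSpace G)
    (hNA : ∀ W ∈ 𝓝 (1 : G), ∃ A : Subgroup G, IsOpen (A : Set G) ∧ (A : Set G) ⊆ W) :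
    RectFree G := by
  obtain ⟨U, hU⟩ := (𝓝 (1 : G)).exists_antitone_basis
  choose W hWo hWU using fun n => hNA (U n) (hU.mem n)
  have hcount : ∀ n, Countable (G ⧸ W n) := by
    intro n
    have hs : Function.Surjective fun i => (TopologicalSpace.denseSeq G i : G ⧸ W n) := by
      intro q
      obtain ⟨x, rfl⟩ := QuotientGroup.mk_surjective q
      have ho : IsOpen {y : G | y⁻¹ * x ∈ W n} :=
        (hWo n).preimage (continuous_inv.mul continuous_const)
      obtain ⟨i, hi⟩ := (TopologicalSpace.denseRange_denseSeq G).exists_mem_open ho ⟨x, by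
        simp only [mem_ofPred_eq, inv_mul_cancel]
        exact one_mem _⟩
      exact ⟨i, QuotientGroup.eq.2 hi⟩
    exact hs.countable
  have hst : ∀ s : (Σ n, G ⧸ W n), {g : G | g • s = s} ∈ 𝓝 (1 : G) := by
    rintro ⟨n, q⟩
    obtain ⟨x, rfl⟩ := QuotientGroup.mk_surjective q
    have ho : IsOpen {g : G | (g * x)⁻¹ * x ∈ W n} :=
      (hWo n).preimage ((continuous_id.mul continuous_const).inv.mul continuous_const)
    have h1 : (1 : G) ∈ {g : G | (g * x)⁻¹ * x ∈ W n} := by
      simp only [mem_ofPred_eq, one_mul, inv_mul_cancel]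
      exact one_mem _
    filter_upwards [ho.mem_nhds h1] with g hg
    have h2 : ((g * x : G) : G ⧸ W n) = (x : G ⧸ W n) := QuotientGroup.eq.2 hg
    show (⟨n, ((g * x : G) : G ⧸ W n)⟩ : Σ n, G ⧸ W n) = _
    rw [h2]
  have hbase : ∀ V ∈ 𝓝 (1 : G), ∃ s : (Σ n, G ⧸ W n), ∀ g : G, g • s = s → g ∈ V := by
    intro V hV
    obtain ⟨n, hn⟩ := hU.mem_iff.1 hV
    refine ⟨⟨n, ((1 : G) : G ⧸ W n)⟩, fun g hg => hn (hWU n ?_)⟩
    have h1 : (⟨n, ((g * 1 : G) : G ⧸ W n)⟩ : Σ n, G ⧸ W n) = ⟨n, ((1 : G) : G ⧸ W n)⟩ := hg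
    have h2 : ((g * 1 : G) : G ⧸ W n) = ((1 : G) : G ⧸ W n) := by
      simpa using h1
    have h3 := QuotientGroup.eq.1 h2
    rw [mul_one, mul_one] at h3
    simpa using inv_mem h3
  refine rectFree_of_action (Σ n, G ⧸ W n) ?_ hst ?_
  · intro V hV
    obtain ⟨A, hA, hAV⟩ := hNA V hV
    exact ⟨⟨A, hA⟩, hAV⟩
  · intro A
    by_contra hcon
    push Not at hcon
    exact hlc (lc_of_orbits hst hbase A hcon)

/-- Let `H` be an open subgroup of a Polish group `G` with a continuous homomorphism onto a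
non-archimedean Polish group which is not locally compact. -/
theorem main_nonarch {G Q : Type*} [Group G] [TopologicalSpace G] [IsTopologicalGroup G]
    [PolishSpace G] [MeasurableSpace G] [BorelSpace G] [Group Q] [TopologicalSpace Q]
    [IsTopologicalGroup Q] [PolishSpace Q] (H : Subgroup G) (hH : IsOpen (H : Set G))
    (π : H →* Q) (hπ : Continuous π) (hsurj : Function.Surjective π)
    (hlc : ¬ LocallyCompactSpace Q)
    (hNA : ∀ W ∈ 𝓝 (1 : Q), ∃ A : Subgroup Q, IsOpen (A : Set Q) ∧ (A : Set Q) ⊆ W) :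
    ∃ A : Set G, GenHaarNull A ∧ ¬ HaarNull A := by
  borelize Q
  have hPH : PolishSpace H := hH.polishSpace
  have h1 : RectFree Q := rectFree_of_nonarch hlc hNA
  have h2 : RectFree H := h1.surj π hπ.measurable hsurj
  exact (RectFree.openSubgroup hH h2).main

end Pool.Agent.HN
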