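import Pool.Agent.Helper61_HN.NABranch

/-!
# Rectangle-free sets in non-archimedean Polish groups which are not locally compact
-/

set_option autoImplicit false
set_option linter.unusedSectionVars false

namespace Pool.Agent.HN

open Set Filter Topology MeasureTheory
open scoped ENNReal Pointwise

namespace NT

variable {G M : Type*} [Group G] [TopologicalSpace G] [MulAction G M] {D : ℕ → G}
  {en : ℕ → M} {P : OpenSubgroup G → M} {δ : G → G → ℝ} {T : NT D en P δ}

theorem pow_lt_pow_half (n : ℕ) : ((1 : ℝ) / 2) ^ (n + 1) < (1 / 2) ^ n := by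
  rw [pow_succ]
  have : (0 : ℝ) < (1 / 2) ^ n := by positivity
  linarith

theorem small_U (β : ℕ → ℕ × Bool) (n : ℕ) (y : G)
    (hy : y ∈ (T.X (Tree.pre β (n + 2))).A) :
    δ (T.X (Tree.pre β (n + 2))).U ((T.X (Tree.pre β (n + 2))).U * y) < (1 / 2) ^ n := by
  by_cases hev : Even n
  · have h1 := sG (T := T) (β n) (Tree.pre β n) (by simpa using hev)
    have h2 := sH (T := T) (β (n + 1)) (Tree.pre β (n + 1)) (by
      simpa [Nat.even_add_one] using hev)
    have e2 : Tree.pre β (n + 2) = β (n + 1) :: Tree.pre β (n + 1) := rfl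
    have e1 : Tree.pre β (n + 1) = β n :: Tree.pre β n := rfl
    rw [e2, h2.U]
    rw [e2, h2.A] at hy
    rw [e1] at hy ⊢
    have h3 := h1.small y hy
    rwa [Tree.length_pre] at h3
  · have h2 := sG (T := T) (β (n + 1)) (Tree.pre β (n + 1)) (by
      simpa [Nat.even_add_one] using hev)
    have e2 : Tree.pre β (n + 2) = β (n + 1) :: Tree.pre β (n + 1) := rfl
    rw [e2] at hy ⊢
    have h3 := h2.small y hy
    rw [Tree.length_pre] at h3
    exact h3.trans (pow_lt_pow_half n)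

theorem small_V (β : ℕ → ℕ × Bool) (n : ℕ) (y : G)
    (hy : y ∈ (T.X (Tree.pre β (n + 2))).B) :
    δ (T.X (Tree.pre β (n + 2))).V (y * (T.X (Tree.pre β (n + 2))).V) < (1 / 2) ^ n := by
  by_cases hev : Even n
  · have h2 := sH (T := T) (β (n + 1)) (Tree.pre β (n + 1)) (by
      simpa [Nat.even_add_one] using hev)
    have e2 : Tree.pre β (n + 2) = β (n + 1) :: Tree.pre β (n + 1) := rfl
    rw [e2] at hy ⊢
    have h3 := h2.small y hy
    rw [Tree.length_pre] at h3
    exact h3.trans (pow_lt_pow_half n)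
  · have h1 := sH (T := T) (β n) (Tree.pre β n) (by simpa using hev)
    have h2 := sG (T := T) (β (n + 1)) (Tree.pre β (n + 1)) (by
      simpa [Nat.even_add_one] using hev)
    have e2 : Tree.pre β (n + 2) = β (n + 1) :: Tree.pre β (n + 1) := rfl
    have e1 : Tree.pre β (n + 1) = β n :: Tree.pre β n := rfl
    rw [e2, h2.V]
    rw [e2, h2.B] at hy
    rw [e1] at hy ⊢
    have h3 := h1.small y hy
    rwa [Tree.length_pre] at h3

theorem fix_A (β : ℕ → ℕ × Bool) (n : ℕ) (y : G)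
    (hy : y ∈ (T.X (Tree.pre β (n + 2))).A) : ∀ i ≤ n, y • en i = en i := by
  intro i hi
  by_cases hev : Even n
  · have h1 := sG (T := T) (β n) (Tree.pre β n) (by simpa using hev)
    have e1 : Tree.pre β (n + 1) = β n :: Tree.pre β n := rfl
    have h3 := A_anti (T := T) β (Nat.le_succ (n + 1)) hy
    rw [e1] at h3
    exact h1.fix i (by rwa [Tree.length_pre]) y h3
  · have h2 := sG (T := T) (β (n + 1)) (Tree.pre β (n + 1)) (by
      simpa [Nat.even_add_one] using hev)
    have e2 : Tree.pre β (n + 2) = β (n + 1) :: Tree.pre β (n + 1) := rfl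
    rw [e2] at hy
    exact h2.fix i (by rw [Tree.length_pre]; omega) y hy

theorem fix_B (β : ℕ → ℕ × Bool) (n : ℕ) (y : G)
    (hy : y ∈ (T.X (Tree.pre β (n + 2))).B) : ∀ i ≤ n, y • en i = en i := by
  intro i hi
  by_cases hev : Even n
  · have h2 := sH (T := T) (β (n + 1)) (Tree.pre β (n + 1)) (by
      simpa [Nat.even_add_one] using hev)
    have e2 : Tree.pre β (n + 2) = β (n + 1) :: Tree.pre β (n + 1) := rfl
    rw [e2] at hy
    exact h2.fix i (by rw [Tree.length_pre]; omega) y hy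
  · have h1 := sH (T := T) (β n) (Tree.pre β n) (by simpa using hev)
    have e1 : Tree.pre β (n + 1) = β n :: Tree.pre β n := rfl
    have h3 := B_anti (T := T) β (Nat.le_succ (n + 1)) hy
    rw [e1] at h3
    exact h1.fix i (by rwa [Tree.length_pre]) y h3

theorem fine (hen : Function.Surjective en) : T.Fine := by
  intro β s
  obtain ⟨i, rfl⟩ := hen s
  refine ⟨i + 2, ?_, ?_⟩
  · refine (finite_singleton (en i)).subset ?_
    rintro t ⟨y, hy, rfl⟩
    exact fix_A β i y hy i le_rfl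
  · refine (finite_singleton (en i)).subset ?_
    rintro t ⟨y, hy, rfl⟩
    exact fix_B β i y hy i le_rfl

theorem U_mem_le (β : ℕ → ℕ × Bool) {m n : ℕ} (h : m ≤ n) :
    (T.X (Tree.pre β m)).U⁻¹ * (T.X (Tree.pre β n)).U ∈ (T.X (Tree.pre β m)).A := by
  induction n, h using Nat.le_induction with
  | base =>
    rw [inv_mul_cancel]
    exact one_mem _
  | succ n hmn ih =>
    have h1 := A_anti (T := T) β hmn (U_mem (β n) (Tree.pre β n))
    have h2 := mul_mem ih h1
    have h3 : (T.X (Tree.pre β m)).U⁻¹ * (T.X (Tree.pre β n)).U *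
        ((T.X (Tree.pre β n)).U⁻¹ * (T.X (β n :: Tree.pre β n)).U) =
        (T.X (Tree.pre β m)).U⁻¹ * (T.X (Tree.pre β (n + 1))).U := by
      rw [Tree.pre]
      group
    rwa [h3] at h2

theorem V_mem_le (β : ℕ → ℕ × Bool) {m n : ℕ} (h : m ≤ n) :
    (T.X (Tree.pre β n)).V * (T.X (Tree.pre β m)).V⁻¹ ∈ (T.X (Tree.pre β m)).B := by
  induction n, h using Nat.le_induction with
  | base =>
    rw [mul_inv_cancel]
    exact one_mem _
  | succ n hmn ih =>
    have h1 := B_anti (T := T) β hmn (V_mem (β n) (Tree.pre β n))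
    have h2 := mul_mem h1 ih
    have h3 : (T.X (β n :: Tree.pre β n)).V * (T.X (Tree.pre β n)).V⁻¹ *
        ((T.X (Tree.pre β n)).V * (T.X (Tree.pre β m)).V⁻¹) =
        (T.X (Tree.pre β (n + 1))).V * (T.X (Tree.pre β m)).V⁻¹ := by
      rw [Tree.pre]
      group
    rwa [h3] at h2

theorem exists_lim_U (hδ : ∀ u : ℕ → G, (∀ n, δ (u n) (u (n + 1)) ≤ (1 / 2) ^ n) →
    ∃ y, Tendsto u atTop (𝓝 y)) (β : ℕ → ℕ × Bool) :
    ∃ y, Tendsto (fun n => (T.X (Tree.pre β n)).U) atTop (𝓝 y) := by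
  obtain ⟨y, hy⟩ := hδ (fun n => (T.X (Tree.pre β (n + 2))).U) (by
    intro n
    have h1 := small_U (T := T) β n _ (U_mem_le β (Nat.le_succ (n + 2)))
    rw [mul_inv_cancel_left] at h1
    exact h1.le)
  exact ⟨y, (tendsto_add_atTop_iff_nat (f := fun n => (T.X (Tree.pre β n)).U) 2).1 hy⟩

theorem exists_lim_V (hδ : ∀ u : ℕ → G, (∀ n, δ (u n) (u (n + 1)) ≤ (1 / 2) ^ n) →
    ∃ y, Tendsto u atTop (𝓝 y)) (β : ℕ → ℕ × Bool) :
    ∃ y, Tendsto (fun n => (T.X (Tree.pre β n)).V) atTop (𝓝 y) := by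
  obtain ⟨y, hy⟩ := hδ (fun n => (T.X (Tree.pre β (n + 2))).V) (by
    intro n
    have h1 := small_V (T := T) β n _ (V_mem_le β (Nat.le_succ (n + 2)))
    rw [inv_mul_cancel_right] at h1
    exact h1.le)
  exact ⟨y, (tendsto_add_atTop_iff_nat (f := fun n => (T.X (Tree.pre β n)).V) 2).1 hy⟩

theorem br_of_lim [IsTopologicalGroup G] {β : ℕ → ℕ × Bool} {g k h : G}
    (hg : Tendsto (fun n => (T.X (Tree.pre β n)).U) atTop (𝓝 g))
    (hh : Tendsto (fun n => (T.X (Tree.pre β n)).V) atTop (𝓝 h))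
    (hk : ∀ n, k ∈ T.KI (Tree.pre β n)) : Br T β g k h := by
  intro n
  refine ⟨?_, hk n, ?_⟩
  · have h1 : Tendsto (fun m => (T.X (Tree.pre β n)).U⁻¹ * (T.X (Tree.pre β m)).U) atTop
        (𝓝 ((T.X (Tree.pre β n)).U⁻¹ * g)) := hg.const_mul _
    refine (T.X (Tree.pre β n)).A.isClosed.mem_of_tendsto h1 ?_
    filter_upwards [eventually_ge_atTop n] with m hm
    exact U_mem_le β hm
  · have h1 : Tendsto (fun m => (T.X (Tree.pre β m)).V * (T.X (Tree.pre β n)).V⁻¹) atTop
        (𝓝 (h * (T.X (Tree.pre β n)).V⁻¹)) := hh.mul_const _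
    refine (T.X (Tree.pre β n)).B.isClosed.mem_of_tendsto h1 ?_
    filter_upwards [eventually_ge_atTop n] with m hm
    exact V_mem_le β hm

theorem isOpen_KI [IsTopologicalGroup G] (σ : Node) : IsOpen (T.KI σ) := by
  match σ with
  | [] => exact isOpen_univ
  | a :: τ =>
    have h1 : ∀ l : ℕ, IsOpen {k : G | (D l)⁻¹ * k ∈ (T.X τ).B} := fun l =>
      (T.X τ).B.isOpen.preimage (continuous_const.mul continuous_id)
    have h2 : ∀ l : ℕ, IsOpen {k : G | k * (D l)⁻¹ ∈ (T.X τ).A} := fun l =>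
      (T.X τ).A.isOpen.preimage (continuous_id.mul continuous_const)
    by_cases hev : Even τ.length
    · have : T.KI (a :: τ) = ⋃ l : {l // l ≤ a.1}, {k : G | (D l)⁻¹ * k ∈ (T.X τ).B} := by
        ext k
        simp [KI, hev]
      rw [this]
      exact isOpen_iUnion fun l => h1 l
    · have : T.KI (a :: τ) = ⋃ l : {l // l ≤ a.1}, {k : G | k * (D l)⁻¹ ∈ (T.X τ).A} := by
        ext k
        simp [KI, hev]
      rw [this]
      exact isOpen_iUnion fun l => h2 l

theorem KI_mono {N N' : ℕ} (h : N ≤ N') (b : Bool) (τ : Node) :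
    T.KI ((N, b) :: τ) ⊆ T.KI ((N', b) :: τ) := by
  rintro k (⟨hev, l, hl, hk⟩ | ⟨hev, l, hl, hk⟩)
  · exact Or.inl ⟨hev, l, hl.trans h, hk⟩
  · exact Or.inr ⟨hev, l, hl.trans h, hk⟩

theorem KI_univ [IsTopologicalGroup G] (hD : DenseRange D) (b : Bool) (τ : Node) :
    ⋃ N, T.KI ((N, b) :: τ) = univ := by
  rw [eq_univ_iff_forall]
  intro k
  rw [mem_iUnion]
  by_cases hev : Even τ.length
  · have ho : IsOpen {x : G | x⁻¹ * k ∈ (T.X τ).B} :=
      (T.X τ).B.isOpen.preimage (continuous_inv.mul continuous_const)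
    obtain ⟨l, hl⟩ := hD.exists_mem_open ho ⟨k, by
      simp only [mem_ofPred_eq, inv_mul_cancel]
      exact one_mem _⟩
    exact ⟨l, Or.inl ⟨hev, l, le_rfl, hl⟩⟩
  · have ho : IsOpen {x : G | k * x⁻¹ ∈ (T.X τ).A} :=
      (T.X τ).A.isOpen.preimage (continuous_const.mul continuous_inv)
    obtain ⟨l, hl⟩ := hD.exists_mem_open ho ⟨k, by
      simp only [mem_ofPred_eq, mul_inv_cancel]
      exact one_mem _⟩
    exact ⟨l, Or.inr ⟨hev, l, le_rfl, hl⟩⟩

theorem measurableSet_pre (n : ℕ) (σ : Node) :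
    MeasurableSet {β : ℕ → ℕ × Bool | Tree.pre β n = σ} := by
  induction n generalizing σ with
  | zero =>
    have : {β : ℕ → ℕ × Bool | Tree.pre β 0 = σ} = {_β : ℕ → ℕ × Bool | [] = σ} := rfl
    rw [this]
    exact MeasurableSet.const _
  | succ n ih =>
    match σ with
    | [] =>
      have : {β : ℕ → ℕ × Bool | Tree.pre β (n + 1) = []} = ∅ := by
        ext β
        simp [Tree.pre]
      rw [this]
      exact MeasurableSet.empty
    | a :: τ =>
      have : {β : ℕ → ℕ × Bool | Tree.pre β (n + 1) = a :: τ} =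
          {β : ℕ → ℕ × Bool | β n = a} ∩ {β | Tree.pre β n = τ} := by
        ext β
        simp [Tree.pre]
      rw [this]
      exact ((measurable_pi_apply n) (MeasurableSet.singleton a)).inter (ih τ)

theorem measurable_pre {α : Type*} [MeasurableSpace α] (f : Node → α) (n : ℕ) :
    Measurable fun β : ℕ → ℕ × Bool => f (Tree.pre β n) := by
  intro S _
  have : (fun β : ℕ → ℕ × Bool => f (Tree.pre β n)) ⁻¹' S =
      ⋃ σ : {σ : Node // f σ ∈ S}, {β | Tree.pre β n = σ} := by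
    ext β
    simp
  rw [this]
  exact MeasurableSet.iUnion fun σ => measurableSet_pre n σ

variable [MeasurableSpace G] [BorelSpace G]

/-- the domain of the parametrization -/
def Dom (T : NT D en P δ) : Set ((ℕ → ℕ × Bool) × G) := {p | ∀ n, p.2 ∈ T.KI (Tree.pre p.1 n)}

theorem measurableSet_Dom [IsTopologicalGroup G] : MeasurableSet (Dom T) := by
  have : Dom T = ⋂ n : ℕ, ⋃ σ : Node,
      {p : (ℕ → ℕ × Bool) × G | Tree.pre p.1 n = σ} ∩ {p | p.2 ∈ T.KI σ} := by
    ext p
    simp only [Dom, mem_ofPred_eq, mem_iInter, mem_iUnion, mem_inter_iff]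
    constructor
    · intro h n
      exact ⟨_, rfl, h n⟩
    · intro h n
      obtain ⟨σ, h1, h2⟩ := h n
      rw [h1]
      exact h2
  rw [this]
  exact MeasurableSet.iInter fun n => MeasurableSet.iUnion fun σ =>
    (measurable_fst (measurableSet_pre n σ)).inter
      (measurable_snd (isOpen_KI σ).measurableSet)

/-- **Capture.** -/
theorem exists_branch [IsTopologicalGroup G] (hD : DenseRange D) (x : ℕ → Bool) (ν : Measure G)
    [IsFiniteMeasure ν] (hν : ν univ ≠ 0) :
    ∃ β : ℕ → ℕ × Bool, (∀ n, (β n).2 = x n) ∧ ν {k | ∀ n, k ∈ T.KI (Tree.pre β n)} ≠ 0 := by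
  obtain ⟨η, hη, hηs⟩ := ENNReal.exists_pos_sum_of_countable hν ℕ
  have hy : ∀ (b : Bool) (τ : Node), ∃ N, ν (T.KI ((N, b) :: τ))ᶜ < η τ.length := by
    intro b τ
    have h1 : Tendsto (fun N => ν (T.KI ((N, b) :: τ))ᶜ) atTop
        (𝓝 (ν (⋂ N, (T.KI ((N, b) :: τ))ᶜ))) := by
      apply tendsto_measure_iInter_atTop
      · intro N
        exact (isOpen_KI _).measurableSet.compl.nullMeasurableSet
      · intro N N' hNN
        exact compl_subset_compl.2 (KI_mono hNN b τ)
      · exact ⟨0, measure_ne_top _ _⟩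
    have h2 : (⋂ N, (T.KI ((N, b) :: τ))ᶜ) = ∅ := by
      rw [← compl_iUnion, KI_univ hD, compl_univ]
    rw [h2, measure_empty] at h1
    obtain ⟨N, hN⟩ := (h1.eventually
      (gt_mem_nhds (show (0 : ℝ≥0∞) < η τ.length by exact_mod_cast hη _))).exists
    exact ⟨N, hN⟩
  choose y hy using hy
  let σ : ℕ → Node := fun n => Nat.rec [] (fun n τ => (y (x n) τ, x n) :: τ) n
  have hσ : ∀ n, σ (n + 1) = (y (x n) (σ n), x n) :: σ n := fun n => rfl
  set β : ℕ → ℕ × Bool := fun n => (y (x n) (σ n), x n) with hβ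
  have hpre : ∀ n, Tree.pre β n = σ n := by
    intro n
    induction n with
    | zero => rfl
    | succ n ih =>
      rw [hσ, Tree.pre, ih]
  refine ⟨β, fun n => rfl, fun h0 => ?_⟩
  have hset : {k | ∀ n, k ∈ T.KI (Tree.pre β n)} = ⋂ n, T.KI (Tree.pre β (n + 1)) := by
    ext k
    simp only [mem_ofPred_eq, mem_iInter]
    constructor
    · intro h n
      exact h (n + 1)
    · intro h n
      cases n with
      | zero => exact mem_univ _
      | succ n => exact h n
  rw [hset] at h0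
  have h1 : ν univ ≤ ν (⋂ n, T.KI (Tree.pre β (n + 1))) + ν (⋂ n, T.KI (Tree.pre β (n + 1)))ᶜ := by
    rw [← union_compl_self (⋂ n, T.KI (Tree.pre β (n + 1)))]
    exact measure_union_le _ _
  rw [h0, zero_add, compl_iInter] at h1
  have h2 : ν (⋃ n, (T.KI (Tree.pre β (n + 1)))ᶜ) ≤ ∑' n, (η n : ℝ≥0∞) := by
    refine (measure_iUnion_le _).trans (ENNReal.tsum_le_tsum fun n => ?_)
    have h3 := hy (x n) (Tree.pre β n)
    rw [Tree.length_pre] at h3
    have h4 : Tree.pre β (n + 1) = (y (x n) (Tree.pre β n), x n) :: Tree.pre β n := by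
      rw [Tree.pre, hβ, hpre]
    rw [h4]
    exact h3.le
  exact absurd (h1.trans h2) (not_le.2 hηs)

end NT

/-- splitting levels -/
theorem exists_split {β β' : ℕ → ℕ × Bool} (h : β ≠ β') :
    ∃ m, ∀ n, m < n → Tree.pre β n ≠ Tree.pre β' n := by
  obtain ⟨m, hm⟩ := Function.ne_iff.1 h
  exact ⟨m, fun n hn h' => hm (Tree.pre_inj h' m hn)⟩

/-- **Rectangle-free sets from an action on a countable set.** -/
theorem rectFree_of_action {G : Type*} (M : Type*) [Group G] [TopologicalSpace G]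
    [IsTopologicalGroup G] [PolishSpace G] [MeasurableSpace G] [BorelSpace G] [MulAction G M]
    [Countable M] (hNA : ∀ W ∈ 𝓝 (1 : G), ∃ A : OpenSubgroup G, (A : Set G) ⊆ W)
    (hst : ∀ s : M, {g : G | g • s = s} ∈ 𝓝 (1 : G))
    (hinf : ∀ A : OpenSubgroup G, ∃ s : M, ¬ (orb A s).Finite) : RectFree G := by
  choose P hP using hinf
  have hne : Nonempty M := ⟨P ⊤⟩
  obtain ⟨en, hen⟩ := exists_surjective_nat M
  obtain ⟨δ, hδ0, hδ1⟩ : ∃ δ : G → G → ℝ, (∀ x : G, ∀ ε > 0, ∀ᶠ y in 𝓝 x, δ x y < ε) ∧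
      ∀ u : ℕ → G, (∀ n, δ (u n) (u (n + 1)) ≤ (1 / 2) ^ n) → ∃ y, Tendsto u atTop (𝓝 y) := by
    let _ := TopologicalSpace.upgradeIsCompletelyMetrizable G
    refine ⟨dist, ?_, ?_⟩
    · intro x ε hε
      filter_upwards [Metric.ball_mem_nhds x hε] with y hy
      rw [dist_comm]
      exact hy
    · intro u hu
      have hc : CauchySeq u := by
        apply cauchySeq_of_le_geometric (1 / 2) 1 (by norm_num)
        intro n
        rw [one_mul]
        exact hu n
      exact cauchySeq_tendsto_of_complete hc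
  set D : ℕ → G := TopologicalSpace.denseSeq G with hDdef
  have hD : DenseRange D := TopologicalSpace.denseRange_denseSeq G
  obtain ⟨T⟩ := exists_NT hNA hst D en P hδ0
  have hfine : T.Fine := NT.fine hen
  choose g hg using fun β => NT.exists_lim_U (T := T) hδ1 β
  choose h hh using fun β => NT.exists_lim_V (T := T) hδ1 β
  have hbr : ∀ p ∈ NT.Dom T, NT.Br T p.1 (g p.1) p.2 (h p.1) := fun p hp =>
    NT.br_of_lim (hg p.1) (hh p.1) hp
  have hgm : Measurable g := measurable_of_tendsto_metrizable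
    (f := fun n β => (T.X (Tree.pre β n)).U) (fun n => NT.measurable_pre (fun σ => (T.X σ).U) n)
    (by rw [tendsto_pi_nhds]; exact hg)
  have hhm : Measurable h := measurable_of_tendsto_metrizable
    (f := fun n β => (T.X (Tree.pre β n)).V) (fun n => NT.measurable_pre (fun σ => (T.X σ).V) n)
    (by rw [tendsto_pi_nhds]; exact hh)
  set Ψ : NT.Dom T → G := fun p => g p.1.1 * p.1.2 * h p.1.1 with hΨ
  have hΨm : Measurable Ψ := by
    have h1 : Measurable fun p : NT.Dom T => p.1.1 := measurable_fst.comp measurable_subtype_coe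
    have h2 : Measurable fun p : NT.Dom T => p.1.2 := measurable_snd.comp measurable_subtype_coe
    exact ((hgm.comp h1).mul h2).mul (hhm.comp h1)
  have hΨi : Function.Injective Ψ := by
    intro p p' hpp
    have hβ : p.1.1 = p'.1.1 := by
      by_contra hne
      obtain ⟨m, hm⟩ := exists_split hne
      exact NT.no_pair hfine hP (hbr p.1 p.2) (hbr p'.1 p'.2) hm hpp
    have hk : p.1.2 = p'.1.2 := by
      simp only [hΨ, hβ] at hpp
      exact mul_left_cancel (mul_right_cancel hpp)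
    exact Subtype.ext (Prod.ext hβ hk)
  have hstd : StandardBorelSpace (NT.Dom T) := NT.measurableSet_Dom.standardBorel
  have hemb : MeasurableEmbedding Ψ := hΨm.measurableEmbedding hΨi
  obtain ⟨φ, hφm, hφ⟩ := hemb.exists_measurable_extend
    (g := fun p : NT.Dom T => fun n => (p.1.1 n).2)
    (by
      rw [measurable_pi_iff]
      intro n
      exact measurable_snd.comp ((measurable_pi_apply n).comp
        (measurable_fst.comp measurable_subtype_coe)))
    (fun _ => ⟨fun _ => false⟩)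
  have hφ' : ∀ p : NT.Dom T, φ (Ψ p) = fun n => (p.1.1 n).2 := fun p => congrFun hφ p
  refine ⟨range Ψ, φ, hemb.measurableSet_range, hφm, ?_, ?_⟩
  · intro x ν hν hν0
    obtain ⟨β, hβ1, hβ2⟩ := NT.exists_branch (T := T) hD x ν hν0
    refine ⟨g β, h β, fun h0 => hβ2 (measure_mono_null ?_ h0)⟩
    intro k hk
    refine ⟨⟨⟨(β, k), hk⟩, rfl⟩, ?_⟩
    have := hφ' ⟨(β, k), hk⟩
    simp only [hΨ] at this
    rw [this]
    funext n
    exact hβ1 n
  · rintro _ ⟨p₃, rfl⟩ _ ⟨p₂, rfl⟩ _ ⟨p₄, rfl⟩ _ ⟨p₁, rfl⟩ n1 n2 n3 n4 n5 n6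
    have hs : ∀ {p p' : NT.Dom T}, φ (Ψ p) ≠ φ (Ψ p') →
        ∃ m, ∀ n, m < n → Tree.pre p.1.1 n ≠ Tree.pre p'.1.1 n := by
      intro p p' hne
      apply exists_split
      intro h'
      apply hne
      rw [hφ', hφ', h']
    obtain ⟨m1, s1⟩ := hs n3.symm
    obtain ⟨m2, s2⟩ := hs n5.symm
    obtain ⟨m3, s3⟩ := hs n6.symm
    obtain ⟨m4, s4⟩ := hs n1.symm
    obtain ⟨m5, s5⟩ := hs n4
    obtain ⟨m6, s6⟩ := hs n2
    exact NT.no_rect hfine hP (hbr p₁.1 p₁.2) (hbr p₂.1 p₂.2) (hbr p₃.1 p₃.2) (hbr p₄.1 p₄.2)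
      (m₀ := m1 + m2 + m3 + m4 + m5 + m6) (fun n hn => s2 n (by omega))
      (fun n hn => s1 n (by omega)) (fun n hn => s3 n (by omega)) (fun n hn => s4 n (by omega))
      (fun n hn => s5 n (by omega)) (fun n hn => s6 n (by omega))

end Pool.Agent.HN
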