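import Pool.Agent.Helper61_HN.RectFree

/-!
# The two-sided tree in a non-archimedean group: data, known edges, forbidden edges
-/

set_option autoImplicit false
set_option linter.unusedSectionVars false

namespace Pool.Agent.HN

open Set Filter Topology MeasureTheory
open scoped ENNReal Pointwise

section Orbits

variable {G M : Type*} [Group G] [TopologicalSpace G] [MulAction G M]

/-- the orbit of a point under an open subgroup -/
def orb (A : OpenSubgroup G) (s : M) : Set M := {t | ∃ a ∈ A, a • s = t}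

theorem self_mem_orb (A : OpenSubgroup G) (s : M) : s ∈ orb A s := ⟨1, one_mem A, one_smul _ _⟩

theorem orb_mono {A A' : OpenSubgroup G} (h : A ≤ A') (s : M) : orb A s ⊆ orb A' s := by
  rintro t ⟨a, ha, rfl⟩
  exact ⟨a, h ha, rfl⟩

theorem orb_symm {A : OpenSubgroup G} {s t : M} (h : t ∈ orb A s) : s ∈ orb A t := by
  obtain ⟨a, ha, rfl⟩ := h
  exact ⟨a⁻¹, inv_mem ha, inv_smul_smul _ _⟩

theorem orb_eq {A : OpenSubgroup G} {s t : M} (h : t ∈ orb A s) : orb A t = orb A s := by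
  obtain ⟨a, ha, rfl⟩ := h
  ext u
  constructor
  · rintro ⟨b, hb, rfl⟩
    exact ⟨b * a, mul_mem hb ha, mul_smul _ _ _⟩
  · rintro ⟨b, hb, rfl⟩
    exact ⟨b * a⁻¹, mul_mem hb (inv_mem ha), by rw [mul_smul, inv_smul_smul]⟩

theorem orb_smul {A : OpenSubgroup G} {a : G} (ha : a ∈ A) (s : M) : orb A (a • s) = orb A s :=
  orb_eq ⟨a, ha, rfl⟩

/-- Neumann's lemma, for orbits. -/
theorem avoid (A : OpenSubgroup G) {S : Set (M × M)} (hS : S.Finite)
    (hinf : ∀ p ∈ S, ¬ (orb A p.1).Finite) : ∃ t ∈ A, ∀ p ∈ S, t • p.1 ≠ p.2 := by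
  classical
  by_contra hcon
  push Not at hcon
  set S' : Finset (M × M) := (hS.subset (sep_subset S fun p => p.2 ∈ orb A p.1)).toFinset with hS'
  have hS'm : ∀ p, p ∈ S' ↔ p ∈ S ∧ p.2 ∈ orb A p.1 := by
    intro p
    simp [hS']
  have hch : ∀ p : M × M, ∃ t : (A : Subgroup G), p.2 ∈ orb A p.1 → (t : G) • p.1 = p.2 := by
    intro p
    by_cases h : p.2 ∈ orb A p.1
    · obtain ⟨a, ha, h⟩ := h
      exact ⟨⟨a, ha⟩, fun _ => h⟩
    · exact ⟨1, fun h' => absurd h' h⟩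
  choose t ht using hch
  have hcov : ⋃ p ∈ S', (t p) • ((MulAction.stabilizer (A : Subgroup G) p.1 :
      Subgroup (A : Subgroup G)) : Set (A : Subgroup G)) = Set.univ := by
    rw [eq_univ_iff_forall]
    intro a
    obtain ⟨p, hp, hpa⟩ := hcon a a.2
    have hp2 : p.2 ∈ orb A p.1 := ⟨a, a.2, hpa⟩
    rw [mem_iUnion₂]
    refine ⟨p, (hS'm p).2 ⟨hp, hp2⟩, ?_⟩
    rw [mem_leftCoset_iff, SetLike.mem_coe, MulAction.mem_stabilizer_iff]
    have h1 : (t p : G) • p.1 = p.2 := ht p hp2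
    have h2 : (a : G) • p.1 = (t p : G) • p.1 := by rw [hpa, h1]
    rw [mul_smul]
    have h3 : a • p.1 = t p • p.1 := h2
    rw [h3, inv_smul_smul]
  obtain ⟨p, hp, hfin⟩ := Subgroup.exists_finiteIndex_of_leftCoset_cover hcov
  obtain ⟨hp1, hp2⟩ := (hS'm p).1 hp
  apply hinf p hp1
  have h1 : Finite ((A : Subgroup G) ⧸ MulAction.stabilizer (A : Subgroup G) p.1) :=
    Subgroup.finite_quotient_of_finiteIndex
  have h2 : Finite (MulAction.orbit (A : Subgroup G) p.1) :=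
    Finite.of_equiv _ (MulAction.orbitEquivQuotientStabilizer (A : Subgroup G) p.1).symm
  have h3 : (MulAction.orbit (A : Subgroup G) p.1).Finite := h2
  refine h3.subset ?_
  rintro s ⟨a, ha, rfl⟩
  exact ⟨⟨a, ha⟩, rfl⟩

/-- the set if it is finite, the empty set otherwise -/
def tr (S : Set M) : Set M := {t | t ∈ S ∧ S.Finite}

theorem tr_finite (S : Set M) : (tr S).Finite := by
  by_cases h : S.Finite
  · exact h.subset fun t ht => ht.1
  · have : tr S = ∅ := by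
      ext t
      simp [tr, h]
    rw [this]
    exact finite_empty

end Orbits

/-- the data of a node -/
structure Dat (G : Type*) [Group G] [TopologicalSpace G] where
  U : G
  V : G
  A : OpenSubgroup G
  B : OpenSubgroup G

instance {G : Type*} [Group G] [TopologicalSpace G] : Inhabited (Dat G) := ⟨⟨1, 1, ⊤, ⊤⟩⟩

section Rel

variable {G M : Type*} [Group G] [TopologicalSpace G] [MulAction G M]

/-- `m` is one of the finitely many known values at `c` -/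
def KR (D : ℕ → G) (x : Dat G) (N : ℕ) (c m : M) : Prop :=
  ∃ l ≤ N, ∃ b ∈ orb x.B (x.V • c), (orb x.B (x.V • c)).Finite ∧ (orb x.A (D l • b)).Finite ∧
    x.U⁻¹ • m ∈ orb x.A (D l • b)

theorem KR.mono {D : ℕ → G} {x : Dat G} {N N' : ℕ} (h : N ≤ N') {c m : M} (hk : KR D x N c m) :
    KR D x N' c m := by
  obtain ⟨l, hl, r⟩ := hk
  exact ⟨l, hl.trans h, r⟩

theorem KR_finite_right (D : ℕ → G) (x : Dat G) (N : ℕ) (c : M) : {m | KR D x N c m}.Finite := by
  have h : (⋃ l ∈ Iic N, ⋃ b ∈ tr (orb x.B (x.V • c)),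
      (fun s => x.U • s) '' tr (orb x.A (D l • b))).Finite :=
    Set.Finite.biUnion (finite_Iic N) fun l _ =>
      Set.Finite.biUnion (tr_finite _) fun b _ => (tr_finite _).image _
  refine h.subset ?_
  rintro m ⟨l, hl, b, hb, h1, h2, h3⟩
  simp only [mem_iUnion, mem_image]
  exact ⟨l, hl, b, ⟨hb, h1⟩, x.U⁻¹ • m, ⟨h3, h2⟩, smul_inv_smul _ _⟩

theorem KR_finite_left (D : ℕ → G) (x : Dat G) (N : ℕ) (m : M) : {c | KR D x N c m}.Finite := by
  have h : (⋃ l ∈ Iic N, ⋃ s ∈ tr (orb x.A (x.U⁻¹ • m)),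
      (fun s => x.V⁻¹ • s) '' tr (orb x.B ((D l)⁻¹ • s))).Finite :=
    Set.Finite.biUnion (finite_Iic N) fun l _ =>
      Set.Finite.biUnion (tr_finite _) fun b _ => (tr_finite _).image _
  refine h.subset ?_
  rintro c ⟨l, hl, b, hb, h1, h2, h3⟩
  simp only [mem_iUnion, mem_image]
  refine ⟨l, hl, D l • b, ⟨orb_symm h3, ?_⟩, x.V • c, ⟨?_, ?_⟩, inv_smul_smul _ _⟩
  · rw [orb_eq h3]
    exact h2
  · rw [inv_smul_smul]
    exact orb_symm hb
  · rw [inv_smul_smul, orb_eq hb]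
    exact h1

/-- the edges known before stage `n` -/
def R (D : ℕ → G) (c : ℕ → Dat G) (n : ℕ) (q m : M) : Prop := ∃ i < n, KR D (c i) n q m

theorem R_finite_right (D : ℕ → G) (c : ℕ → Dat G) (n : ℕ) (q : M) : {m | R D c n q m}.Finite := by
  have h : (⋃ i ∈ Iio n, {m | KR D (c i) n q m}).Finite :=
    Set.Finite.biUnion (finite_Iio n) fun i _ => KR_finite_right _ _ _ _
  refine h.subset ?_
  rintro m ⟨i, hi, hm⟩
  simp only [mem_iUnion]
  exact ⟨i, hi, hm⟩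

theorem R_finite_left (D : ℕ → G) (c : ℕ → Dat G) (n : ℕ) (m : M) : {q | R D c n q m}.Finite := by
  have h : (⋃ i ∈ Iio n, {q | KR D (c i) n q m}).Finite :=
    Set.Finite.biUnion (finite_Iio n) fun i _ => KR_finite_left _ _ _ _
  refine h.subset ?_
  rintro q ⟨i, hi, hq⟩
  simp only [mem_iUnion]
  exact ⟨i, hi, hq⟩

/-- the edges which must be avoided at stage `n` -/
def Forb (D : ℕ → G) (P : OpenSubgroup G → M) (c : ℕ → Dat G) (n : ℕ) (q m : M) : Prop :=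
  ∃ i < n,
    (q = (c i).V⁻¹ • P (c i).B ∧
      ∃ m' q', R D c n ((c i).V⁻¹ • P (c i).B) m' ∧ R D c n q' m' ∧ R D c n q' m) ∨
    (R D c n ((c i).V⁻¹ • P (c i).B) m ∧
      ∃ m', R D c n ((c i).V⁻¹ • P (c i).B) m' ∧ R D c n q m')

theorem Forb_finite (D : ℕ → G) (P : OpenSubgroup G → M) (c : ℕ → Dat G) (n : ℕ) :
    {p : M × M | Forb D P c n p.1 p.2}.Finite := by
  set x : ℕ → M := fun i => (c i).V⁻¹ • P (c i).B with hx
  have h1 : (⋃ i ∈ Iio n, ⋃ m' ∈ {m' | R D c n (x i) m'}, ⋃ q' ∈ {q' | R D c n q' m'},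
      (fun m => (x i, m)) '' {m | R D c n q' m}).Finite :=
    Set.Finite.biUnion (finite_Iio n) fun i _ =>
      Set.Finite.biUnion (R_finite_right _ _ _ _) fun m' _ =>
        Set.Finite.biUnion (R_finite_left _ _ _ _) fun q' _ => (R_finite_right _ _ _ _).image _
  have h2 : (⋃ i ∈ Iio n, ⋃ m' ∈ {m' | R D c n (x i) m'},
      {q | R D c n q m'} ×ˢ {m | R D c n (x i) m}).Finite :=
    Set.Finite.biUnion (finite_Iio n) fun i _ =>
      Set.Finite.biUnion (R_finite_right _ _ _ _) fun m' _ =>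
        (R_finite_left _ _ _ _).prod (R_finite_right _ _ _ _)
  refine (h1.union h2).subset ?_
  rintro ⟨q, m⟩ ⟨i, hi, ⟨h3, m', q', h4, h5, h6⟩ | ⟨h3, m', h4, h5⟩⟩
  · left
    simp only [mem_iUnion, mem_image]
    exact ⟨i, hi, m', h4, q', h5, m, h6, by simp only at h3; rw [h3]⟩
  · right
    simp only [mem_iUnion, mem_prod]
    exact ⟨i, hi, m', h4, h5, h3⟩

theorem R_congr (D : ℕ → G) {c c' : ℕ → Dat G} {n : ℕ} (h : ∀ i < n, c i = c' i) (q m : M) :
    R D c n q m ↔ R D c' n q m := by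
  constructor
  · rintro ⟨i, hi, hm⟩
    exact ⟨i, hi, h i hi ▸ hm⟩
  · rintro ⟨i, hi, hm⟩
    exact ⟨i, hi, (h i hi).symm ▸ hm⟩

theorem Forb_congr (D : ℕ → G) (P : OpenSubgroup G → M) {c c' : ℕ → Dat G} {n : ℕ}
    (h : ∀ i < n, c i = c' i) : Forb D P c n = Forb D P c' n := by
  funext q m
  simp only [Forb, R_congr D h, eq_iff_iff]
  constructor
  · rintro ⟨i, hi, hh⟩
    refine ⟨i, hi, ?_⟩
    rw [← h i hi]
    exact hh
  · rintro ⟨i, hi, hh⟩
    refine ⟨i, hi, ?_⟩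
    rw [h i hi]
    exact hh

/-- a step on the left side -/
structure StepG (D : ℕ → G) (en : ℕ → M) (δ : G → G → ℝ) (len N : ℕ) (x : Dat G)
    (F : M → M → Prop) (a : Dat G) : Prop where
  V : a.V = x.V
  B : a.B = x.B
  U : x.U⁻¹ * a.U ∈ x.A
  A : a.A ≤ x.A
  small : ∀ y ∈ a.A, δ a.U (a.U * y) < (1 / 2) ^ len
  fix : ∀ i ≤ len, ∀ y ∈ a.A, y • en i = en i
  fresh : ∀ q m, F q m → (orb x.B (x.V • q)).Finite → ∀ l ≤ N, ∀ b ∈ orb x.B (x.V • q),
    ¬ (orb x.A (D l • b)).Finite → ∀ y ∈ a.A, (a.U * y) • (D l • b) ≠ m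

/-- a step on the right side -/
structure StepH (D : ℕ → G) (en : ℕ → M) (δ : G → G → ℝ) (len N : ℕ) (x : Dat G)
    (F : M → M → Prop) (a : Dat G) : Prop where
  U : a.U = x.U
  A : a.A = x.A
  V : a.V * x.V⁻¹ ∈ x.B
  B : a.B ≤ x.B
  small : ∀ y ∈ a.B, δ a.V (y * a.V) < (1 / 2) ^ len
  fix : ∀ i ≤ len, ∀ y ∈ a.B, y • en i = en i
  fresh : ∀ q m, F q m → (orb x.A (x.U⁻¹ • m)).Finite → ∀ l ≤ N,
    ∀ s ∈ orb x.A (x.U⁻¹ • m), ¬ (orb x.B (x.V • q)).Finite →
      ∀ y ∈ a.B, (y * a.V) • q ≠ (D l)⁻¹ • s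

end Rel

section Steps

variable {G M : Type*} [Group G] [TopologicalSpace G] [IsTopologicalGroup G] [MulAction G M]

theorem exists_small (hNA : ∀ W ∈ 𝓝 (1 : G), ∃ A : OpenSubgroup G, (A : Set G) ⊆ W)
    (hst : ∀ s : M, {g : G | g • s = s} ∈ 𝓝 (1 : G)) (en : ℕ → M) (len : ℕ) {T : Set M}
    (hT : T.Finite) (A : OpenSubgroup G) {W : Set G} (hW : W ∈ 𝓝 (1 : G)) :
    ∃ A' : OpenSubgroup G, A' ≤ A ∧ (∀ y ∈ A', y ∈ W) ∧ (∀ i ≤ len, ∀ y ∈ A', y • en i = en i) ∧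
      ∀ s ∈ T, ∀ y ∈ A', y • s = s := by
  have h1 : (⋂ s ∈ T, {g : G | g • s = s}) ∈ 𝓝 (1 : G) := (biInter_mem hT).2 fun s _ => hst s
  have h2 : (⋂ i ∈ Iic len, {g : G | g • en i = en i}) ∈ 𝓝 (1 : G) :=
    (biInter_mem (finite_Iic len)).2 fun i _ => hst _
  have h3 : (A : Set G) ∈ 𝓝 (1 : G) := A.mem_nhds_one
  obtain ⟨A', hA'⟩ := hNA _ (inter_mem (inter_mem h3 hW) (inter_mem h1 h2))
  refine ⟨A', fun y hy => (hA' hy).1.1, fun y hy => (hA' hy).1.2, ?_, ?_⟩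
  · intro i hi y hy
    exact mem_iInter₂.1 (hA' hy).2.2 i hi
  · intro s hs y hy
    exact mem_iInter₂.1 (hA' hy).2.1 s hs

theorem exists_stepG (hNA : ∀ W ∈ 𝓝 (1 : G), ∃ A : OpenSubgroup G, (A : Set G) ⊆ W)
    (hst : ∀ s : M, {g : G | g • s = s} ∈ 𝓝 (1 : G)) (D : ℕ → G) (en : ℕ → M) {δ : G → G → ℝ}
    (hδ : ∀ x : G, ∀ ε > 0, ∀ᶠ y in 𝓝 x, δ x y < ε) (len N : ℕ) (x : Dat G)
    {F : M → M → Prop} (hF : {p : M × M | F p.1 p.2}.Finite) : ∃ a, StepG D en δ len N x F a := by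
  set S : Set (M × M) := {p | ¬ (orb x.A p.1).Finite} ∩
    ⋃ p ∈ {p : M × M | F p.1 p.2}, ⋃ l ∈ Iic N,
      (fun b => (D l • b, x.U⁻¹ • p.2)) '' tr (orb x.B (x.V • p.1)) with hS
  have hSf : S.Finite := (Set.Finite.biUnion hF fun p _ =>
    Set.Finite.biUnion (finite_Iic N) fun l _ => (tr_finite _).image _).subset inter_subset_right
  obtain ⟨t, htA, ht⟩ := avoid x.A hSf fun p hp => hp.1
  have hW : {y : G | δ (x.U * t) (x.U * t * y) < (1 / 2) ^ len} ∈ 𝓝 (1 : G) := by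
    have hc : ContinuousAt (fun y : G => x.U * t * y) 1 := by fun_prop
    have h0 := hδ (x.U * t) ((1 / 2) ^ len) (by positivity)
    have h1 : Tendsto (fun y : G => x.U * t * y) (𝓝 1) (𝓝 (x.U * t)) := by
      have := hc.tendsto
      rwa [mul_one] at this
    exact h1.eventually h0
  obtain ⟨A', h1, h2, h3, h4⟩ := exists_small hNA hst en len (hSf.image Prod.fst) x.A hW
  refine ⟨⟨x.U * t, x.V, A', x.B⟩, rfl, rfl, ?_, h1, h2, h3, ?_⟩
  · simpa using htA
  · intro q m hqm hfin l hl b hb hinf y hy heq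
    have hmem : (D l • b, x.U⁻¹ • m) ∈ S := by
      refine ⟨hinf, ?_⟩
      simp only [mem_iUnion, mem_image]
      exact ⟨(q, m), hqm, l, hl, b, ⟨hb, hfin⟩, rfl⟩
    apply ht _ hmem
    simp only
    rw [← heq, mul_smul (x.U * t) y, h4 _ ⟨_, hmem, rfl⟩ y hy, mul_smul, inv_smul_smul]

theorem exists_stepH (hNA : ∀ W ∈ 𝓝 (1 : G), ∃ A : OpenSubgroup G, (A : Set G) ⊆ W)
    (hst : ∀ s : M, {g : G | g • s = s} ∈ 𝓝 (1 : G)) (D : ℕ → G) (en : ℕ → M) {δ : G → G → ℝ}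
    (hδ : ∀ x : G, ∀ ε > 0, ∀ᶠ y in 𝓝 x, δ x y < ε) (len N : ℕ) (x : Dat G)
    {F : M → M → Prop} (hF : {p : M × M | F p.1 p.2}.Finite) : ∃ a, StepH D en δ len N x F a := by
  set S : Set (M × M) := {p | ¬ (orb x.B p.1).Finite} ∩
    ⋃ p ∈ {p : M × M | F p.1 p.2}, ⋃ l ∈ Iic N,
      (fun s => (x.V • p.1, (D l)⁻¹ • s)) '' tr (orb x.A (x.U⁻¹ • p.2)) with hS
  have hSf : S.Finite := (Set.Finite.biUnion hF fun p _ =>
    Set.Finite.biUnion (finite_Iic N) fun l _ => (tr_finite _).image _).subset inter_subset_right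
  obtain ⟨t, htB, ht⟩ := avoid x.B hSf fun p hp => hp.1
  have hW : {y : G | δ (t * x.V) (y * (t * x.V)) < (1 / 2) ^ len} ∈ 𝓝 (1 : G) := by
    have hc : ContinuousAt (fun y : G => y * (t * x.V)) 1 := by fun_prop
    have h0 := hδ (t * x.V) ((1 / 2) ^ len) (by positivity)
    have h1 : Tendsto (fun y : G => y * (t * x.V)) (𝓝 1) (𝓝 (t * x.V)) := by
      have := hc.tendsto
      rwa [one_mul] at this
    exact h1.eventually h0
  obtain ⟨B', h1, h2, h3, h4⟩ := exists_small hNA hst en len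
    (hSf.image fun p => t • p.1) x.B hW
  refine ⟨⟨x.U, t * x.V, x.A, B'⟩, rfl, rfl, ?_, h1, h2, h3, ?_⟩
  · simpa using htB
  · intro q m hqm hfin l hl s hs hinf y hy heq
    have hmem : (x.V • q, (D l)⁻¹ • s) ∈ S := by
      refine ⟨hinf, ?_⟩
      simp only [mem_iUnion, mem_image]
      exact ⟨(q, m), hqm, l, hl, s, ⟨hs, hfin⟩, rfl⟩
    apply ht _ hmem
    simp only
    rw [← heq, mul_smul y (t * x.V), mul_smul t x.V, h4 _ ⟨_, hmem, rfl⟩ y hy]

end Steps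

/-- **The tree.** -/
structure NT {G M : Type*} [Group G] [TopologicalSpace G] [MulAction G M] (D : ℕ → G)
    (en : ℕ → M) (P : OpenSubgroup G → M) (δ : G → G → ℝ) where
  c : ℕ → Dat G
  root : c 0 = default
  stepG : ∀ (N : ℕ) (b : Bool) (τ : Node), Even τ.length →
    StepG D en δ τ.length N (c (Encodable.encode τ))
      (Forb D P c (Encodable.encode ((N, b) :: τ))) (c (Encodable.encode ((N, b) :: τ)))
  stepH : ∀ (N : ℕ) (b : Bool) (τ : Node), ¬ Even τ.length →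
    StepH D en δ τ.length N (c (Encodable.encode τ))
      (Forb D P c (Encodable.encode ((N, b) :: τ))) (c (Encodable.encode ((N, b) :: τ)))

theorem exists_NT {G M : Type*} [Group G] [TopologicalSpace G] [IsTopologicalGroup G]
    [MulAction G M] (hNA : ∀ W ∈ 𝓝 (1 : G), ∃ A : OpenSubgroup G, (A : Set G) ⊆ W)
    (hst : ∀ s : M, {g : G | g • s = s} ∈ 𝓝 (1 : G)) (D : ℕ → G) (en : ℕ → M)
    (P : OpenSubgroup G → M) {δ : G → G → ℝ} (hδ : ∀ x : G, ∀ ε > 0, ∀ᶠ y in 𝓝 x, δ x y < ε) :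
    Nonempty (NT D en P δ) := by
  classical
  obtain ⟨c, hc⟩ := exists_local_seq
    (fun n (c : ℕ → Dat G) a => (n = 0 → a = default) ∧
      ∀ N b (τ : Node), Encodable.encode ((N, b) :: τ) = n →
        (Even τ.length → StepG D en δ τ.length N (c (Encodable.encode τ)) (Forb D P c n) a) ∧
        (¬ Even τ.length → StepH D en δ τ.length N (c (Encodable.encode τ)) (Forb D P c n) a))
    (by
      intro n c c' a h hP
      refine ⟨hP.1, fun N b τ hn => ?_⟩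
      obtain ⟨h1, h2⟩ := hP.2 N b τ hn
      rw [← h _ (by rw [← hn]; exact encode_tail_lt _ _), ← Forb_congr D P h]
      exact ⟨h1, h2⟩)
    (by
      intro n c
      by_cases hn : ∃ (N : ℕ) (b : Bool) (τ : Node), Encodable.encode ((N, b) :: τ) = n
      swap
      · exact ⟨default, fun _ => rfl, fun N b τ h => absurd ⟨N, b, τ, h⟩ hn⟩
      obtain ⟨N, b, τ, hn⟩ := hn
      have hn0 : n ≠ 0 := by
        have := encode_tail_lt (N, b) τ
        omega
      have huniq : ∀ N' b' (τ' : Node), Encodable.encode ((N', b') :: τ') = n →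
          N' = N ∧ b' = b ∧ τ' = τ := by
        intro N' b' τ' hn'
        have heq := Encodable.encode_injective (hn'.trans hn.symm)
        simp only [List.cons.injEq, Prod.mk.injEq] at heq
        exact ⟨heq.1.1, heq.1.2, heq.2⟩
      by_cases hev : Even τ.length
      · obtain ⟨a, ha⟩ := exists_stepG hNA hst D en hδ τ.length N (c (Encodable.encode τ))
          (Forb_finite D P c n)
        refine ⟨a, fun h0 => absurd h0 hn0, fun N' b' τ' hn' => ?_⟩
        obtain ⟨rfl, rfl, rfl⟩ := huniq N' b' τ' hn'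
        exact ⟨fun _ => ha, fun h => absurd hev h⟩
      · obtain ⟨a, ha⟩ := exists_stepH hNA hst D en hδ τ.length N (c (Encodable.encode τ))
          (Forb_finite D P c n)
        refine ⟨a, fun h0 => absurd h0 hn0, fun N' b' τ' hn' => ?_⟩
        obtain ⟨rfl, rfl, rfl⟩ := huniq N' b' τ' hn'
        exact ⟨fun h => absurd h hev, fun _ => ha⟩)
  exact ⟨⟨c, (hc 0).1 rfl, fun N b τ h => ((hc _).2 N b τ rfl).1 h,
    fun N b τ h => ((hc _).2 N b τ rfl).2 h⟩⟩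

end Pool.Agent.HN
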