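import Pool.Agent.Helper61_HN.Criterion

/-!
# Rectangle-free sets, and their transport along surjections and open subgroups
-/

set_option autoImplicit false
set_option linter.unusedSectionVars false

namespace Pool.Agent.HN

open MeasureTheory Set Filter Topology
open scoped ENNReal

/-- There are a Borel set and a Borel coding of its points by binary sequences such that every
nonzero finite measure charges a translate of every fibre, and no four points with different codes
form a rectangle. -/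
def RectFree (Q : Type*) [Group Q] [MeasurableSpace Q] : Prop :=
  ∃ (F : Set Q) (φ : Q → (ℕ → Bool)), MeasurableSet F ∧ Measurable φ ∧
    (∀ (x : ℕ → Bool) (ν : Measure Q), IsFiniteMeasure ν → ν univ ≠ 0 →
      ∃ g h : Q, ν {k | g * k * h ∈ F ∧ φ (g * k * h) = x} ≠ 0) ∧
    (∀ z₀₀ ∈ F, ∀ z₁₀ ∈ F, ∀ z₀₁ ∈ F, ∀ z₁₁ ∈ F, φ z₀₀ ≠ φ z₁₀ → φ z₀₀ ≠ φ z₀₁ →
      φ z₀₀ ≠ φ z₁₁ → φ z₁₀ ≠ φ z₀₁ → φ z₁₀ ≠ φ z₁₁ → φ z₀₁ ≠ φ z₁₁ →
      z₁₁ ≠ z₁₀ * z₀₀⁻¹ * z₀₁)

theorem RectFree.surj {G Q : Type*} [Group G] [MeasurableSpace G] [MeasurableMul G] [Group Q]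
    [MeasurableSpace Q] [MeasurableMul Q] (hQ : RectFree Q) (π : G →* Q) (hπ : Measurable π)
    (hsurj : Function.Surjective π) : RectFree G := by
  obtain ⟨F, φ, hF, hφ, hcap, hrect⟩ := hQ
  refine ⟨π ⁻¹' F, φ ∘ π, hπ hF, hφ.comp hπ, ?_, ?_⟩
  · intro x ν hν hν0
    have hν' : IsFiniteMeasure (ν.map π) := inferInstance
    have h0 : (ν.map π) univ ≠ 0 := by
      rw [Measure.map_apply hπ MeasurableSet.univ, preimage_univ]
      exact hν0
    obtain ⟨g, h, hgh⟩ := hcap x (ν.map π) hν' h0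
    obtain ⟨g', rfl⟩ := hsurj g
    obtain ⟨h', rfl⟩ := hsurj h
    refine ⟨g', h', ?_⟩
    have hm : Measurable fun q : Q => π g' * q * π h' :=
      (measurable_const_mul (π g')).mul_const (π h')
    have hS : MeasurableSet {k : Q | π g' * k * π h' ∈ F ∧ φ (π g' * k * π h') = x} :=
      (hm hF).inter ((hφ.comp hm) (MeasurableSet.singleton x))
    rw [Measure.map_apply hπ hS] at hgh
    convert hgh using 2
    ext k
    simp only [mem_ofPred_eq, mem_preimage, Function.comp, map_mul]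
  · intro z₀₀ h₀₀ z₁₀ h₁₀ z₀₁ h₀₁ z₁₁ h₁₁ n1 n2 n3 n4 n5 n6 hrel
    apply hrect _ h₀₀ _ h₁₀ _ h₀₁ _ h₁₁ n1 n2 n3 n4 n5 n6
    rw [hrel]
    simp only [map_mul, map_inv]

theorem RectFree.openSubgroup {G : Type*} [Group G] [TopologicalSpace G] [IsTopologicalGroup G]
    [TopologicalSpace.SeparableSpace G] [MeasurableSpace G] [BorelSpace G] {H : Subgroup G}
    (hH : IsOpen (H : Set G)) (hQ : RectFree H) : RectFree G := by
  obtain ⟨F, φ, hF, hφ, hcap, hrect⟩ := hQ
  have hemb : MeasurableEmbedding ((↑) : H → G) := MeasurableEmbedding.subtype_coe hH.measurableSet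
  obtain ⟨ψ, hψ, hψφ⟩ := hemb.exists_measurable_extend hφ (fun _ => ⟨fun _ => false⟩)
  have hψφ' : ∀ k : H, ψ k = φ k := fun k => congrFun hψφ k
  refine ⟨((↑) : H → G) '' F, ψ, hemb.measurableSet_image.2 hF, hψ, ?_, ?_⟩
  · intro x ν hν hν0
    -- a coset of positive measure
    obtain ⟨c, hc⟩ : ∃ c : G, ν ((fun q => c * q) '' (H : Set G)) ≠ 0 := by
      by_contra hcon
      push Not at hcon
      have h1 : (⋃ n, (fun q => TopologicalSpace.denseSeq G n * q) '' (H : Set G)) = univ := by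
        rw [eq_univ_iff_forall]
        intro q
        have hopen : IsOpen ((fun h => q * h) '' (H : Set G)) :=
          (Homeomorph.mulLeft q).isOpenMap _ hH
        obtain ⟨n, hn⟩ := (TopologicalSpace.denseRange_denseSeq G).exists_mem_open hopen
          ⟨q, 1, H.one_mem, mul_one q⟩
        obtain ⟨h, hh, hqh⟩ := hn
        rw [mem_iUnion]
        refine ⟨n, h⁻¹, H.inv_mem hh, ?_⟩
        simp only at hqh ⊢
        rw [← hqh]
        group
      exact hν0 (by rw [← h1]; exact measure_iUnion_null fun n => hcon _)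
    set f : H → G := fun k => c * k with hf
    have hfemb : MeasurableEmbedding f :=
      (Homeomorph.mulLeft c).measurableEmbedding.comp hemb
    have hrange : range f = (fun q => c * q) '' (H : Set G) := by
      ext q
      constructor
      · rintro ⟨k, rfl⟩
        exact ⟨k, k.2, rfl⟩
      · rintro ⟨k, hk, rfl⟩
        exact ⟨⟨k, hk⟩, rfl⟩
    set νH : Measure H := ν.comap f with hνH
    have hνHapp : ∀ S : Set H, νH S = ν (f '' S) := fun S => hfemb.comap_apply _ _
    have hfin : IsFiniteMeasure νH := ⟨by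
      rw [hνHapp]
      exact measure_lt_top _ _⟩
    have huniv : νH univ ≠ 0 := by
      rw [hνHapp, image_univ, hrange]
      exact hc
    obtain ⟨g, h, hg⟩ := hcap x νH hfin huniv
    refine ⟨(g : G) * c⁻¹, h, ?_⟩
    rw [hνHapp] at hg
    have hsub : f '' {k | g * k * h ∈ F ∧ φ (g * k * h) = x} ⊆
        {q : G | (g : G) * c⁻¹ * q * h ∈ ((↑) : H → G) '' F ∧
          ψ ((g : G) * c⁻¹ * q * h) = x} := by
      rintro _ ⟨k, ⟨hk1, hk2⟩, rfl⟩
      have e : (g : G) * c⁻¹ * f k * h = ((g * k * h : H) : G) := by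
        simp only [hf, Subgroup.coe_mul]
        group
      simp only [mem_ofPred_eq, e]
      exact ⟨⟨_, hk1, rfl⟩, by rw [hψφ']; exact hk2⟩
    exact fun h0 => hg (measure_mono_null hsub h0)
  · rintro z₀₀ ⟨a, ha, rfl⟩ z₁₀ ⟨b, hb, rfl⟩ z₀₁ ⟨c, hc, rfl⟩ z₁₁ ⟨e, he, rfl⟩
    simp only [hψφ']
    intro n1 n2 n3 n4 n5 n6 hrel
    apply hrect _ ha _ hb _ hc _ he n1 n2 n3 n4 n5 n6
    apply Subtype.val_injective
    simpa using hrel

theorem RectFree.main {G : Type*} [Group G] [TopologicalSpace G] [IsTopologicalGroup G]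
    [PolishSpace G] [MeasurableSpace G] [BorelSpace G] (hG : RectFree G) :
    ∃ A : Set G, GenHaarNull A ∧ ¬ HaarNull A := by
  obtain ⟨F, φ, hF, hφ, hcap, hrect⟩ := hG
  refine criterion_rect hF hφ ?_ hrect
  intro x ν hν
  exact hcap x ν inferInstance (by simp)

end Pool.Agent.HN
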