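import Pool.Agent.Helper61_HN.Analytic

/-!
# A universally measurable uniformization, and the diagonal set
-/

set_option autoImplicit false
set_option linter.unusedSectionVars false

namespace Pool.Agent.HN

open MeasureTheory Set Filter Topology
open scoped ENNReal

/-- null-measurable for every finite Borel measure -/
def UM {X : Type*} [MeasurableSpace X] (S : Set X) : Prop :=
  ∀ ν : Measure X, IsFiniteMeasure ν → NullMeasurableSet S ν

theorem UM.inter {X : Type*} [MeasurableSpace X] {S T : Set X} (hS : UM S) (hT : UM T) :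
    UM (S ∩ T) := fun ν hν => (hS ν hν).inter (hT ν hν)

theorem UM.compl {X : Type*} [MeasurableSpace X] {S : Set X} (hS : UM S) : UM Sᶜ :=
  fun ν hν => (hS ν hν).compl

theorem UM.iInter {X ι : Type*} [Countable ι] [MeasurableSpace X] {S : ι → Set X}
    (hS : ∀ i, UM (S i)) : UM (⋂ i, S i) :=
  fun ν hν => NullMeasurableSet.iInter fun i => hS i ν hν

theorem UM.iUnion {X ι : Type*} [Countable ι] [MeasurableSpace X] {S : ι → Set X}
    (hS : ∀ i, UM (S i)) : UM (⋃ i, S i) :=
  fun ν hν => NullMeasurableSet.iUnion fun i => hS i ν hν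

theorem UM.preimage {X Y : Type*} [MeasurableSpace X] [MeasurableSpace Y] {S : Set Y}
    (hS : UM S) {f : X → Y} (hf : Measurable f) : UM (f ⁻¹' S) := by
  intro ν hν
  have : IsFiniteMeasure (ν.map f) := by infer_instance
  exact (hS (ν.map f) this).preimage (hf.measurePreserving ν).quasiMeasurePreserving

theorem UM.of_measurable {X : Type*} [MeasurableSpace X] {S : Set X} (hS : MeasurableSet S) :
    UM S := fun _ _ => hS.nullMeasurableSet

theorem UM.of_analytic {X : Type*} [TopologicalSpace X] [T2Space X] [MeasurableSpace X]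
    [BorelSpace X] {S : Set X} (hS : AnalyticSet S) : UM S :=
  fun ν _ => analytic_nullMeasurable hS ν

/-- cylinder of a finite sequence -/
def cyl (s : List ℕ) : Set (ℕ → ℕ) := {z | (List.range s.length).map z = s}

theorem mem_cyl_append {s : List ℕ} {n : ℕ} {z : ℕ → ℕ} :
    z ∈ cyl (s ++ [n]) ↔ z ∈ cyl s ∧ z s.length = n := by
  simp only [cyl, mem_ofPred_eq, List.length_append, List.length_singleton, List.range_succ,
    List.map_append, List.map_cons, List.map_nil]
  constructor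
  · intro h
    have h1 := List.append_inj_left' h rfl
    have h2 := List.append_inj_right' h rfl
    exact ⟨h1, by simpa using h2⟩
  · rintro ⟨h1, h2⟩
    rw [h1, h2]

theorem mem_cyl_nil (z : ℕ → ℕ) : z ∈ cyl [] := by simp [cyl]

theorem isOpen_cyl (s : List ℕ) : IsOpen (cyl s) := by
  have : cyl s = ⋂ i : Fin s.length, {z : ℕ → ℕ | z i = s[i]} := by
    ext z
    simp only [cyl, mem_ofPred_eq, mem_iInter]
    constructor
    · intro h i
      have h1 : (List.map z (List.range s.length))[(i : ℕ)]'(by simp) = s[(i : ℕ)] := by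
        simp only [h]
      simpa using h1
    · intro h
      apply List.ext_getElem
      · simp
      · intro i h1 h2
        have := h ⟨i, h2⟩
        simpa using this
  rw [this]
  refine isOpen_iInter_of_finite fun i => ?_
  have h1 : IsOpen ({s[i]} : Set ℕ) := isOpen_discrete _
  have h2 : Continuous fun z : ℕ → ℕ => z i := continuous_apply (i : ℕ)
  exact h1.preimage h2

section Unif

variable {Y : Type*} (f₂ : (ℕ → ℕ) → Y)

open Classical in
/-- the prefixes of the lexicographically least element of the fibre of `x` -/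
noncomputable def lms (x : Y) : ℕ → List ℕ
  | 0 => []
  | k + 1 => lms x k ++ [sInf {n | x ∈ f₂ '' cyl (lms x k ++ [n])}]

/-- the lexicographically least element of the fibre of `x` -/
noncomputable def lm (x : Y) (k : ℕ) : ℕ := sInf {n | x ∈ f₂ '' cyl (lms f₂ x k ++ [n])}

@[simp] theorem length_lms (x : Y) (k : ℕ) : (lms f₂ x k).length = k := by
  induction k with
  | zero => rfl
  | succ k ih => simp [lms, ih]

theorem lm_mem_cyl (x : Y) (k : ℕ) : lm f₂ x ∈ cyl (lms f₂ x k) := by
  induction k with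
  | zero => exact mem_cyl_nil _
  | succ k ih =>
    rw [lms, mem_cyl_append]
    exact ⟨ih, by rw [length_lms]; rfl⟩

theorem exists_ext {x : Y} {s : List ℕ} (h : x ∈ f₂ '' cyl s) :
    {n | x ∈ f₂ '' cyl (s ++ [n])}.Nonempty := by
  obtain ⟨z, hz, rfl⟩ := h
  exact ⟨z s.length, z, mem_cyl_append.2 ⟨hz, rfl⟩, rfl⟩

theorem mem_image_lms {x : Y} (hx : x ∈ range f₂) (k : ℕ) : x ∈ f₂ '' cyl (lms f₂ x k) := by
  induction k with
  | zero =>
    obtain ⟨z, rfl⟩ := hx
    exact ⟨z, mem_cyl_nil z, rfl⟩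
  | succ k ih => exact Nat.sInf_mem (exists_ext f₂ ih)

theorem eq_of_mem_cyl_lms {x : Y} {z : ℕ → ℕ} {k : ℕ} (hz : z ∈ cyl (lms f₂ x k)) {i : ℕ}
    (hi : i < k) : z i = lm f₂ x i := by
  induction k with
  | zero => omega
  | succ k ih =>
    rw [lms, mem_cyl_append, length_lms] at hz
    rcases Nat.lt_succ_iff_lt_or_eq.1 hi with hi | rfl
    · exact ih hz.1 hi
    · exact hz.2

variable [TopologicalSpace Y] [T2Space Y]

theorem f₂_lm (hf : Continuous f₂) {x : Y} (hx : x ∈ range f₂) : f₂ (lm f₂ x) = x := by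
  choose w hw1 hw2 using fun k => mem_image_lms f₂ hx k
  have hlim : Tendsto w atTop (𝓝 (lm f₂ x)) := by
    rw [tendsto_pi_nhds]
    intro i
    apply tendsto_const_nhds.congr'
    filter_upwards [eventually_gt_atTop i] with k hk
    exact (eq_of_mem_cyl_lms f₂ (hw1 k) hk).symm
  have h1 := (hf.tendsto (lm f₂ x)).comp hlim
  refine tendsto_nhds_unique h1 ?_
  have : f₂ ∘ w = fun _ => x := funext hw2
  rw [this]
  exact tendsto_const_nhds

/-- points whose leftmost fibre element starts with `s` -/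
def Zs (s : List ℕ) : Set Y := {x | x ∈ range f₂ ∧ lms f₂ x s.length = s}

theorem Zs_append (s : List ℕ) (n : ℕ) :
    Zs f₂ (s ++ [n]) = Zs f₂ s ∩ f₂ '' cyl (s ++ [n]) ∩ ⋂ m : Fin n, (f₂ '' cyl (s ++ [(m : ℕ)]))ᶜ := by
  ext x
  simp only [Zs, mem_ofPred_eq, mem_inter_iff, mem_iInter, mem_compl_iff, List.length_append,
    List.length_singleton]
  constructor
  · rintro ⟨hx, h⟩
    rw [lms] at h
    have h1 := List.append_inj_left' h rfl
    have h2 : sInf {n | x ∈ f₂ '' cyl (lms f₂ x s.length ++ [n])} = n := by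
      simpa using List.append_inj_right' h rfl
    rw [h1] at h2
    refine ⟨⟨⟨hx, h1⟩, ?_⟩, ?_⟩
    · have h3 := Nat.sInf_mem (exists_ext f₂ (h1 ▸ mem_image_lms f₂ hx s.length))
      rw [h2] at h3
      exact h3
    · intro m hm
      have h4 := m.2
      have h5 : (m : ℕ) ∉ {n | x ∈ f₂ '' cyl (s ++ [n])} :=
        Nat.notMem_of_lt_sInf (by rw [h2]; exact h4)
      exact h5 hm
  · rintro ⟨⟨⟨hx, h1⟩, h2⟩, h3⟩
    refine ⟨hx, ?_⟩
    rw [lms, h1]
    congr 2
    apply le_antisymm
    · exact Nat.sInf_le h2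
    · by_contra hlt
      push Not at hlt
      have h4 := Nat.sInf_mem (exists_ext f₂ (h1 ▸ mem_image_lms f₂ hx s.length))
      exact h3 ⟨_, hlt⟩ h4

theorem UM_Zs [MeasurableSpace Y] [BorelSpace Y] (hf : Continuous f₂) (s : List ℕ) :
    UM (Zs f₂ s) := by
  have han : ∀ t : List ℕ, UM (f₂ '' cyl t) := fun t =>
    UM.of_analytic ((isOpen_cyl t).analyticSet_image hf)
  induction s using List.reverseRecOn with
  | nil =>
    have : Zs f₂ [] = f₂ '' cyl [] := by
      ext x
      simp only [Zs, mem_ofPred_eq, List.length_nil, lms, and_true]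
      constructor
      · rintro ⟨z, rfl⟩
        exact ⟨z, mem_cyl_nil z, rfl⟩
      · rintro ⟨z, -, rfl⟩
        exact ⟨z, rfl⟩
    rw [this]
    exact han []
  | append_singleton s n ih =>
    rw [Zs_append]
    exact (ih.inter (han _)).inter (UM.iInter fun m => (han _).compl)

end Unif

variable {G : Type*} [TopologicalSpace G] [PolishSpace G] [MeasurableSpace G] [BorelSpace G]

/-- **A universally measurable transversal.** -/
theorem exists_transversal {E : Set G} (hE : AnalyticSet E) {φ : G → (ℕ → Bool)}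
    (hφ : Measurable φ) : ∃ A ⊆ E, InjOn φ A ∧ φ '' E ⊆ φ '' A ∧ UM A := by
  have hE' := hE
  rw [AnalyticSet] at hE'
  rcases hE' with rfl | ⟨g, hg, rfl⟩
  · exact ⟨∅, Subset.rfl, injOn_empty _, by simp, UM.of_measurable MeasurableSet.empty⟩
  have hT : AnalyticSet (range fun z => (g z, φ (g z))) := by
    rw [← image_univ]
    exact MeasurableSet.univ.analyticSet_image
      (hg.measurable.prodMk (hφ.comp hg.measurable))
  rw [AnalyticSet] at hT
  rcases hT with hT | ⟨f, hf, hfr⟩
  · exact absurd hT (range_nonempty _).ne_empty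
  set f₁ : (ℕ → ℕ) → G := fun z => (f z).1
  set f₂ : (ℕ → ℕ) → (ℕ → Bool) := fun z => (f z).2
  have hf1 : Continuous f₁ := continuous_fst.comp hf
  have hf2 : Continuous f₂ := continuous_snd.comp hf
  have h12 : ∀ z, φ (f₁ z) = f₂ z ∧ f₁ z ∈ range g := by
    intro z
    have : f z ∈ range fun z => (g z, φ (g z)) := by rw [← hfr]; exact ⟨z, rfl⟩
    obtain ⟨w, hw⟩ := this
    simp only [f₁, f₂, ← hw]
    simp
  have hrange : ∀ p ∈ range g, φ p ∈ range f₂ := by
    rintro _ ⟨w, rfl⟩
    have : (g w, φ (g w)) ∈ range f := by rw [hfr]; exact ⟨w, rfl⟩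
    obtain ⟨z, hz⟩ := this
    exact ⟨z, by simp only [f₂, hz]⟩
  set A : Set G := {p | p ∈ range g ∧ f₁ (lm f₂ (φ p)) = p} with hA
  have hAeq : A = range g ∩ ⋂ k : ℕ, ⋃ s : {s : List ℕ // s.length = k},
      (φ ⁻¹' Zs f₂ s ∩ closure (f₁ '' cyl s)) := by
    ext p
    simp only [hA, mem_ofPred_eq, mem_inter_iff, mem_iInter, mem_iUnion, mem_preimage]
    constructor
    · rintro ⟨hp, hp2⟩
      refine ⟨hp, fun k => ⟨⟨lms f₂ (φ p) k, length_lms _ _ _⟩, ?_, ?_⟩⟩
      · exact ⟨hrange p hp, by simp⟩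
      · exact subset_closure ⟨lm f₂ (φ p), lm_mem_cyl _ _ _, hp2⟩
    · rintro ⟨hp, h⟩
      refine ⟨hp, ?_⟩
      by_contra hne
      obtain ⟨U, V, hU, hV, hpU, hpV, hdis⟩ := t2_separation hne
      have hpre : f₁ ⁻¹' U ∈ 𝓝 (lm f₂ (φ p)) := (hU.preimage hf1).mem_nhds hpU
      obtain ⟨k, hk⟩ : ∃ k, cyl (lms f₂ (φ p) k) ⊆ f₁ ⁻¹' U := by
        let _ : MetricSpace (ℕ → ℕ) := PiNat.metricSpaceNatNat
        obtain ⟨δ, hδ, hsub⟩ := Metric.mem_nhds_iff.1 hpre
        obtain ⟨k, hk⟩ : ∃ k : ℕ, (1 / 2 : ℝ) ^ k < δ :=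
          exists_pow_lt_of_lt_one hδ (by norm_num)
        refine ⟨k, fun w hw => hsub ?_⟩
        rw [Metric.mem_ball]
        refine lt_of_le_of_lt ?_ hk
        rw [← PiNat.mem_cylinder_iff_dist_le, PiNat.mem_cylinder_iff]
        intro i hi
        exact eq_of_mem_cyl_lms f₂ hw hi
      obtain ⟨⟨s, hs⟩, h1, h2⟩ := h k
      simp only at h1 h2
      have h3 : lms f₂ (φ p) k = s := by rw [← hs]; exact h1.2
      rw [h3] at hk
      rw [mem_closure_iff] at h2
      obtain ⟨q, hq1, ⟨w, hw, rfl⟩⟩ := h2 V hV hpV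
      exact (disjoint_left.1 hdis) (hk hw) hq1
  refine ⟨A, fun p hp => hp.1, ?_, ?_, ?_⟩
  · intro p hp q hq hpq
    rw [← hp.2, ← hq.2, hpq]
  · rintro _ ⟨p, hp, rfl⟩
    have hx := hrange p hp
    have h1 := f₂_lm f₂ hf2 hx
    refine ⟨f₁ (lm f₂ (φ p)), ⟨(h12 _).2, ?_⟩, ?_⟩
    · rw [(h12 _).1, h1]
    · rw [(h12 _).1, h1]
  · rw [hAeq]
    refine (UM.of_analytic hE).inter (UM.iInter fun k => ?_)
    have : Countable {s : List ℕ // s.length = k} := inferInstance
    refine UM.iUnion fun s => ?_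
    exact ((UM_Zs f₂ hf2 s).preimage hφ).inter (UM.of_measurable isClosed_closure.measurableSet)

end Pool.Agent.HN
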